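import Mathlib

/-!
# Almost primes in half intervals between squares: definitions
-/

set_option autoImplicit false
open Finset

namespace Pool.Agent.Lib.MP_bf4c7f

/-- the number of positive integers up to `n` which are coprime to 30 -/
def C30 (n : ℕ) : ℕ := ((Icc 1 n).filter (fun m => Nat.Coprime m 30)).card

/-- primes in `[7, z]` -/
def P7 (z : ℕ) : Finset ℕ := (Icc 7 z).filter Nat.Prime

/-- the Chebyshev-Mertens sum over primes up to `n` -/
noncomputable def Ls (n : ℕ) : ℝ := ∑ p ∈ (Icc 1 n).filter Nat.Prime, Real.log p / ((p : ℝ) - 1)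

lemma mem_P7 {z p : ℕ} : p ∈ P7 z ↔ p.Prime ∧ 7 ≤ p ∧ p ≤ z := by
  unfold P7
  simp only [mem_filter, mem_Icc]
  tauto

end Pool.Agent.Lib.MP_bf4c7f
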