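import Mathlib
import Pool.Agent.Lib.MP_bf4c7f_nt.Defs

/-!
# Counting integers coprime to 30, and sums of monotone functions over them
-/

set_option autoImplicit false
open Finset

namespace Pool.Agent.Lib.MP_bf4c7f

lemma C30_add_thirty (n : ℕ) : C30 (n + 30) = C30 n + 8 := by
  unfold C30
  have h1 : (Icc 1 (n + 30)).filter (fun m => Nat.Coprime m 30) =
      (Icc 1 n).filter (fun m => Nat.Coprime m 30) ∪
        (Ico (n + 1) (n + 1 + 30)).filter (fun m => Nat.Coprime m 30) := by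
    ext m
    simp only [mem_union, mem_filter, mem_Icc, mem_Ico]
    constructor
    · rintro ⟨⟨h1, h2⟩, h3⟩
      rcases le_or_gt m n with h | h
      · exact Or.inl ⟨⟨h1, h⟩, h3⟩
      · exact Or.inr ⟨⟨h, by omega⟩, h3⟩
    · rintro (⟨⟨h1, h2⟩, h3⟩ | ⟨⟨h1, h2⟩, h3⟩)
      · exact ⟨⟨h1, by omega⟩, h3⟩
      · exact ⟨⟨by omega, by omega⟩, h3⟩
  have h2 : Disjoint ((Icc 1 n).filter (fun m => Nat.Coprime m 30))
      ((Ico (n + 1) (n + 1 + 30)).filter (fun m => Nat.Coprime m 30)) := by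
    rw [Finset.disjoint_left]
    intro m hm hm'
    simp only [mem_filter, mem_Icc, mem_Ico] at hm hm'
    omega
  rw [h1, card_union_of_disjoint h2]
  congr 1
  have hper : Function.Periodic (fun m => Nat.Coprime m 30) 30 := by
    intro m
    simp only [Nat.Coprime, Nat.gcd_add_self_left, eq_iff_iff]
  have h3 := Nat.filter_Ico_card_eq_of_periodic (n + 1) 30 (fun m => Nat.Coprime m 30) hper
  rw [h3]
  decide

lemma C30_bounds (n : ℕ) : 15 * C30 n ≤ 4 * n + 14 ∧ 4 * n ≤ 15 * C30 n + 10 := by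
  induction n using Nat.strong_induction_on with
  | _ n ih =>
    rcases lt_or_ge n 30 with h | h
    · clear ih
      revert h
      revert n
      decide
    · obtain ⟨m, rfl⟩ := Nat.exists_eq_add_of_le h
      rw [add_comm 30 m, C30_add_thirty]
      have := ih m (by omega)
      omega

/-- for real arguments -/
lemma C30_real (t : ℝ) (ht : 0 ≤ t) :
    (C30 ⌊t⌋₊ : ℝ) ≤ 4 / 15 * t + 14 / 15 ∧ 4 / 15 * t - 14 / 15 ≤ (C30 ⌊t⌋₊ : ℝ) := by
  obtain ⟨h1, h2⟩ := C30_bounds ⌊t⌋₊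
  have h3 : (⌊t⌋₊ : ℝ) ≤ t := Nat.floor_le ht
  have h4 : t < (⌊t⌋₊ : ℝ) + 1 := Nat.lt_floor_add_one t
  have h1' : (15 : ℝ) * (C30 ⌊t⌋₊ : ℝ) ≤ 4 * (⌊t⌋₊ : ℝ) + 14 := by exact_mod_cast h1
  have h2' : (4 : ℝ) * (⌊t⌋₊ : ℝ) ≤ 15 * (C30 ⌊t⌋₊ : ℝ) + 10 := by exact_mod_cast h2
  constructor <;> linarith

lemma card_Ioc_coprime (a b : ℕ) (hab : a ≤ b) :
    (((Ioc a b).filter (fun m => Nat.Coprime m 30)).card : ℝ) = (C30 b : ℝ) - C30 a := by
  have h1 : (Icc 1 b).filter (fun m => Nat.Coprime m 30) =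
      (Icc 1 a).filter (fun m => Nat.Coprime m 30) ∪
        (Ioc a b).filter (fun m => Nat.Coprime m 30) := by
    ext m
    simp only [mem_union, mem_filter, mem_Icc, mem_Ioc]
    constructor
    · rintro ⟨⟨h1, h2⟩, h3⟩
      rcases le_or_gt m a with h | h
      · exact Or.inl ⟨⟨h1, h⟩, h3⟩
      · exact Or.inr ⟨⟨h, by omega⟩, h3⟩
    · rintro (⟨⟨h1, h2⟩, h3⟩ | ⟨⟨h1, h2⟩, h3⟩)
      · exact ⟨⟨h1, by omega⟩, h3⟩
      · exact ⟨⟨by omega, by omega⟩, h3⟩
  have h2 : Disjoint ((Icc 1 a).filter (fun m => Nat.Coprime m 30))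
      ((Ioc a b).filter (fun m => Nat.Coprime m 30)) := by
    rw [Finset.disjoint_left]
    intro m hm hm'
    simp only [mem_filter, mem_Icc, mem_Ioc] at hm hm'
    omega
  unfold C30
  rw [h1, card_union_of_disjoint h2]
  push_cast
  ring

/-- the number of multiples of `e` in `(a, b]` which are coprime to 30 -/
theorem count_mult (a b e : ℕ) (hab : a ≤ b) (he0 : 0 < e) (he : Nat.Coprime e 30) :
    |(((Ioc a b).filter (fun n => Nat.Coprime n 30 ∧ e ∣ n)).card : ℝ) -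
      4 / 15 * ((b : ℝ) - a) / e| ≤ 28 / 15 := by
  have heR : (0 : ℝ) < e := by exact_mod_cast he0
  have h1 : (Ioc a b).filter (fun n => Nat.Coprime n 30 ∧ e ∣ n) =
      ((Ioc (a / e) (b / e)).filter (fun m => Nat.Coprime m 30)).image (fun m => e * m) := by
    ext n
    simp only [mem_filter, mem_Ioc, mem_image]
    constructor
    · rintro ⟨⟨h1, h2⟩, h3, ⟨m, rfl⟩⟩
      refine ⟨m, ⟨⟨?_, ?_⟩, ?_⟩, rfl⟩
      · rw [Nat.div_lt_iff_lt_mul he0]; rwa [mul_comm] at h1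
      · rw [Nat.le_div_iff_mul_le he0]; rwa [mul_comm] at h2
      · exact Nat.Coprime.coprime_dvd_left (Dvd.intro_left e rfl) h3
    · rintro ⟨m, ⟨⟨h1, h2⟩, h3⟩, rfl⟩
      rw [Nat.div_lt_iff_lt_mul he0] at h1
      rw [Nat.le_div_iff_mul_le he0] at h2
      refine ⟨⟨by rwa [mul_comm], by rwa [mul_comm]⟩, ?_, dvd_mul_right e m⟩
      exact Nat.Coprime.mul_left he h3
  rw [h1, card_image_of_injective _ (fun x y h => Nat.eq_of_mul_eq_mul_left he0 h),
    card_Ioc_coprime _ _ (Nat.div_le_div_right hab)]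
  have e1 : a / e = ⌊(a : ℝ) / e⌋₊ := (Nat.floor_div_eq_div (K := ℝ) a e).symm
  have e2 : b / e = ⌊(b : ℝ) / e⌋₊ := (Nat.floor_div_eq_div (K := ℝ) b e).symm
  rw [e1, e2]
  obtain ⟨u1, l1⟩ := C30_real ((a : ℝ) / e) (by positivity)
  obtain ⟨u2, l2⟩ := C30_real ((b : ℝ) / e) (by positivity)
  have e3 : 4 / 15 * ((b : ℝ) - a) / e = 4 / 15 * ((b : ℝ) / e) - 4 / 15 * ((a : ℝ) / e) := by
    field_simp
  rw [e3, abs_le]
  constructor <;> linarith

/-- Abel summation. -/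
lemma abel (u F : ℕ → ℝ) (a b : ℕ) (hab : a < b) :
    ∑ n ∈ Ioc a b, u n * F n = (∑ k ∈ Ioc a b, u k) * F b +
      ∑ n ∈ Ioo a b, (∑ k ∈ Ioc a n, u k) * (F n - F (n + 1)) := by
  induction b, hab using Nat.le_induction with
  | base =>
    have h1 : Ioc a a.succ = {a.succ} := by
      ext m; simp only [mem_Ioc, mem_singleton]; omega
    have h2 : Ioo a a.succ = ∅ := by
      ext m; simp only [mem_Ioo, notMem_empty, iff_false]; omega
    rw [h1, h2]
    simp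
  | succ b hb ih =>
    have h2 : Ioo a (b + 1) = insert b (Ioo a b) := by
      ext m; simp only [mem_Ioo, mem_insert]; omega
    rw [Finset.sum_Ioc_succ_top (by omega), Finset.sum_Ioc_succ_top (by omega) (fun k => u k), ih,
      h2, Finset.sum_insert (by simp)]
    ring

lemma abel_single (F : ℕ → ℝ) (a b : ℕ) (hab : a < b) :
    F (a + 1) = F b + ∑ n ∈ Ioo a b, (F n - F (n + 1)) := by
  have h := abel (fun n => if n = a + 1 then 1 else 0) F a b hab
  have h1 : ∀ n, a < n → ∑ k ∈ Ioc a n, (if k = a + 1 then (1 : ℝ) else 0) = 1 := by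
    intro n hn
    rw [Finset.sum_ite_eq' (Ioc a n) (a + 1) (fun _ => (1 : ℝ)), if_pos]
    rw [mem_Ioc]; omega
  have h2 : ∑ n ∈ Ioc a b, (if n = a + 1 then (1 : ℝ) else 0) * F n = F (a + 1) := by
    simp only [ite_mul, one_mul, zero_mul]
    rw [Finset.sum_ite_eq' (Ioc a b) (a + 1) F, if_pos]
    rw [mem_Ioc]; omega
  rw [h2, h1 b hab, one_mul] at h
  rw [h]
  congr 1
  apply Finset.sum_congr rfl
  intro n hn
  rw [h1 n (mem_Ioo.1 hn).1, one_mul]

lemma sum_ind (a n : ℕ) (han : a ≤ n) :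
    ∑ k ∈ Ioc a n, ((if Nat.Coprime k 30 then (1 : ℝ) else 0) - 4 / 15) =
      ((C30 n : ℝ) - C30 a) - 4 / 15 * ((n : ℝ) - a) := by
  rw [Finset.sum_sub_distrib, ← Finset.sum_filter, Finset.sum_const, Finset.sum_const,
    nsmul_eq_mul, mul_one, card_Ioc_coprime a n han, Nat.card_Ioc, nsmul_eq_mul, Nat.cast_sub han]
  ring

/-- upper bound for sums over integers coprime to 30 -/
theorem abel_up (F : ℕ → ℝ) (a b : ℕ) (hab : a < b)
    (hF : ∀ n, a < n → n < b → F (n + 1) ≤ F n) (hF0 : 0 ≤ F b)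
    (κ : ℝ) (hκ2 : 14 - (15 * (C30 a : ℝ) - 4 * a) ≤ 15 * κ) :
    ∑ n ∈ (Ioc a b).filter (fun m => Nat.Coprime m 30), F n ≤
      4 / 15 * ∑ n ∈ Ioc a b, F n + κ * F (a + 1) := by
  have h := abel (fun k => (if Nat.Coprime k 30 then (1 : ℝ) else 0) - 4 / 15) F a b hab
  have h1 : ∑ n ∈ Ioc a b, ((if Nat.Coprime n 30 then (1 : ℝ) else 0) - 4 / 15) * F n =
      ∑ n ∈ (Ioc a b).filter (fun m => Nat.Coprime m 30), F n - 4 / 15 * ∑ n ∈ Ioc a b, F n := by
    rw [Finset.sum_filter, Finset.mul_sum, ← Finset.sum_sub_distrib]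
    apply Finset.sum_congr rfl
    intro n _
    split_ifs <;> ring
  have hV : ∀ n, a < n → ((C30 n : ℝ) - C30 a) - 4 / 15 * ((n : ℝ) - a) ≤ κ := by
    intro n _
    have h2 : (15 : ℝ) * (C30 n : ℝ) ≤ 4 * (n : ℝ) + 14 := by exact_mod_cast (C30_bounds n).1
    linarith
  have h3 := abel_single F a b hab
  rw [h1, sum_ind a b hab.le] at h
  have h4 : ∑ n ∈ Ioo a b, (∑ k ∈ Ioc a n, ((if Nat.Coprime k 30 then (1 : ℝ) else 0) - 4 / 15)) *
      (F n - F (n + 1)) ≤ ∑ n ∈ Ioo a b, κ * (F n - F (n + 1)) := by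
    apply Finset.sum_le_sum
    intro n hn
    rw [mem_Ioo] at hn
    rw [sum_ind a n hn.1.le]
    exact mul_le_mul_of_nonneg_right (hV n hn.1) (by linarith [hF n hn.1 hn.2])
  rw [← Finset.mul_sum] at h4
  have h5 := mul_le_mul_of_nonneg_right (hV b hab) hF0
  have h6 : κ * F (a + 1) = κ * F b + κ * ∑ n ∈ Ioo a b, (F n - F (n + 1)) := by
    rw [h3]; ring
  linarith

/-- lower bound for sums over integers coprime to 30 -/
theorem abel_low (F : ℕ → ℝ) (a b : ℕ) (hab : a < b)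
    (hF : ∀ n, a < n → n < b → F (n + 1) ≤ F n) (hF0 : 0 ≤ F b)
    (κ : ℝ) (hκ2 : 10 + (15 * (C30 a : ℝ) - 4 * a) ≤ 15 * κ) :
    4 / 15 * ∑ n ∈ Ioc a b, F n - κ * F (a + 1) ≤
      ∑ n ∈ (Ioc a b).filter (fun m => Nat.Coprime m 30), F n := by
  have h := abel (fun k => (if Nat.Coprime k 30 then (1 : ℝ) else 0) - 4 / 15) F a b hab
  have h1 : ∑ n ∈ Ioc a b, ((if Nat.Coprime n 30 then (1 : ℝ) else 0) - 4 / 15) * F n =
      ∑ n ∈ (Ioc a b).filter (fun m => Nat.Coprime m 30), F n - 4 / 15 * ∑ n ∈ Ioc a b, F n := by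
    rw [Finset.sum_filter, Finset.mul_sum, ← Finset.sum_sub_distrib]
    apply Finset.sum_congr rfl
    intro n _
    split_ifs <;> ring
  have hV : ∀ n, a < n → -κ ≤ ((C30 n : ℝ) - C30 a) - 4 / 15 * ((n : ℝ) - a) := by
    intro n _
    have h2 : (4 : ℝ) * (n : ℝ) ≤ 15 * (C30 n : ℝ) + 10 := by exact_mod_cast (C30_bounds n).2
    linarith
  have h3 := abel_single F a b hab
  rw [h1, sum_ind a b hab.le] at h
  have h4 : ∑ n ∈ Ioo a b, (-κ) * (F n - F (n + 1)) ≤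
      ∑ n ∈ Ioo a b, (∑ k ∈ Ioc a n, ((if Nat.Coprime k 30 then (1 : ℝ) else 0) - 4 / 15)) *
      (F n - F (n + 1)) := by
    apply Finset.sum_le_sum
    intro n hn
    rw [mem_Ioo] at hn
    rw [sum_ind a n hn.1.le]
    exact mul_le_mul_of_nonneg_right (hV n hn.1) (by linarith [hF n hn.1 hn.2])
  rw [← Finset.mul_sum] at h4
  have h5 := mul_le_mul_of_nonneg_right (hV b hab) hF0
  have h6 : κ * F (a + 1) = κ * F b + κ * ∑ n ∈ Ioo a b, (F n - F (n + 1)) := by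
    rw [h3]; ring
  linarith

end Pool.Agent.Lib.MP_bf4c7f
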