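import Mathlib
import Pool.Agent.Lib.MP_bf4c7f_nt.Count

/-!
# Explicit estimates for the sum of `log p / (p - 1)` over primes
-/

set_option autoImplicit false
open Finset

namespace Pool.Agent.Lib.MP_bf4c7f

/-! ### the sum of logarithms -/

lemma inv_succ_le_log (b : ℕ) (hb : 0 < b) :
    (1 : ℝ) / ((b : ℝ) + 1) ≤ Real.log ((b : ℝ) + 1) - Real.log b := by
  have hbR : (0 : ℝ) < b := by exact_mod_cast hb
  have h1 : Real.log ((b : ℝ) / (b + 1)) ≤ (b : ℝ) / (b + 1) - 1 :=
    Real.log_le_sub_one_of_pos (by positivity)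
  rw [Real.log_div (by positivity) (by positivity)] at h1
  have h3 : (b : ℝ) / (b + 1) - 1 = - (1 / ((b : ℝ) + 1)) := by field_simp; ring
  linarith

lemma log_succ_le (b : ℕ) (hb : 0 < b) :
    Real.log ((b : ℝ) + 1) - Real.log b ≤ 1 / (b : ℝ) := by
  have hbR : (0 : ℝ) < b := by exact_mod_cast hb
  have h1 : Real.log (((b : ℝ) + 1) / b) ≤ ((b : ℝ) + 1) / b - 1 :=
    Real.log_le_sub_one_of_pos (by positivity)
  rw [Real.log_div (by positivity) (by positivity)] at h1
  have h3 : ((b : ℝ) + 1) / b - 1 = 1 / (b : ℝ) := by field_simp; ring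
  linarith

lemma sum_log_upper (n : ℕ) (hn : 1 ≤ n) :
    ∑ m ∈ Icc 1 n, Real.log m ≤ ((n : ℝ) + 1) * Real.log n - n + 1 := by
  induction n, hn using Nat.le_induction with
  | base => simp
  | succ n hn ih =>
    rw [Finset.sum_Icc_succ_top (by omega)]
    have h := inv_succ_le_log n hn
    have hn0 : (0 : ℝ) < (n : ℝ) + 1 := by positivity
    rw [div_le_iff₀ hn0] at h
    push_cast
    nlinarith

lemma sum_log_lower (n : ℕ) (hn : 1 ≤ n) :
    (n : ℝ) * Real.log n - n + 1 ≤ ∑ m ∈ Icc 1 n, Real.log m := by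
  induction n, hn using Nat.le_induction with
  | base => simp
  | succ n hn ih =>
    rw [Finset.sum_Icc_succ_top (by omega)]
    have h := log_succ_le n hn
    have hn0 : (0 : ℝ) < (n : ℝ) := by exact_mod_cast hn
    rw [le_div_iff₀ hn0] at h
    push_cast
    nlinarith

/-! ### lower bound -/

lemma log_factorial_eq (n : ℕ) :
    Real.log (n.factorial : ℝ) =
      ∑ p ∈ (Icc 1 n).filter Nat.Prime, ((n.factorial.factorization p : ℕ) : ℝ) * Real.log p := by
  rw [Real.log_nat_eq_sum_factorization]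
  unfold Finsupp.sum
  apply Finset.sum_subset
  · intro p hp
    rw [Nat.support_factorization, Nat.mem_primeFactors] at hp
    rw [mem_filter, mem_Icc]
    exact ⟨⟨hp.1.one_le, (Nat.Prime.dvd_factorial hp.1).1 hp.2.1⟩, hp.1⟩
  · intro p _ hp
    rw [Finsupp.notMem_support_iff.1 hp]
    simp

lemma factorization_factorial_le (n p : ℕ) (hp : p.Prime) :
    ((n.factorial.factorization p : ℕ) : ℝ) ≤ (n : ℝ) / ((p : ℝ) - 1) := by
  haveI : Fact p.Prime := ⟨hp⟩
  have h1 := sub_one_mul_padicValNat_factorial (p := p) n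
  have hp1 : (0 : ℝ) < (p : ℝ) - 1 := by
    have : (1 : ℝ) < p := by exact_mod_cast hp.one_lt
    linarith
  rw [le_div_iff₀ hp1, Nat.factorization_def _ hp]
  have h2 : (p - 1) * padicValNat p n.factorial ≤ n := by
    rw [h1]; exact Nat.sub_le _ _
  have h3 : ((p - 1 : ℕ) : ℝ) * (padicValNat p n.factorial : ℝ) ≤ n := by exact_mod_cast h2
  rw [Nat.cast_sub hp.one_le] at h3
  push_cast at h3
  linarith

lemma log_factorial_sum (n : ℕ) : Real.log (n.factorial : ℝ) = ∑ m ∈ Icc 1 n, Real.log m := by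
  induction n with
  | zero => simp
  | succ n ih =>
    rw [Finset.sum_Icc_succ_top (by omega), Nat.factorial_succ, Nat.cast_mul,
      Real.log_mul (by positivity) (by exact_mod_cast n.factorial_ne_zero), ih]
    ring

theorem Ls_lower (n : ℕ) (hn : 1 ≤ n) : Real.log n - 1 ≤ Ls n := by
  have hnR : (0 : ℝ) < n := by exact_mod_cast hn
  have h1 := sum_log_lower n hn
  rw [← log_factorial_sum, log_factorial_eq] at h1
  have h2 : ∑ p ∈ (Icc 1 n).filter Nat.Prime,
      ((n.factorial.factorization p : ℕ) : ℝ) * Real.log p ≤ n * Ls n := by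
    unfold Ls
    rw [Finset.mul_sum]
    apply Finset.sum_le_sum
    intro p hp
    rw [mem_filter, mem_Icc] at hp
    have h3 := factorization_factorial_le n p hp.2
    have h4 : 0 ≤ Real.log p := Real.log_nonneg (by exact_mod_cast hp.1.1)
    calc ((n.factorial.factorization p : ℕ) : ℝ) * Real.log p
        ≤ (n : ℝ) / ((p : ℝ) - 1) * Real.log p := mul_le_mul_of_nonneg_right h3 h4
      _ = _ := by ring
  have h3 : (n : ℝ) * (Real.log n - 1) ≤ n * Ls n := by nlinarith
  exact le_of_mul_le_mul_left h3 hnR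

/-! ### upper bound -/

/-- some proper prime powers -/
def powers : Finset ℕ := {4, 8, 16, 32, 9, 27, 25}

lemma vm (p k : ℕ) (hp : p.Prime) (hk : k ≠ 0) :
    ArithmeticFunction.vonMangoldt (p ^ k) = Real.log p := by
  rw [ArithmeticFunction.vonMangoldt_apply_pow hk, ArithmeticFunction.vonMangoldt_apply_prime hp]

lemma vonMangoldt_powers :
    ∑ d ∈ powers, ArithmeticFunction.vonMangoldt d = 4 * Real.log 2 + 2 * Real.log 3 + Real.log 5 ∧
    ∑ d ∈ powers, ArithmeticFunction.vonMangoldt d / d =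
      15 / 32 * Real.log 2 + 4 / 27 * Real.log 3 + 1 / 25 * Real.log 5 := by
  have e4 : ArithmeticFunction.vonMangoldt 4 = Real.log 2 := by
    have := vm 2 2 (by norm_num) (by norm_num)
    exact_mod_cast this
  have e8 : ArithmeticFunction.vonMangoldt 8 = Real.log 2 := by
    have := vm 2 3 (by norm_num) (by norm_num)
    exact_mod_cast this
  have e16 : ArithmeticFunction.vonMangoldt 16 = Real.log 2 := by
    have := vm 2 4 (by norm_num) (by norm_num)
    exact_mod_cast this
  have e32 : ArithmeticFunction.vonMangoldt 32 = Real.log 2 := by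
    have := vm 2 5 (by norm_num) (by norm_num)
    exact_mod_cast this
  have e9 : ArithmeticFunction.vonMangoldt 9 = Real.log 3 := by
    have := vm 3 2 (by norm_num) (by norm_num)
    exact_mod_cast this
  have e27 : ArithmeticFunction.vonMangoldt 27 = Real.log 3 := by
    have := vm 3 3 (by norm_num) (by norm_num)
    exact_mod_cast this
  have e25 : ArithmeticFunction.vonMangoldt 25 = Real.log 5 := by
    have := vm 5 2 (by norm_num) (by norm_num)
    exact_mod_cast this
  unfold powers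
  constructor
  · rw [Finset.sum_insert (by decide), Finset.sum_insert (by decide), Finset.sum_insert (by decide),
      Finset.sum_insert (by decide), Finset.sum_insert (by decide), Finset.sum_insert (by decide),
      Finset.sum_singleton, e4, e8, e16, e32, e9, e27, e25]
    ring
  · rw [Finset.sum_insert (by decide), Finset.sum_insert (by decide), Finset.sum_insert (by decide),
      Finset.sum_insert (by decide), Finset.sum_insert (by decide), Finset.sum_insert (by decide),
      Finset.sum_singleton, e4, e8, e16, e32, e9, e27, e25]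
    push_cast
    ring

lemma sum_log_eq (n : ℕ) : ∑ m ∈ Icc 1 n, Real.log m =
    ∑ d ∈ Icc 1 n, ArithmeticFunction.vonMangoldt d * ((n / d : ℕ) : ℝ) := by
  have h1 : ∀ m ∈ Icc 1 n, Real.log m =
      ∑ d ∈ Icc 1 n, if d ∣ m then ArithmeticFunction.vonMangoldt d else 0 := by
    intro m hm
    rw [mem_Icc] at hm
    rw [← ArithmeticFunction.vonMangoldt_sum, ← Finset.sum_filter]
    apply Finset.sum_congr _ (fun _ _ => rfl)
    ext d
    simp only [Nat.mem_divisors, mem_filter, mem_Icc]
    constructor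
    · rintro ⟨h, _⟩
      exact ⟨⟨Nat.pos_of_dvd_of_pos h hm.1, (Nat.le_of_dvd hm.1 h).trans hm.2⟩, h⟩
    · rintro ⟨_, h⟩
      exact ⟨h, by omega⟩
  rw [Finset.sum_congr rfl h1, Finset.sum_comm]
  apply Finset.sum_congr rfl
  intro d _
  rw [← Finset.sum_filter, Finset.sum_const, nsmul_eq_mul, mul_comm]
  congr 2
  have := Nat.Ioc_filter_dvd_card_eq_div n d
  rw [← this]
  congr 1

lemma floor_ge (n d : ℕ) (hd : 0 < d) : (n : ℝ) / d - 1 ≤ ((n / d : ℕ) : ℝ) := by
  have hdR : (0 : ℝ) < d := by exact_mod_cast hd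
  have h1 := Nat.lt_mul_div_succ n hd
  have h2 : (n : ℝ) < (d : ℝ) * (((n / d : ℕ) : ℝ) + 1) := by exact_mod_cast h1
  have h3 : (n : ℝ) / d < ((n / d : ℕ) : ℝ) + 1 := by
    rw [div_lt_iff₀ hdR]; linarith [mul_comm (d : ℝ) (((n / d : ℕ) : ℝ) + 1)]
  linarith

lemma sum_log_prime_le (n : ℕ) :
    ∑ p ∈ (Icc 1 n).filter Nat.Prime, Real.log p ≤ Real.log 4 * n := by
  have h := Chebyshev.theta_le_log4_mul_x (x := (n : ℝ)) (by positivity)
  refine le_trans (le_of_eq ?_) h
  rw [Chebyshev.theta, Nat.floor_natCast]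
  apply Finset.sum_congr _ (fun _ _ => rfl)
  ext p
  simp only [mem_filter, mem_Ioc, mem_Icc]
  constructor
  · rintro ⟨⟨h1, h2⟩, h3⟩; exact ⟨⟨h1, h2⟩, h3⟩
  · rintro ⟨⟨h1, h2⟩, h3⟩; exact ⟨⟨h1, h2⟩, h3⟩

theorem sum_log_div_upper (n : ℕ) (hn : 32 ≤ n) :
    ∑ p ∈ (Icc 1 n).filter Nat.Prime, Real.log p / p ≤
      Real.log n - 1 + Real.log 4 -
        (15 / 32 * Real.log 2 + 4 / 27 * Real.log 3 + 1 / 25 * Real.log 5) +
        (Real.log n + 1 + (4 * Real.log 2 + 2 * Real.log 3 + Real.log 5)) / n := by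
  have hnR : (0 : ℝ) < n := by
    have : 0 < n := by omega
    exact_mod_cast this
  have h1 := sum_log_upper n (by omega)
  rw [sum_log_eq] at h1
  have hdisj : Disjoint ((Icc 1 n).filter Nat.Prime) powers := by
    rw [Finset.disjoint_left]
    intro p hp hp'
    have hpp := (mem_filter.1 hp).2
    unfold powers at hp'
    simp only [mem_insert, mem_singleton] at hp'
    rcases hp' with rfl | rfl | rfl | rfl | rfl | rfl | rfl <;> revert hpp <;> norm_num
  have hsub : (Icc 1 n).filter Nat.Prime ∪ powers ⊆ Icc 1 n := by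
    apply union_subset (filter_subset _ _)
    intro d hd
    unfold powers at hd
    simp only [mem_insert, mem_singleton] at hd
    rw [mem_Icc]
    omega
  have h2 : ∑ d ∈ (Icc 1 n).filter Nat.Prime ∪ powers,
      ArithmeticFunction.vonMangoldt d * ((n / d : ℕ) : ℝ) ≤
      ∑ d ∈ Icc 1 n, ArithmeticFunction.vonMangoldt d * ((n / d : ℕ) : ℝ) := by
    apply Finset.sum_le_sum_of_subset_of_nonneg hsub
    intro d _ _
    exact mul_nonneg ArithmeticFunction.vonMangoldt_nonneg (by positivity)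
  have h3 : ∑ d ∈ (Icc 1 n).filter Nat.Prime ∪ powers,
      ArithmeticFunction.vonMangoldt d * ((n : ℝ) / d - 1) ≤
      ∑ d ∈ (Icc 1 n).filter Nat.Prime ∪ powers,
        ArithmeticFunction.vonMangoldt d * ((n / d : ℕ) : ℝ) := by
    apply Finset.sum_le_sum
    intro d hd
    apply mul_le_mul_of_nonneg_left _ ArithmeticFunction.vonMangoldt_nonneg
    exact floor_ge n d (mem_Icc.1 (hsub hd)).1
  rw [Finset.sum_union hdisj] at h3
  have h4 : ∑ d ∈ (Icc 1 n).filter Nat.Prime, ArithmeticFunction.vonMangoldt d * ((n : ℝ) / d - 1)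
      = n * ∑ p ∈ (Icc 1 n).filter Nat.Prime, Real.log p / p -
        ∑ p ∈ (Icc 1 n).filter Nat.Prime, Real.log p := by
    rw [Finset.mul_sum, ← Finset.sum_sub_distrib]
    apply Finset.sum_congr rfl
    intro p hp
    rw [ArithmeticFunction.vonMangoldt_apply_prime (mem_filter.1 hp).2]
    ring
  have h5 : ∑ d ∈ powers, ArithmeticFunction.vonMangoldt d * ((n : ℝ) / d - 1)
      = n * ∑ d ∈ powers, ArithmeticFunction.vonMangoldt d / d -
        ∑ d ∈ powers, ArithmeticFunction.vonMangoldt d := by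
    rw [Finset.mul_sum, ← Finset.sum_sub_distrib]
    apply Finset.sum_congr rfl
    intro p _
    ring
  rw [h4, h5, vonMangoldt_powers.1, vonMangoldt_powers.2] at h3
  have h6 := sum_log_prime_le n
  set S := ∑ p ∈ (Icc 1 n).filter Nat.Prime, Real.log p / p with hS
  have h7 : (n : ℝ) * S ≤ n * (Real.log n - 1 + Real.log 4 -
        (15 / 32 * Real.log 2 + 4 / 27 * Real.log 3 + 1 / 25 * Real.log 5) +
        (Real.log n + 1 + (4 * Real.log 2 + 2 * Real.log 3 + Real.log 5)) / n) := by
    have e1 : (n : ℝ) * (Real.log n - 1 + Real.log 4 -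
        (15 / 32 * Real.log 2 + 4 / 27 * Real.log 3 + 1 / 25 * Real.log 5) +
        (Real.log n + 1 + (4 * Real.log 2 + 2 * Real.log 3 + Real.log 5)) / n) =
        n * (Real.log n - 1 + Real.log 4 -
        (15 / 32 * Real.log 2 + 4 / 27 * Real.log 3 + 1 / 25 * Real.log 5)) +
        (Real.log n + 1 + (4 * Real.log 2 + 2 * Real.log 3 + Real.log 5)) := by
      field_simp
    rw [e1]
    nlinarith
  exact le_of_mul_le_mul_left h7 hnR

end Pool.Agent.Lib.MP_bf4c7f
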