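import Mathlib
import Pool.Agent.Lib.MP_bf4c7f_nt.PrimeSum

/-!
# Numerical estimates for sums over small primes
-/

set_option autoImplicit false
open Finset

namespace Pool.Agent.Lib.MP_bf4c7f

/-- the integer part of `400 log p / log 2` -/
def flog (p : ℕ) : ℕ := Nat.log 2 (p ^ 400)

lemma flog_le_log (p : ℕ) (hp : 1 ≤ p) : (flog p : ℝ) / 400 * Real.log 2 ≤ Real.log p := by
  have hpR : (0 : ℝ) < p := by exact_mod_cast hp
  have h1 : 2 ^ flog p ≤ p ^ 400 := Nat.pow_log_le_self 2 (by positivity)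
  have h2 : ((2 : ℝ)) ^ flog p ≤ (p : ℝ) ^ 400 := by exact_mod_cast h1
  have h3 := Real.log_le_log (by positivity) h2
  rw [Real.log_pow, Real.log_pow] at h3
  push_cast at h3
  linarith

lemma log_le_flog (p : ℕ) (hp : 1 ≤ p) :
    Real.log p ≤ ((flog p : ℝ) + 1) / 400 * Real.log 2 := by
  have hpR : (0 : ℝ) < p := by exact_mod_cast hp
  have h1 : p ^ 400 < 2 ^ (flog p + 1) := Nat.lt_pow_succ_log_self (by norm_num) _
  have h2 : (p : ℝ) ^ 400 ≤ (2 : ℝ) ^ (flog p + 1) := by exact_mod_cast h1.le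
  have h3 := Real.log_le_log (by positivity) h2
  rw [Real.log_pow, Real.log_pow] at h3
  push_cast at h3
  linarith

lemma nat_div_le (a b : ℕ) (hb : 0 < b) : (a : ℝ) / b ≤ ((a * 10 ^ 12 / b : ℕ) + 1 : ℝ) / 10 ^ 12 := by
  have hbR : (0 : ℝ) < b := by exact_mod_cast hb
  have h1 : a * 10 ^ 12 < b * (a * 10 ^ 12 / b + 1) := Nat.lt_mul_div_succ _ hb
  have h2 : (a : ℝ) * 10 ^ 12 ≤ b * (((a * 10 ^ 12 / b : ℕ) : ℝ) + 1) := by exact_mod_cast h1.le
  rw [div_le_div_iff₀ hbR (by positivity)]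
  linarith

lemma le_nat_div (a b : ℕ) (hb : 0 < b) : ((a * 10 ^ 12 / b : ℕ) : ℝ) / 10 ^ 12 ≤ (a : ℝ) / b := by
  have hbR : (0 : ℝ) < b := by exact_mod_cast hb
  have h1 : (a * 10 ^ 12 / b) * b ≤ a * 10 ^ 12 := Nat.div_mul_le_self _ _
  have h2 : (((a * 10 ^ 12 / b : ℕ) : ℝ)) * b ≤ (a : ℝ) * 10 ^ 12 := by exact_mod_cast h1
  rw [div_le_div_iff₀ (by positivity) hbR]
  linarith

lemma qK : ∑ p ∈ (Icc 1 100).filter Nat.Prime,
    ((flog p + 1) * 10 ^ 12 / (400 * (p * (p - 1))) + 1) ≤ 1076744000000 := by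
  decide +kernel

lemma qA1 : ∑ p ∈ (Icc 7 100).filter Nat.Prime, (1 * 10 ^ 12 / (p - 1) + 1) ≤ 824146000000 := by
  decide +kernel

lemma qA2 : 3562360000000 ≤ ∑ p ∈ (Icc 7 100).filter Nat.Prime,
    (flog p * 10 ^ 12 / (400 * (p - 1))) := by
  decide +kernel

lemma qL : 5933600000000 ≤ ∑ p ∈ (Icc 1 100).filter Nat.Prime,
    (flog p * 10 ^ 12 / (400 * (p - 1))) := by
  decide +kernel

lemma pred_cast {p : ℕ} (hp : p.Prime) : ((p - 1 : ℕ) : ℝ) = (p : ℝ) - 1 := by
  rw [Nat.cast_sub hp.one_le]; simp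

lemma pred_pos {p : ℕ} (hp : p.Prime) : (0 : ℝ) < (p : ℝ) - 1 := by
  have : (1 : ℝ) < p := by exact_mod_cast hp.one_lt
  linarith

theorem K100 : ∑ p ∈ (Icc 1 100).filter Nat.Prime, Real.log p / ((p : ℝ) * ((p : ℝ) - 1)) ≤
    0.7465 := by
  have h1 : ∀ p ∈ (Icc 1 100).filter Nat.Prime, Real.log p / ((p : ℝ) * ((p : ℝ) - 1)) ≤
      Real.log 2 / 10 ^ 12 *
        (((flog p + 1) * 10 ^ 12 / (400 * (p * (p - 1))) + 1 : ℕ) : ℝ) := by
    intro p hp
    have hpp := (mem_filter.1 hp).2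
    have hp1 := pred_pos hpp
    have hpR : (0 : ℝ) < p := by exact_mod_cast hpp.pos
    have h2 := log_le_flog p hpp.one_le
    have h3 := nat_div_le (flog p + 1) (400 * (p * (p - 1)))
      (by have := hpp.pos; have := hpp.one_lt; have : 0 < p - 1 := by omega
          positivity)
    have h4 : ((400 * (p * (p - 1)) : ℕ) : ℝ) = 400 * (p * ((p : ℝ) - 1)) := by
      rw [Nat.cast_mul, Nat.cast_mul, pred_cast hpp]; norm_num
    rw [h4] at h3
    have hl2 : 0 ≤ Real.log 2 := Real.log_nonneg (by norm_num)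
    calc Real.log p / ((p : ℝ) * ((p : ℝ) - 1))
        ≤ (((flog p : ℝ) + 1) / 400 * Real.log 2) / ((p : ℝ) * ((p : ℝ) - 1)) := by gcongr
      _ = Real.log 2 * (((flog p + 1 : ℕ) : ℝ) / (400 * (p * ((p : ℝ) - 1)))) := by
          push_cast; field_simp
      _ ≤ Real.log 2 * ((((flog p + 1) * 10 ^ 12 / (400 * (p * (p - 1))) : ℕ) + 1 : ℝ)
            / 10 ^ 12) := mul_le_mul_of_nonneg_left h3 hl2
      _ = _ := by push_cast; ring
  refine (Finset.sum_le_sum h1).trans ?_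
  rw [← Finset.mul_sum, ← Nat.cast_sum]
  have h2 : ((∑ p ∈ (Icc 1 100).filter Nat.Prime,
    ((flog p + 1) * 10 ^ 12 / (400 * (p * (p - 1))) + 1) : ℕ) : ℝ) ≤ 1076744000000 := by
    exact_mod_cast qK
  have hl2 : 0 ≤ Real.log 2 := Real.log_nonneg (by norm_num)
  have hl3 := Real.log_two_lt_d9
  calc Real.log 2 / 10 ^ 12 * _ ≤ Real.log 2 / 10 ^ 12 * 1076744000000 :=
        mul_le_mul_of_nonneg_left h2 (by positivity)
    _ ≤ _ := by norm_num at hl3 ⊢; linarith

theorem A1 : ∑ p ∈ (Icc 7 100).filter Nat.Prime, 1 / ((p : ℝ) - 1) ≤ 0.824146 := by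
  have h1 : ∀ p ∈ (Icc 7 100).filter Nat.Prime, 1 / ((p : ℝ) - 1) ≤
      1 / 10 ^ 12 * ((1 * 10 ^ 12 / (p - 1) + 1 : ℕ) : ℝ) := by
    intro p hp
    have hpp := (mem_filter.1 hp).2
    have h3 := nat_div_le 1 (p - 1) (by have := hpp.one_lt; omega)
    rw [pred_cast hpp, Nat.cast_one] at h3
    refine h3.trans (le_of_eq ?_)
    push_cast; ring
  refine (Finset.sum_le_sum h1).trans ?_
  rw [← Finset.mul_sum, ← Nat.cast_sum]
  have h2 : ((∑ p ∈ (Icc 7 100).filter Nat.Prime, (1 * 10 ^ 12 / (p - 1) + 1) : ℕ) : ℝ) ≤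
      824146000000 := by exact_mod_cast qA1
  calc 1 / 10 ^ 12 * _ ≤ 1 / 10 ^ 12 * (824146000000 : ℝ) :=
        mul_le_mul_of_nonneg_left h2 (by positivity)
    _ ≤ _ := by norm_num

lemma term_lower (p : ℕ) (hpp : p.Prime) :
    Real.log 2 / 10 ^ 12 * ((flog p * 10 ^ 12 / (400 * (p - 1)) : ℕ) : ℝ) ≤
      Real.log p / ((p : ℝ) - 1) := by
  have hp1 := pred_pos hpp
  have h2 := flog_le_log p hpp.one_le
  have h3 := le_nat_div (flog p) (400 * (p - 1))
    (by have := hpp.one_lt; have : 0 < p - 1 := by omega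
        positivity)
  have h4 : ((400 * (p - 1) : ℕ) : ℝ) = 400 * ((p : ℝ) - 1) := by
    rw [Nat.cast_mul, pred_cast hpp]; norm_num
  rw [h4] at h3
  have hl2 : 0 ≤ Real.log 2 := Real.log_nonneg (by norm_num)
  calc Real.log 2 / 10 ^ 12 * ((flog p * 10 ^ 12 / (400 * (p - 1)) : ℕ) : ℝ)
      = Real.log 2 * (((flog p * 10 ^ 12 / (400 * (p - 1)) : ℕ) : ℝ) / 10 ^ 12) := by ring
    _ ≤ Real.log 2 * ((flog p : ℝ) / (400 * ((p : ℝ) - 1))) := mul_le_mul_of_nonneg_left h3 hl2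
    _ = ((flog p : ℝ) / 400 * Real.log 2) / ((p : ℝ) - 1) := by field_simp
    _ ≤ _ := by gcongr

theorem A2 : 2.469 ≤ ∑ p ∈ (Icc 7 100).filter Nat.Prime, Real.log p / ((p : ℝ) - 1) := by
  refine le_trans ?_ (Finset.sum_le_sum (fun p hp => term_lower p (mem_filter.1 hp).2))
  rw [← Finset.mul_sum, ← Nat.cast_sum]
  have h2 : (3562360000000 : ℝ) ≤ ((∑ p ∈ (Icc 7 100).filter Nat.Prime,
    (flog p * 10 ^ 12 / (400 * (p - 1))) : ℕ) : ℝ) := by exact_mod_cast qA2
  have hl3 := Real.log_two_gt_d9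
  have hl2 : 0 ≤ Real.log 2 := Real.log_nonneg (by norm_num)
  calc (2.469 : ℝ) ≤ Real.log 2 / 10 ^ 12 * 3562360000000 := by norm_num at hl3 ⊢; linarith
    _ ≤ _ := mul_le_mul_of_nonneg_left h2 (by positivity)

theorem L100 : 4.1128 ≤ Ls 100 := by
  unfold Ls
  refine le_trans ?_ (Finset.sum_le_sum (fun p hp => term_lower p (mem_filter.1 hp).2))
  rw [← Finset.mul_sum, ← Nat.cast_sum]
  have h2 : (5933600000000 : ℝ) ≤ ((∑ p ∈ (Icc 1 100).filter Nat.Prime,
    (flog p * 10 ^ 12 / (400 * (p - 1))) : ℕ) : ℝ) := by exact_mod_cast qL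
  have hl3 := Real.log_two_gt_d9
  have hl2 : 0 ≤ Real.log 2 := Real.log_nonneg (by norm_num)
  calc (4.1128 : ℝ) ≤ Real.log 2 / 10 ^ 12 * 5933600000000 := by norm_num at hl3 ⊢; linarith
    _ ≤ _ := mul_le_mul_of_nonneg_left h2 (by positivity)

lemma log3 : 1.0968 ≤ Real.log 3 ∧ Real.log 3 ≤ 1.1001 := by
  have h1 := flog_le_log 3 (by norm_num)
  have h2 := log_le_flog 3 (by norm_num)
  have h3 : flog 3 = 633 := by decide +kernel
  rw [h3] at h1 h2
  have hl3 := Real.log_two_gt_d9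
  have hl4 := Real.log_two_lt_d9
  push_cast at h1 h2
  norm_num at h1 h2 hl3 hl4 ⊢
  constructor <;> linarith

lemma log5 : 1.6080 ≤ Real.log 5 ∧ Real.log 5 ≤ 1.6100 := by
  have h1 := flog_le_log 5 (by norm_num)
  have h2 := log_le_flog 5 (by norm_num)
  have h3 : flog 5 = 928 := by decide +kernel
  rw [h3] at h1 h2
  have hl3 := Real.log_two_gt_d9
  have hl4 := Real.log_two_lt_d9
  push_cast at h1 h2
  norm_num at h1 h2 hl3 hl4 ⊢
  constructor <;> linarith

/-! ### the sum over proper prime powers -/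

lemma prime_coprime_30 {p : ℕ} (hp : p.Prime) (h7 : 7 ≤ p) : Nat.Coprime p 30 := by
  rw [Nat.Prime.coprime_iff_not_dvd hp]
  intro h
  have h2 : p ∣ 2 * (3 * 5) := by simpa using h
  rcases (Nat.Prime.dvd_mul hp).1 h2 with h3 | h3
  · have := Nat.le_of_dvd (by norm_num) h3; omega
  · rcases (Nat.Prime.dvd_mul hp).1 h3 with h4 | h4
    · have := Nat.le_of_dvd (by norm_num) h4; omega
    · have := Nat.le_of_dvd (by norm_num) h4; omega

lemma tail_sum (n : ℕ) (hn : 100 ≤ n) :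
    ∑ m ∈ Ioc 100 n, Real.log m / ((m : ℝ) * ((m : ℝ) - 1)) ≤
      (Real.log 100 + 1.01) / 100 - (Real.log n + 1.01) / n := by
  induction n, hn using Nat.le_induction with
  | base => simp
  | succ n hn ih =>
    rw [Finset.sum_Ioc_succ_top (by omega)]
    have hnR : (100 : ℝ) ≤ n := by exact_mod_cast hn
    have h1 := log_succ_le n (by omega)
    rw [le_div_iff₀ (by linarith)] at h1
    have h2 : Real.log ((n + 1 : ℕ) : ℝ) / (((n + 1 : ℕ) : ℝ) * (((n + 1 : ℕ) : ℝ) - 1)) ≤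
        (Real.log n + 1.01) / n - (Real.log ((n + 1 : ℕ) : ℝ) + 1.01) / ((n + 1 : ℕ) : ℝ) := by
      push_cast
      rw [add_sub_cancel_right, div_sub_div _ _ (by linarith) (by linarith),
        div_le_div_iff₀ (by positivity) (by positivity)]
      have h3 : Real.log ((n : ℝ) + 1) ≤ (Real.log n + 1.01) * ((n : ℝ) + 1) -
          n * (Real.log ((n : ℝ) + 1) + 1.01) := by nlinarith
      nlinarith [mul_le_mul_of_nonneg_right h3 (by positivity : (0 : ℝ) ≤ (n : ℝ) * (n + 1))]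
    linarith

lemma C30_100 : C30 100 = 26 := by decide +kernel

lemma tail_anti (n : ℕ) (hn : 7 ≤ n) :
    Real.log ((n + 1 : ℕ) : ℝ) / (((n + 1 : ℕ) : ℝ) * (((n + 1 : ℕ) : ℝ) - 1)) ≤
      Real.log n / ((n : ℝ) * ((n : ℝ) - 1)) := by
  have hnR : (7 : ℝ) ≤ n := by exact_mod_cast hn
  have h1 := log_succ_le n (by omega)
  rw [le_div_iff₀ (by linarith)] at h1
  have h2 : 1 / 2 ≤ Real.log n := by
    have : Real.log 2 ≤ Real.log n := Real.log_le_log (by norm_num) (by linarith)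
    linarith [Real.log_two_gt_d9]
  push_cast
  rw [add_sub_cancel_right, div_le_div_iff₀ (by positivity) (by nlinarith)]
  have h3 : Real.log ((n : ℝ) + 1) * ((n : ℝ) - 1) ≤ Real.log n * ((n : ℝ) + 1) := by
    have h4 : Real.log ((n : ℝ) + 1) ≤ Real.log n + 1 / n := by
      have := log_succ_le n (by omega); linarith
    have h5 : Real.log ((n : ℝ) + 1) * ((n : ℝ) - 1) ≤ (Real.log n + 1 / n) * ((n : ℝ) - 1) :=
      mul_le_mul_of_nonneg_right h4 (by linarith)
    have h6 : 1 / (n : ℝ) * ((n : ℝ) - 1) ≤ 1 := by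
      rw [div_mul_eq_mul_div, one_mul, div_le_one (by linarith)]; linarith
    nlinarith
  nlinarith [mul_le_mul_of_nonneg_right h3 (by linarith : (0 : ℝ) ≤ (n : ℝ))]

theorem K_bound (n : ℕ) :
    ∑ p ∈ (Icc 1 n).filter Nat.Prime, Real.log p / ((p : ℝ) * ((p : ℝ) - 1)) ≤ 0.763 := by
  have hnn : ∀ p : ℕ, p.Prime → 0 ≤ Real.log p / ((p : ℝ) * ((p : ℝ) - 1)) := by
    intro p hp
    have := pred_pos hp
    have h2 : 0 ≤ Real.log p := Real.log_nonneg (by exact_mod_cast hp.one_le)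
    positivity
  rcases le_or_gt n 100 with h | h
  · refine (Finset.sum_le_sum_of_subset_of_nonneg (t := (Icc 1 100).filter Nat.Prime) ?_ ?_).trans
      (K100.trans (by norm_num))
    · intro p hp
      rw [mem_filter, mem_Icc] at hp ⊢
      exact ⟨⟨hp.1.1, hp.1.2.trans h⟩, hp.2⟩
    · intro p hp _
      exact hnn p (mem_filter.1 hp).2
  · have h1 : (Icc 1 n).filter Nat.Prime ⊆ (Icc 1 100).filter Nat.Prime ∪
        (Ioc 100 n).filter (fun m => Nat.Coprime m 30) := by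
      intro p hp
      rw [mem_filter, mem_Icc] at hp
      rw [mem_union, mem_filter, mem_filter, mem_Icc, mem_Ioc]
      rcases le_or_gt p 100 with h | h
      · exact Or.inl ⟨⟨hp.1.1, h⟩, hp.2⟩
      · exact Or.inr ⟨⟨h, hp.1.2⟩, prime_coprime_30 hp.2 (by omega)⟩
    have hnn2 : ∀ m ∈ Ioc 100 n, 0 ≤ Real.log m / ((m : ℝ) * ((m : ℝ) - 1)) := by
      intro m hm
      rw [mem_Ioc] at hm
      have hmR : (100 : ℝ) < m := by exact_mod_cast hm.1
      have h2 : 0 ≤ Real.log m := Real.log_nonneg (by linarith)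
      have h3 : 0 < (m : ℝ) - 1 := by linarith
      positivity
    have h2 : ∑ p ∈ (Icc 1 n).filter Nat.Prime, Real.log p / ((p : ℝ) * ((p : ℝ) - 1)) ≤
        ∑ p ∈ (Icc 1 100).filter Nat.Prime, Real.log p / ((p : ℝ) * ((p : ℝ) - 1)) +
        ∑ m ∈ (Ioc 100 n).filter (fun m => Nat.Coprime m 30),
          Real.log m / ((m : ℝ) * ((m : ℝ) - 1)) := by
      rw [← Finset.sum_union]
      · apply Finset.sum_le_sum_of_subset_of_nonneg h1
        intro p hp _
        rcases mem_union.1 hp with h | h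
        · exact hnn p (mem_filter.1 h).2
        · exact hnn2 p (mem_filter.1 h).1
      · rw [Finset.disjoint_left]
        intro m hm hm'
        rw [mem_filter, mem_Icc] at hm
        rw [mem_filter, mem_Ioc] at hm'
        omega
    have h3 := abel_up (fun m : ℕ => Real.log m / ((m : ℝ) * ((m : ℝ) - 1))) 100 n h
      (fun m hm _ => tail_anti m (by omega)) (hnn2 n (by rw [mem_Ioc]; omega)) 1.6
      (by rw [C30_100]; norm_num)
    have h4 := tail_sum n h.le
    have h5 : Real.log 100 ≤ 4.607 := by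
      have h6 : Real.log 100 = 2 * Real.log 2 + 2 * Real.log 5 := by
        rw [show (100 : ℝ) = 2 ^ 2 * 5 ^ 2 by norm_num, Real.log_mul (by norm_num) (by norm_num),
          Real.log_pow, Real.log_pow]
        push_cast; ring
      have := log5.2
      have := Real.log_two_lt_d9
      rw [h6]
      norm_num at *
      linarith
    have h7 : Real.log ((101 : ℕ) : ℝ) ≤ 5 := by
      have h8 := log_succ_le 100 (by norm_num)
      push_cast at h8 ⊢
      norm_num at h8 ⊢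
      linarith
    have h9 : 0 ≤ (Real.log n + 1.01) / n := by
      have : (1 : ℝ) ≤ n := by exact_mod_cast (by omega : 1 ≤ n)
      have := Real.log_nonneg this
      positivity
    have h10 := K100
    have h11 : Real.log ((100 + 1 : ℕ) : ℝ) / (((100 + 1 : ℕ) : ℝ) * (((100 + 1 : ℕ) : ℝ) - 1)) ≤
        5 / 10100 := by
      push_cast at h7 ⊢
      norm_num at h7 ⊢
      linarith
    norm_num at h2 h3 h4 h5 h9 h10 h11 ⊢
    linarith

/-- The upper bound. -/
theorem Ls_upper (n : ℕ) (hn : 32 ≤ n) :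
    Ls n ≤ Real.log n + 0.6 + (Real.log n + 7.6) / n := by
  have h1 := sum_log_div_upper n hn
  have h2 := K_bound n
  have h3 : Ls n = ∑ p ∈ (Icc 1 n).filter Nat.Prime, Real.log p / p +
      ∑ p ∈ (Icc 1 n).filter Nat.Prime, Real.log p / ((p : ℝ) * ((p : ℝ) - 1)) := by
    unfold Ls
    rw [← Finset.sum_add_distrib]
    apply Finset.sum_congr rfl
    intro p hp
    have hp1 := pred_pos (mem_filter.1 hp).2
    have hpR : (0 : ℝ) < p := by linarith
    field_simp
    ring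
  have hnR : (0 : ℝ) < n := by
    have : 0 < n := by omega
    exact_mod_cast this
  have h4 : Real.log 4 = 2 * Real.log 2 := by
    rw [show (4 : ℝ) = 2 ^ 2 by norm_num, Real.log_pow]; push_cast; ring
  have h5 : (Real.log n + 1 + (4 * Real.log 2 + 2 * Real.log 3 + Real.log 5)) / n ≤
      (Real.log n + 7.6) / n := by
    apply div_le_div_of_nonneg_right _ hnR.le
    have := log3.2
    have := log5.2
    have := Real.log_two_lt_d9
    norm_num at *
    linarith
  have h6 := log3.1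
  have h7 := log5.1
  have h8 := Real.log_two_lt_d9
  have h9 := Real.log_two_gt_d9
  rw [h4] at h1
  rw [h3]
  norm_num at h1 h2 h5 h6 h7 h8 h9 ⊢
  linarith

end Pool.Agent.Lib.MP_bf4c7f
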