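import Mathlib
import Pool.Agent.Lib.MP_bf4c7f_nt.Defs

/-!
# Selberg weights over squarefree integers coprime to 30
(adapted from `Pool.Agent.Lib.MP_927447_nt.Selberg`)
-/

set_option autoImplicit false

namespace Pool.Agent.Lib.MP_bf4c7f

open Finset ArithmeticFunction
open scoped ArithmeticFunction.Moebius

/-- squarefree and coprime to 30 -/
def SC (k : ℕ) : Prop := Squarefree k ∧ Nat.Coprime k 30

instance : DecidablePred SC := fun _ => inferInstanceAs (Decidable (_ ∧ _))

/-- Selberg weights with the normalisation `y_k = 1`. -/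
noncomputable def lam (R d : ℕ) : ℝ :=
  (μ d : ℝ) * d * ∑ k ∈ (Icc 1 R).filter (fun k => SC k ∧ d ∣ k), (1 / (Nat.totient k : ℝ))

/-- The Selberg sum. -/
noncomputable def GG (R : ℕ) : ℝ :=
  ∑ k ∈ (Icc 1 R).filter (fun k => SC k), (1 / (Nat.totient k : ℝ))

lemma sum_moebius_between (k l : ℕ) (hk : 0 < k) (hl : Squarefree l) :
    ∑ d ∈ l.divisors.filter (fun d => k ∣ d), (μ d : ℝ) = if k = l then (μ k : ℝ) else 0 := by
  have hl0 : l ≠ 0 := hl.ne_zero
  by_cases hkl : k ∣ l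
  · obtain ⟨m, rfl⟩ := hkl
    have hm0 : m ≠ 0 := by rintro rfl; simp at hl0
    have hcop : Nat.Coprime k m := Nat.coprime_of_squarefree_mul hl
    have h1 : (k * m).divisors.filter (fun d => k ∣ d) = m.divisors.image (fun e => k * e) := by
      ext d
      simp only [mem_filter, Nat.mem_divisors, mem_image]
      constructor
      · rintro ⟨⟨h1, _⟩, ⟨e, rfl⟩⟩
        exact ⟨e, ⟨Nat.dvd_of_mul_dvd_mul_left hk h1, hm0⟩, rfl⟩
      · rintro ⟨e, ⟨he, _⟩, rfl⟩
        exact ⟨⟨Nat.mul_dvd_mul_left k he, hl0⟩, dvd_mul_right k e⟩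
    rw [h1, Finset.sum_image (by intro a _ b _ hab; exact Nat.eq_of_mul_eq_mul_left hk hab)]
    have h2 : ∀ e ∈ m.divisors, (μ (k * e) : ℝ) = (μ k : ℝ) * (μ e : ℝ) := by
      intro e he
      have hc : Nat.Coprime k e := hcop.coprime_dvd_right (Nat.dvd_of_mem_divisors he)
      rw [isMultiplicative_moebius.map_mul_of_coprime hc]
      push_cast; ring
    rw [Finset.sum_congr rfl h2, ← Finset.mul_sum]
    have h3 : ∑ e ∈ m.divisors, (μ e : ℝ) = if m = 1 then 1 else 0 := by
      have h4 : ∑ e ∈ m.divisors, (μ e : ℤ) = if m = 1 then 1 else 0 := by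
        have := congrArg (fun f : ArithmeticFunction ℤ => f m) coe_zeta_mul_moebius
        simp only [coe_zeta_mul_apply, one_apply] at this
        exact this
      exact_mod_cast congrArg (fun z : ℤ => (z : ℝ)) h4
    rw [h3]
    by_cases hm : m = 1
    · simp [hm]
    · have : k ≠ k * m := by
        intro h
        apply hm
        exact Nat.eq_of_mul_eq_mul_left hk (by omega)
      simp [hm, this]
  · have : l.divisors.filter (fun d => k ∣ d) = ∅ := by
      rw [Finset.filter_eq_empty_iff]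
      intro d hd hkd
      exact hkl (hkd.trans (Nat.dvd_of_mem_divisors hd))
    rw [this, Finset.sum_empty, if_neg]
    rintro rfl
    exact hkl dvd_rfl

/-- Claim A. -/
lemma sum_lam_div (R k : ℕ) (hk : 0 < k) :
    ∑ d ∈ (Icc 1 R).filter (fun d => k ∣ d), lam R d / d
      = if k ≤ R ∧ SC k then (μ k : ℝ) / (Nat.totient k : ℝ) else 0 := by
  have h1 : ∀ d ∈ (Icc 1 R).filter (fun d => k ∣ d), lam R d / d
      = ∑ l ∈ (Icc 1 R).filter (fun l => SC l),
        (if d ∣ l then (μ d : ℝ) * (1 / (Nat.totient l : ℝ)) else 0) := by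
    intro d hd
    have hd0 : (d : ℝ) ≠ 0 := by
      have : 1 ≤ d := (mem_Icc.1 (mem_filter.1 hd).1).1
      positivity
    rw [← Finset.sum_filter, Finset.filter_filter, ← Finset.mul_sum]
    unfold lam
    field_simp
  rw [Finset.sum_congr rfl h1, Finset.sum_comm]
  have h2 : ∀ l ∈ (Icc 1 R).filter (fun l => SC l),
      ∑ d ∈ (Icc 1 R).filter (fun d => k ∣ d),
        (if d ∣ l then (μ d : ℝ) * (1 / (Nat.totient l : ℝ)) else 0)
      = if k = l then (μ k : ℝ) / (Nat.totient l : ℝ) else 0 := by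
    intro l hl
    simp only [mem_filter, mem_Icc] at hl
    obtain ⟨⟨hl1, hl2⟩, hl3⟩ := hl
    rw [← Finset.sum_filter, Finset.filter_filter]
    have h3 : (Icc 1 R).filter (fun a => k ∣ a ∧ a ∣ l) = l.divisors.filter (fun d => k ∣ d) := by
      ext d
      simp only [mem_filter, mem_Icc, Nat.mem_divisors]
      constructor
      · rintro ⟨_, h5, h6⟩
        exact ⟨⟨h6, by omega⟩, h5⟩
      · rintro ⟨⟨h5, _⟩, h6⟩
        exact ⟨⟨Nat.pos_of_dvd_of_pos h5 hl1, (Nat.le_of_dvd hl1 h5).trans hl2⟩, h6, h5⟩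
    rw [h3, ← Finset.sum_mul, sum_moebius_between k l hk hl3.1]
    split_ifs <;> simp [div_eq_mul_inv]
  rw [Finset.sum_congr rfl h2]
  by_cases hkR : k ≤ R ∧ SC k
  · rw [if_pos hkR, Finset.sum_ite_eq, if_pos]
    simp only [mem_filter, mem_Icc]
    exact ⟨⟨hk, hkR.1⟩, hkR.2⟩
  · rw [if_neg hkR, Finset.sum_ite_eq, if_neg]
    simp only [mem_filter, mem_Icc]
    tauto

/-- General diagonalisation. -/
lemma diag (R : ℕ) (D : Finset ℕ) (r : ℕ → ℕ) (u : ℕ → ℝ)
    (hr : ∀ d ∈ D, 0 < r d ∧ r d ≤ R) :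
    ∑ d ∈ D, ∑ d' ∈ D, u d * u d' * (((r d).gcd (r d') : ℕ) : ℝ)
      = ∑ k ∈ Icc 1 R, (Nat.totient k : ℝ) * (∑ d ∈ D.filter (fun d => k ∣ r d), u d) ^ 2 := by
  have h1 : ∀ d ∈ D, ∀ d' ∈ D, (((r d).gcd (r d') : ℕ) : ℝ)
      = ∑ k ∈ Icc 1 R, (if k ∣ r d ∧ k ∣ r d' then (Nat.totient k : ℝ) else 0) := by
    intro d hd d' hd'
    have hg : 0 < (r d).gcd (r d') := Nat.gcd_pos_of_pos_left _ (hr d hd).1
    rw [← Finset.sum_filter]
    have h2 : (Icc 1 R).filter (fun k => k ∣ r d ∧ k ∣ r d') = ((r d).gcd (r d')).divisors := by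
      ext k
      simp only [mem_filter, mem_Icc, Nat.mem_divisors, Nat.dvd_gcd_iff]
      constructor
      · rintro ⟨_, h⟩
        exact ⟨h, hg.ne'⟩
      · rintro ⟨h, _⟩
        exact ⟨⟨Nat.pos_of_dvd_of_pos h.1 (hr d hd).1,
          (Nat.le_of_dvd (hr d hd).1 h.1).trans (hr d hd).2⟩, h⟩
    rw [h2]
    exact_mod_cast (Nat.sum_totient ((r d).gcd (r d'))).symm
  have h3 : ∀ k ∈ Icc 1 R, (Nat.totient k : ℝ) * (∑ d ∈ D.filter (fun d => k ∣ r d), u d) ^ 2
      = ∑ d ∈ D, ∑ d' ∈ D, u d * u d' *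
        (if k ∣ r d ∧ k ∣ r d' then (Nat.totient k : ℝ) else 0) := by
    intro k _
    rw [Finset.sum_filter, sq, Finset.sum_mul_sum, Finset.mul_sum]
    apply Finset.sum_congr rfl; intro d _
    rw [Finset.mul_sum]
    apply Finset.sum_congr rfl; intro d' _
    by_cases ha : k ∣ r d <;> by_cases hb : k ∣ r d' <;> simp [ha, hb]
    ring
  rw [Finset.sum_congr rfl h3]
  symm
  rw [Finset.sum_comm]
  apply Finset.sum_congr rfl; intro d hd
  rw [Finset.sum_comm]
  apply Finset.sum_congr rfl; intro d' hd'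
  rw [h1 d hd d' hd', Finset.mul_sum]

lemma inv_lcm (a b : ℕ) (ha : 0 < a) (hb : 0 < b) :
    (1 : ℝ) / ((a.lcm b : ℕ) : ℝ) = ((a.gcd b : ℕ) : ℝ) / (a * b) := by
  have hl : (0 : ℝ) < ((a.lcm b : ℕ) : ℝ) := by exact_mod_cast Nat.lcm_pos ha hb
  have haR : (0 : ℝ) < a := by exact_mod_cast ha
  have hbR : (0 : ℝ) < b := by exact_mod_cast hb
  have h : ((a.gcd b : ℕ) : ℝ) * ((a.lcm b : ℕ) : ℝ) = a * b := by exact_mod_cast Nat.gcd_mul_lcm a b
  rw [div_eq_div_iff hl.ne' (by positivity)]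
  linarith

/-- The main term without prime. -/
theorem main_S (R : ℕ) :
    ∑ d ∈ Icc 1 R, ∑ d' ∈ Icc 1 R, lam R d * lam R d' / ((d.lcm d' : ℕ) : ℝ) = GG R := by
  have h1 : ∀ d ∈ Icc 1 R, ∀ d' ∈ Icc 1 R, lam R d * lam R d' / ((d.lcm d' : ℕ) : ℝ)
      = (lam R d / d) * (lam R d' / d') * ((d.gcd d' : ℕ) : ℝ) := by
    intro d hd d' hd'
    have hd0 := (mem_Icc.1 hd).1
    have hd0' := (mem_Icc.1 hd').1
    rw [div_eq_mul_one_div, inv_lcm d d' hd0 hd0']
    have hdR : (0 : ℝ) < d := by exact_mod_cast hd0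
    have hdR' : (0 : ℝ) < d' := by exact_mod_cast hd0'
    field_simp
  rw [Finset.sum_congr rfl (fun d hd => Finset.sum_congr rfl (h1 d hd))]
  have := diag R (Icc 1 R) (fun d => d) (fun d => lam R d / d)
    (fun d hd => ⟨(mem_Icc.1 hd).1, (mem_Icc.1 hd).2⟩)
  rw [this]
  unfold GG
  rw [Finset.sum_filter]
  apply Finset.sum_congr rfl
  intro k hk
  have hk1 := (mem_Icc.1 hk).1
  have hk2 := (mem_Icc.1 hk).2
  rw [sum_lam_div R k hk1]
  have hphi : (0 : ℝ) < (Nat.totient k : ℝ) := by exact_mod_cast Nat.totient_pos.2 hk1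
  by_cases hsq : SC k
  · rw [if_pos ⟨hk2, hsq⟩, if_pos hsq]
    have hmu : ((μ k : ℤ) : ℝ) ^ 2 = 1 := by exact_mod_cast moebius_sq_eq_one_of_squarefree hsq.1
    rw [div_pow, hmu]
    field_simp
  · rw [if_neg (fun h => hsq h.2), if_neg hsq]
    simp

/-- removing the prime `p` from `d`. -/
def strip (p d : ℕ) : ℕ := d / d.gcd p

lemma strip_of_not_dvd {p d : ℕ} (hp : p.Prime) (h : ¬ p ∣ d) : strip p d = d := by
  unfold strip
  have : Nat.Coprime d p := ((Nat.Prime.coprime_iff_not_dvd hp).2 h).symm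
  rw [this.gcd_eq_one, Nat.div_one]

lemma strip_of_dvd {p d : ℕ} (h : p ∣ d) : strip p d = d / p := by
  unfold strip
  rw [Nat.gcd_eq_right h]

lemma not_dvd_strip {p d : ℕ} (hp : p.Prime) (hd : Squarefree d) : ¬ p ∣ strip p d := by
  by_cases h : p ∣ d
  · rw [strip_of_dvd h]
    obtain ⟨e, rfl⟩ := h
    rw [Nat.mul_div_cancel_left e hp.pos]
    intro h2
    have := hd p (Nat.mul_dvd_mul_left p h2)
    exact hp.one_lt.ne' (Nat.isUnit_iff.1 this)
  · rw [strip_of_not_dvd hp h]; exact h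

lemma strip_pos {p d : ℕ} (hp : p.Prime) (hd : 0 < d) : 0 < strip p d := by
  by_cases h : p ∣ d
  · rw [strip_of_dvd h]
    exact Nat.div_pos (Nat.le_of_dvd hd h) hp.pos
  · rw [strip_of_not_dvd hp h]; exact hd

lemma strip_le (p d : ℕ) : strip p d ≤ d := Nat.div_le_self _ _

lemma dvd_mul_strip {p d : ℕ} (hp : p.Prime) : d ∣ p * strip p d := by
  by_cases h : p ∣ d
  · rw [strip_of_dvd h, Nat.mul_div_cancel' h]
  · rw [strip_of_not_dvd hp h]; exact dvd_mul_left d p

lemma strip_dvd {p d : ℕ} : strip p d ∣ d := Nat.div_dvd_of_dvd (Nat.gcd_dvd_left d p)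

lemma lcm_strip {p d d' : ℕ} (hp : p.Prime) (hd : Squarefree d) (hd' : Squarefree d') :
    (d.lcm d').lcm p = p * (strip p d).lcm (strip p d') := by
  apply Nat.dvd_antisymm
  · apply Nat.lcm_dvd
    · apply Nat.lcm_dvd
      · exact (dvd_mul_strip hp).trans (Nat.mul_dvd_mul_left p (Nat.dvd_lcm_left _ _))
      · exact (dvd_mul_strip hp).trans (Nat.mul_dvd_mul_left p (Nat.dvd_lcm_right _ _))
    · exact dvd_mul_right p _
  · apply Nat.Coprime.mul_dvd_of_dvd_of_dvd
    · rw [Nat.Prime.coprime_iff_not_dvd hp]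
      intro h
      have h2 : p ∣ strip p d * strip p d' :=
        h.trans (Nat.lcm_dvd_mul _ _)
      rcases (Nat.Prime.dvd_mul hp).1 h2 with h3 | h3
      · exact not_dvd_strip hp hd h3
      · exact not_dvd_strip hp hd' h3
    · exact Nat.dvd_lcm_right _ _
    · apply Nat.lcm_dvd
      · exact strip_dvd.trans ((Nat.dvd_lcm_left d d').trans (Nat.dvd_lcm_left _ _))
      · exact strip_dvd.trans ((Nat.dvd_lcm_right d d').trans (Nat.dvd_lcm_left _ _))

lemma lam_eq_zero_of_not_squarefree {R d : ℕ} (h : ¬ Squarefree d) : lam R d = 0 := by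
  unfold lam
  rw [moebius_eq_zero_of_not_squarefree h]
  simp

/-- The main term with a prime `p`. -/
theorem main_Sp (R p : ℕ) (hp : p.Prime) (hp30 : Nat.Coprime p 30) :
    ∑ d ∈ Icc 1 R, ∑ d' ∈ Icc 1 R, lam R d * lam R d' / (((d.lcm d').lcm p : ℕ) : ℝ)
      = (1 / (p : ℝ)) * ∑ k ∈ (Icc 1 R).filter (fun k => SC k ∧ ¬ p ∣ k ∧ R < k * p),
          (1 / (Nat.totient k : ℝ)) := by
  have hpR : (0 : ℝ) < p := by exact_mod_cast hp.pos
  have h1 : ∀ d ∈ Icc 1 R, ∀ d' ∈ Icc 1 R, lam R d * lam R d' / (((d.lcm d').lcm p : ℕ) : ℝ)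
      = (1 / (p : ℝ)) * ((lam R d / (strip p d : ℕ)) * (lam R d' / (strip p d' : ℕ)) *
        (((strip p d).gcd (strip p d') : ℕ) : ℝ)) := by
    intro d hd d' hd'
    have hd0 := (mem_Icc.1 hd).1
    have hd0' := (mem_Icc.1 hd').1
    by_cases hs : Squarefree d
    · by_cases hs' : Squarefree d'
      · rw [lcm_strip hp hs hs']
        have a1 := strip_pos hp hd0
        have a2 := strip_pos hp hd0'
        have a1R : (0 : ℝ) < (strip p d : ℕ) := by exact_mod_cast a1
        have a2R : (0 : ℝ) < (strip p d' : ℕ) := by exact_mod_cast a2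
        have := inv_lcm _ _ a1 a2
        push_cast
        rw [div_mul_eq_div_mul_one_div, this]
        field_simp
      · rw [lam_eq_zero_of_not_squarefree hs']; simp
    · rw [lam_eq_zero_of_not_squarefree hs]; simp
  rw [Finset.sum_congr rfl (fun d hd => Finset.sum_congr rfl (h1 d hd))]
  simp only [← Finset.mul_sum]
  have hdiag := diag R (Icc 1 R) (fun d => strip p d) (fun d => lam R d / (strip p d : ℕ))
    (fun d hd => ⟨strip_pos hp (mem_Icc.1 hd).1, (strip_le p d).trans (mem_Icc.1 hd).2⟩)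
  rw [hdiag]
  congr 1
  rw [Finset.sum_filter]
  apply Finset.sum_congr rfl
  intro k hk
  have hk1 := (mem_Icc.1 hk).1
  have hk2 := (mem_Icc.1 hk).2
  have hphi : (0 : ℝ) < (Nat.totient k : ℝ) := by exact_mod_cast Nat.totient_pos.2 hk1
  by_cases hpk : p ∣ k
  · rw [if_neg (by tauto)]
    have : ∑ d ∈ (Icc 1 R).filter (fun d => k ∣ strip p d), lam R d / (strip p d : ℕ) = 0 := by
      apply Finset.sum_eq_zero
      intro d hd
      by_cases hs : Squarefree d
      · exfalso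
        exact not_dvd_strip hp hs (hpk.trans (mem_filter.1 hd).2)
      · rw [lam_eq_zero_of_not_squarefree hs]; simp
    rw [this]; simp
  · -- the main computation
    have hcop : Nat.Coprime k p := ((Nat.Prime.coprime_iff_not_dvd hp).2 hpk).symm
    have h2 : ∑ d ∈ (Icc 1 R).filter (fun d => k ∣ strip p d), lam R d / (strip p d : ℕ)
        = ∑ d ∈ (Icc 1 R).filter (fun d => k ∣ d), lam R d / d
          + ((p : ℝ) - 1) * ∑ d ∈ (Icc 1 R).filter (fun d => k * p ∣ d), lam R d / d := by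
      have e1 : (Icc 1 R).filter (fun d => k ∣ strip p d) = (Icc 1 R).filter (fun d => k ∣ d) := by
        apply Finset.filter_congr
        intro d _
        constructor
        · intro h; exact h.trans strip_dvd
        · intro h
          have : k ∣ p * strip p d := h.trans (dvd_mul_strip hp)
          exact hcop.dvd_of_dvd_mul_left this
      have e2 : (Icc 1 R).filter (fun d => k * p ∣ d)
          = ((Icc 1 R).filter (fun d => k ∣ d)).filter (fun d => p ∣ d) := by
        rw [Finset.filter_filter]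
        apply Finset.filter_congr
        intro d _
        constructor
        · intro h
          exact ⟨(dvd_mul_right k p).trans h, (dvd_mul_left p k).trans h⟩
        · rintro ⟨h1, h2⟩
          exact Nat.Coprime.mul_dvd_of_dvd_of_dvd hcop h1 h2
      rw [e1, e2, Finset.sum_filter (fun d => p ∣ d), Finset.mul_sum, ← Finset.sum_add_distrib]
      apply Finset.sum_congr rfl
      intro d hd
      have hd0 := (mem_Icc.1 (mem_filter.1 hd).1).1
      have hdR : (0 : ℝ) < d := by exact_mod_cast hd0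
      by_cases hpd : p ∣ d
      · rw [if_pos hpd, strip_of_dvd hpd, Nat.cast_div hpd hpR.ne']
        field_simp
        ring
      · rw [if_neg hpd, strip_of_not_dvd hp hpd]
        ring
    rw [h2, sum_lam_div R k hk1, sum_lam_div R (k * p) (Nat.mul_pos hk1 hp.pos)]
    by_cases hsq : SC k
    · have hsqp : SC (k * p) := by
        refine ⟨?_, Nat.Coprime.mul_left hsq.2 hp30⟩
        rw [Nat.squarefree_mul hcop]
        exact ⟨hsq.1, hp.squarefree⟩
      have hmu : ((μ k : ℤ) : ℝ) ^ 2 = 1 := by exact_mod_cast moebius_sq_eq_one_of_squarefree hsq.1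
      have hmup : ((μ (k * p) : ℤ) : ℝ) = - (μ k : ℝ) := by
        rw [isMultiplicative_moebius.map_mul_of_coprime hcop, moebius_apply_prime hp]
        push_cast; ring
      have hphip : ((Nat.totient (k * p) : ℕ) : ℝ) = (Nat.totient k : ℝ) * ((p : ℝ) - 1) := by
        rw [Nat.totient_mul hcop, Nat.totient_prime hp]
        rw [Nat.cast_mul, Nat.cast_sub hp.one_le]
        simp
      have hp1 : (0 : ℝ) < (p : ℝ) - 1 := by
        have : (1 : ℝ) < p := by exact_mod_cast hp.one_lt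
        linarith
      rw [if_pos ⟨hk2, hsq⟩, hmup, hphip]
      by_cases hkp : k * p ≤ R
      · rw [if_pos ⟨hkp, hsqp⟩, if_neg (by rintro ⟨_, _, h⟩; omega)]
        have : (μ k : ℝ) / (Nat.totient k : ℝ) + ((p : ℝ) - 1) * (-(μ k : ℝ) /
            ((Nat.totient k : ℝ) * ((p : ℝ) - 1))) = 0 := by
          field_simp
          ring
        rw [this]; simp
      · rw [if_neg (fun h => hkp h.1), if_pos ⟨hsq, hpk, by omega⟩]
        rw [mul_zero, add_zero, div_pow, hmu]
        field_simp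
    · rw [if_neg (fun h => hsq h.2), if_neg (by
        rintro ⟨_, h⟩
        exact hsq ⟨((Nat.squarefree_mul hcop).1 h.1).1,
          Nat.Coprime.coprime_dvd_left (dvd_mul_right k p) h.2⟩), if_neg (fun h => hsq h.1)]
      simp

end Pool.Agent.Lib.MP_bf4c7f
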