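import Mathlib
import Pool.Agent.Lib.MP_bf4c7f_nt.Selberg
import Pool.Agent.Lib.MP_bf4c7f_nt.Numer

/-!
# Bounds for the Selberg sums over integers coprime to 30
-/

set_option autoImplicit false

namespace Pool.Agent.Lib.MP_bf4c7f

open Finset ArithmeticFunction
open scoped ArithmeticFunction.Moebius

/-- For squarefree `k`, `1/φ(k) = (1/k) Σ_{d ∣ k} 1/φ(d)`. -/
lemma inv_totient_eq (k : ℕ) (hk : Squarefree k) :
    (1 : ℝ) / (Nat.totient k : ℝ) = (1 / (k : ℝ)) * ∑ d ∈ k.divisors, (1 : ℝ) / (Nat.totient d : ℝ) := by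
  have hk0 : k ≠ 0 := hk.ne_zero
  have hkR : (k : ℝ) ≠ 0 := by exact_mod_cast hk0
  have hphi : (0 : ℝ) < (Nat.totient k : ℝ) := by
    exact_mod_cast Nat.totient_pos.2 (Nat.pos_of_ne_zero hk0)
  have h1 : ∀ d ∈ k.divisors, (1 : ℝ) / (Nat.totient d : ℝ)
      = (Nat.totient (k / d) : ℝ) / (Nat.totient k : ℝ) := by
    intro d hd
    have hdk := Nat.dvd_of_mem_divisors hd
    have hd0 : 0 < d := Nat.pos_of_mem_divisors hd
    have hmul : d * (k / d) = k := Nat.mul_div_cancel' hdk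
    have hcop : Nat.Coprime d (k / d) := by
      apply Nat.coprime_of_squarefree_mul
      rw [hmul]; exact hk
    have h2 : Nat.totient k = Nat.totient d * Nat.totient (k / d) := by
      rw [← Nat.totient_mul hcop, hmul]
    have hphid : (0 : ℝ) < (Nat.totient d : ℝ) := by exact_mod_cast Nat.totient_pos.2 hd0
    rw [div_eq_div_iff hphid.ne' hphi.ne', h2]
    push_cast; ring
  rw [Finset.sum_congr rfl h1, ← Finset.sum_div]
  have h3 : ∑ d ∈ k.divisors, (Nat.totient (k / d) : ℝ) = k := by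
    rw [Nat.sum_div_divisors k (fun d => (Nat.totient d : ℝ))]
    exact_mod_cast Nat.sum_totient k
  rw [h3]
  field_simp

lemma SC_dvd {k d : ℕ} (hk : SC k) (h : d ∣ k) : SC d :=
  ⟨hk.1.squarefree_of_dvd h, Nat.Coprime.coprime_dvd_left h hk.2⟩

lemma GG_nonneg (R : ℕ) : 0 ≤ GG R := Finset.sum_nonneg (fun _ _ => by positivity)

lemma lam_eq_zero_of_not_SC {R d : ℕ} (h : ¬ SC d) : lam R d = 0 := by
  by_cases hs : Squarefree d
  · unfold lam
    have : (Icc 1 R).filter (fun k => SC k ∧ d ∣ k) = ∅ := by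
      rw [Finset.filter_eq_empty_iff]
      rintro k _ ⟨hk, hd⟩
      exact h (SC_dvd hk hd)
    rw [this, Finset.sum_empty, mul_zero]
  · exact lam_eq_zero_of_not_squarefree hs

/-- `|λ_d| ≤ G`. -/
theorem abs_lam_le (R d : ℕ) (hd1 : 0 < d) : |lam R d| ≤ GG R := by
  by_cases hsc : SC d
  swap
  · rw [lam_eq_zero_of_not_SC hsc, abs_zero]; exact GG_nonneg R
  have hdR : (0 : ℝ) < d := by exact_mod_cast hd1
  have hphid : (0 : ℝ) < (Nat.totient d : ℝ) := by exact_mod_cast Nat.totient_pos.2 hd1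
  have habs : |lam R d| ≤ d * ∑ k ∈ (Icc 1 R).filter (fun k => SC k ∧ d ∣ k),
      (1 / (Nat.totient k : ℝ)) := by
    unfold lam
    rw [abs_mul, abs_mul, abs_of_pos hdR]
    have h0 : 0 ≤ ∑ k ∈ (Icc 1 R).filter (fun k => SC k ∧ d ∣ k),
      (1 / (Nat.totient k : ℝ)) := Finset.sum_nonneg (fun _ _ => by positivity)
    rw [abs_of_nonneg h0]
    have hmu : |((μ d : ℤ) : ℝ)| ≤ 1 := by exact_mod_cast abs_moebius_le_one
    calc |((μ d : ℤ) : ℝ)| * d * _ ≤ 1 * d * _ := by gcongr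
      _ = _ := by rw [one_mul]
  set J := (Icc 1 R).filter (fun j => SC j ∧ Nat.Coprime d j ∧ d * j ≤ R) with hJ
  have h2 : ∑ k ∈ (Icc 1 R).filter (fun k => SC k ∧ d ∣ k), (1 / (Nat.totient k : ℝ))
      ≤ (1 / (Nat.totient d : ℝ)) * ∑ j ∈ J, (1 / (Nat.totient j : ℝ)) := by
    have hsub : (Icc 1 R).filter (fun k => SC k ∧ d ∣ k) ⊆ J.image (fun j => d * j) := by
      intro k hk
      simp only [mem_filter, mem_Icc] at hk
      obtain ⟨⟨hk1, hk2⟩, hk3, ⟨j, rfl⟩⟩ := hk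
      rw [hJ]
      simp only [mem_image, mem_filter, mem_Icc]
      have hcop := Nat.coprime_of_squarefree_mul hk3.1
      refine ⟨j, ⟨⟨?_, ?_⟩, ?_, hcop, hk2⟩, rfl⟩
      · rcases Nat.eq_zero_or_pos j with h | h
        · subst h; simp at hk1
        · exact h
      · exact (Nat.le_mul_of_pos_left j hd1).trans hk2
      · exact SC_dvd hk3 (dvd_mul_left j d)
    refine (Finset.sum_le_sum_of_subset_of_nonneg hsub (fun k _ _ => by positivity)).trans ?_
    rw [Finset.sum_image (by intro a _ b _ hab; exact Nat.eq_of_mul_eq_mul_left hd1 hab)]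
    rw [Finset.mul_sum]
    apply le_of_eq
    apply Finset.sum_congr rfl
    intro j hj
    have hcop := (mem_filter.1 hj).2.2.1
    rw [Nat.totient_mul hcop]
    push_cast
    rw [one_div_mul_one_div]
  have h3 : (d : ℝ) * (1 / (Nat.totient d : ℝ)) = ∑ e ∈ d.divisors, (1 : ℝ) / (Nat.totient e : ℝ) := by
    rw [inv_totient_eq d hsc.1]
    field_simp
  have h4 : (d : ℝ) * ((1 / (Nat.totient d : ℝ)) * ∑ j ∈ J, (1 / (Nat.totient j : ℝ))) ≤ GG R := by
    rw [← mul_assoc, h3, Finset.sum_mul_sum, ← Finset.sum_product']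
    have hcopej : ∀ x ∈ d.divisors ×ˢ J, Nat.Coprime x.1 x.2 := by
      intro x hx
      rw [mem_product] at hx
      exact Nat.Coprime.coprime_dvd_left (Nat.dvd_of_mem_divisors hx.1) (mem_filter.1 hx.2).2.2.1
    have h5 : ∑ x ∈ d.divisors ×ˢ J, (1 : ℝ) / (Nat.totient x.1 : ℝ) * (1 / (Nat.totient x.2 : ℝ)) =
        ∑ x ∈ d.divisors ×ˢ J, (1 : ℝ) / (Nat.totient (x.1 * x.2) : ℝ) := by
      apply Finset.sum_congr rfl
      intro x hx
      rw [Nat.totient_mul (hcopej x hx)]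
      push_cast
      rw [one_div_mul_one_div]
    rw [h5]
    have hinj : ∀ x ∈ d.divisors ×ˢ J, ∀ y ∈ d.divisors ×ˢ J, x.1 * x.2 = y.1 * y.2 → x = y := by
      have hg : ∀ x ∈ d.divisors ×ˢ J, (x.1 * x.2).gcd d = x.1 := by
        intro x hx
        have hx' := mem_product.1 hx
        have hc : Nat.Coprime x.2 d := (mem_filter.1 hx'.2).2.2.1.symm
        rw [Nat.Coprime.gcd_mul_right_cancel x.1 hc]
        exact Nat.gcd_eq_left (Nat.dvd_of_mem_divisors hx'.1)
      intro x hx y hy hxy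
      have e1 : x.1 = y.1 := by rw [← hg x hx, ← hg y hy, hxy]
      have hx1 : 0 < x.1 := Nat.pos_of_mem_divisors (mem_product.1 hx).1
      have e2 : x.2 = y.2 := by
        rw [← e1] at hxy
        exact Nat.eq_of_mul_eq_mul_left hx1 hxy
      exact Prod.ext e1 e2
    rw [← Finset.sum_image (f := fun k => (1 : ℝ) / (Nat.totient k : ℝ))
      (g := fun x : ℕ × ℕ => x.1 * x.2) hinj]
    unfold GG
    apply Finset.sum_le_sum_of_subset_of_nonneg
    · intro k hk
      rw [mem_image] at hk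
      obtain ⟨x, hx, rfl⟩ := hk
      have hx' := mem_product.1 hx
      have hxd := Nat.dvd_of_mem_divisors hx'.1
      have hx2 := mem_filter.1 hx'.2
      have hx21 := mem_Icc.1 hx2.1
      have hx1 : 0 < x.1 := Nat.pos_of_mem_divisors hx'.1
      rw [mem_filter, mem_Icc]
      refine ⟨⟨Nat.mul_pos hx1 hx21.1, ?_⟩, ?_, ?_⟩
      · exact (Nat.mul_le_mul_right x.2 (Nat.le_of_dvd hd1 hxd)).trans hx2.2.2.2
      · rw [Nat.squarefree_mul (hcopej x hx)]
        exact ⟨hsc.1.squarefree_of_dvd hxd, hx2.2.1.1⟩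
      · exact Nat.Coprime.mul_left (Nat.Coprime.coprime_dvd_left hxd hsc.2) hx2.2.1.2
    · intro k _ _; positivity
  calc |lam R d| ≤ d * ((1 / (Nat.totient d : ℝ)) * ∑ j ∈ J, (1 / (Nat.totient j : ℝ))) :=
        habs.trans (mul_le_mul_of_nonneg_left h2 hdR.le)
    _ ≤ GG R := h4

theorem sum_abs_lam (R : ℕ) : ∑ d ∈ Icc 1 R, |lam R d| ≤ (4 * (R : ℝ) + 14) / 15 * GG R := by
  have h1 : ∀ d ∈ Icc 1 R, |lam R d| ≤ if Nat.Coprime d 30 then GG R else 0 := by
    intro d hd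
    split_ifs with h
    · exact abs_lam_le R d (mem_Icc.1 hd).1
    · rw [lam_eq_zero_of_not_SC (fun hs => h hs.2), abs_zero]
  refine (Finset.sum_le_sum h1).trans ?_
  rw [← Finset.sum_filter, Finset.sum_const, nsmul_eq_mul]
  apply mul_le_mul_of_nonneg_right _ (GG_nonneg R)
  have h2 : (15 : ℝ) * (C30 R : ℝ) ≤ 4 * (R : ℝ) + 14 := by exact_mod_cast (C30_bounds R).1
  have h3 : (((Icc 1 R).filter (fun d => Nat.Coprime d 30)).card : ℝ) = (C30 R : ℝ) := rfl
  rw [h3]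
  linarith

/-! ### the swap -/

lemma swap (R : ℕ) (P : ℕ → Prop) [DecidablePred P] :
    ∑ k ∈ (Icc 1 R).filter (fun k => SC k ∧ P k), (1 : ℝ) / (Nat.totient k : ℝ)
      ≤ ∑ d ∈ (Icc 1 R).filter (fun d => SC d), (1 : ℝ) / ((d : ℝ) * (Nat.totient d : ℝ)) *
        ∑ j ∈ (Icc 1 R).filter (fun j => Nat.Coprime j 30 ∧ d * j ≤ R ∧ P (d * j)), (1 : ℝ) / j := by
  have h1 : ∀ k ∈ (Icc 1 R).filter (fun k => SC k ∧ P k),
      (1 : ℝ) / (Nat.totient k : ℝ) = ∑ d ∈ (Icc 1 R).filter (fun d => SC d),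
        (if d ∣ k then (1 / (k : ℝ)) * ((1 : ℝ) / (Nat.totient d : ℝ)) else 0) := by
    intro k hk
    simp only [mem_filter, mem_Icc] at hk
    obtain ⟨⟨hk1, hk2⟩, hk3, hk4⟩ := hk
    rw [inv_totient_eq k hk3.1, Finset.mul_sum, ← Finset.sum_filter]
    apply Finset.sum_congr _ (fun _ _ => rfl)
    ext d
    simp only [Nat.mem_divisors, mem_filter, mem_Icc]
    constructor
    · rintro ⟨h, _⟩
      exact ⟨⟨⟨Nat.pos_of_dvd_of_pos h hk1, (Nat.le_of_dvd hk1 h).trans hk2⟩,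
        SC_dvd hk3 h⟩, h⟩
    · rintro ⟨_, h⟩
      exact ⟨h, by omega⟩
  rw [Finset.sum_congr rfl h1, Finset.sum_comm]
  apply Finset.sum_le_sum
  intro d hd
  simp only [mem_filter, mem_Icc] at hd
  obtain ⟨⟨hd1, hd2⟩, hd3⟩ := hd
  have hdR : (0 : ℝ) < d := by exact_mod_cast hd1
  have hphid : (0 : ℝ) < (Nat.totient d : ℝ) := by exact_mod_cast Nat.totient_pos.2 hd1
  rw [← Finset.sum_filter]
  have h2 : ∑ k ∈ ((Icc 1 R).filter (fun k => SC k ∧ P k)).filter (fun k => d ∣ k),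
      (1 / (k : ℝ)) * ((1 : ℝ) / (Nat.totient d : ℝ))
      ≤ ∑ j ∈ (Icc 1 R).filter (fun j => Nat.Coprime j 30 ∧ d * j ≤ R ∧ P (d * j)),
        (1 / ((d * j : ℕ) : ℝ)) * ((1 : ℝ) / (Nat.totient d : ℝ)) := by
    have hsub : ((Icc 1 R).filter (fun k => SC k ∧ P k)).filter (fun k => d ∣ k)
        ⊆ ((Icc 1 R).filter (fun j => Nat.Coprime j 30 ∧ d * j ≤ R ∧ P (d * j))).image
          (fun j => d * j) := by
      intro k hk
      simp only [mem_filter, mem_Icc] at hk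
      obtain ⟨⟨⟨hk1, hk2⟩, hk3, hk4⟩, ⟨j, rfl⟩⟩ := hk
      simp only [mem_image, mem_filter, mem_Icc]
      refine ⟨j, ⟨⟨?_, ?_⟩, ?_, hk2, hk4⟩, rfl⟩
      · rcases Nat.eq_zero_or_pos j with h | h
        · subst h; simp at hk1
        · exact h
      · exact (Nat.le_mul_of_pos_left j hd1).trans hk2
      · exact Nat.Coprime.coprime_dvd_left (dvd_mul_left j d) hk3.2
    refine (Finset.sum_le_sum_of_subset_of_nonneg hsub (fun k _ _ => by positivity)).trans ?_
    rw [Finset.sum_image (by intro a _ b _ hab; exact Nat.eq_of_mul_eq_mul_left hd1 hab)]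
  refine h2.trans (le_of_eq ?_)
  rw [Finset.mul_sum]
  apply Finset.sum_congr rfl
  intro j hj
  have hj1 : 1 ≤ j := (mem_Icc.1 (mem_filter.1 hj).1).1
  have hjR : (0 : ℝ) < j := by exact_mod_cast hj1
  push_cast
  field_simp

lemma sum_inv_Ioc_le (a b : ℕ) (ha : 0 < a) (hab : a ≤ b) :
    ∑ j ∈ Ioc a b, (1 : ℝ) / j ≤ Real.log b - Real.log a := by
  induction b, hab using Nat.le_induction with
  | base => simp
  | succ b hab ih =>
    rw [Finset.sum_Ioc_succ_top (by omega)]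
    have h1 := inv_succ_le_log b (by omega)
    push_cast
    linarith

lemma le_sum_inv_Ioc (a b : ℕ) (ha : 0 < a) (hab : a ≤ b) :
    Real.log ((b : ℝ) + 1) - Real.log ((a : ℝ) + 1) ≤ ∑ j ∈ Ioc a b, (1 : ℝ) / j := by
  induction b, hab using Nat.le_induction with
  | base => simp
  | succ b hab ih =>
    rw [Finset.sum_Ioc_succ_top (by omega)]
    have h1 := log_succ_le (b + 1) (by omega)
    push_cast at h1 ⊢
    linarith

/-- Sum of reciprocals over `j` coprime to 30 with `R/(d t) < j ≤ R/d`. -/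
lemma window (R d t : ℕ) (hR : 0 < R) (hd : 0 < d) (ht : 0 < t) :
    ∑ j ∈ (Icc 1 R).filter (fun j => Nat.Coprime j 30 ∧ d * j ≤ R ∧ R < d * j * t), (1 : ℝ) / j ≤
      4 / 15 * Real.log t + 28 / 15 * √((d : ℝ) * t / R) := by
  set a := R / (d * t) with ha
  set b := R / d with hb
  have htR : (1 : ℝ) ≤ t := by exact_mod_cast ht
  have hdR : (1 : ℝ) ≤ d := by exact_mod_cast hd
  have hRR : (1 : ℝ) ≤ R := by exact_mod_cast hR
  have hlog : 0 ≤ Real.log t := Real.log_nonneg htR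
  have hdt : 0 < d * t := Nat.mul_pos hd ht
  have hsub : (Icc 1 R).filter (fun j => Nat.Coprime j 30 ∧ d * j ≤ R ∧ R < d * j * t) ⊆
      (Ioc a b).filter (fun j => Nat.Coprime j 30) := by
    intro j hj
    simp only [mem_filter, mem_Icc] at hj
    obtain ⟨_, h0, h1, h2⟩ := hj
    rw [mem_filter, mem_Ioc]
    refine ⟨⟨?_, ?_⟩, h0⟩
    · rw [ha, Nat.div_lt_iff_lt_mul hdt]
      calc R < d * j * t := h2
        _ = j * (d * t) := by ring
    · rw [hb, Nat.le_div_iff_mul_le hd]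
      linarith [mul_comm d j]
  have hle := Finset.sum_le_sum_of_subset_of_nonneg hsub
    (f := fun j : ℕ => (1 : ℝ) / j) (fun j _ _ => by positivity)
  refine hle.trans ?_
  have hsq0 : 0 ≤ √((d : ℝ) * t / R) := Real.sqrt_nonneg _
  by_cases hab : a < b
  · have h1 := abel_up (fun j : ℕ => (1 : ℝ) / j) a b hab
      (by
        intro n hn _
        have hn0 : (0 : ℝ) < n := by
          have : 0 < n := lt_of_le_of_lt (Nat.zero_le a) hn
          exact_mod_cast this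
        push_cast
        exact one_div_le_one_div_of_le hn0 (by linarith))
      (by positivity) (24 / 15)
      (by
        have h2 : (4 : ℝ) * (a : ℝ) ≤ 15 * (C30 a : ℝ) + 10 := by exact_mod_cast (C30_bounds a).2
        linarith)
    have hsplit : ∑ j ∈ Ioc a b, (1 : ℝ) / j
        = (1 : ℝ) / ((a : ℝ) + 1) + ∑ j ∈ Ioc (a + 1) b, (1 : ℝ) / j := by
      rw [← Finset.sum_Ioc_consecutive _ (Nat.le_succ a) (show a + 1 ≤ b from hab)]
      congr 1
      rw [Finset.sum_Ioc_succ_top (le_refl a)]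
      simp
    have h2 := sum_inv_Ioc_le (a + 1) b (Nat.succ_pos a) hab
    have h3 : Real.log b - Real.log ((a + 1 : ℕ) : ℝ) ≤ Real.log t := by
      have hbpos : 0 < b := Nat.lt_of_le_of_lt (Nat.zero_le a) hab
      have hbR : (0 : ℝ) < b := by exact_mod_cast hbpos
      rw [← Real.log_div hbR.ne' (by positivity)]
      apply Real.log_le_log
      · positivity
      · rw [div_le_iff₀ (by positivity)]
        have h4 : b ≤ t * (a + 1) := by
          have h5 : R < d * t * (a + 1) := Nat.lt_mul_div_succ R hdt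
          have h6 : b * d ≤ R := Nat.div_mul_le_self R d
          have h7 : b * d < t * (a + 1) * d := by nlinarith
          exact (Nat.lt_of_mul_lt_mul_right h7).le
        exact_mod_cast h4
    have h4 : (1 : ℝ) / ((a : ℝ) + 1) ≤ √((d : ℝ) * t / R) := by
      apply Real.le_sqrt_of_sq_le
      have h5 : R < d * t * (a + 1) := Nat.lt_mul_div_succ R hdt
      have h6 : (R : ℝ) ≤ (d : ℝ) * t * ((a : ℝ) + 1) := by exact_mod_cast h5.le
      have h7 : (0 : ℝ) ≤ a := by positivity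
      rw [div_pow, one_pow, div_le_div_iff₀ (by positivity) (by positivity)]
      nlinarith [mul_le_mul_of_nonneg_right h6 (by linarith : (0 : ℝ) ≤ (a : ℝ) + 1),
        mul_nonneg (mul_nonneg (by linarith : (0 : ℝ) ≤ (d : ℝ)) (by linarith : (0 : ℝ) ≤ (t : ℝ))) h7]
    push_cast at h1 h3
    rw [hsplit] at h1
    push_cast at h2
    linarith
  · have : Ioc a b = ∅ := Finset.Ioc_eq_empty hab
    rw [this, Finset.filter_empty, Finset.sum_empty]
    positivity

/-! ### constants -/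

/-- sums over integers coprime to 30 are bounded by products -/
noncomputable def c0 (R : ℕ) : ℝ :=
  ∑ d ∈ (Icc 1 R).filter (fun d => SC d), (1 : ℝ) / ((d : ℝ) * (Nat.totient d : ℝ))

noncomputable def b0 (R : ℕ) : ℝ :=
  ∑ d ∈ (Icc 1 R).filter (fun d => SC d), (1 : ℝ) / ((d : ℝ) * (Nat.totient d : ℝ)) * √d

lemma window_bound (R t : ℕ) (hR : 0 < R) (ht : 0 < t) :
    ∑ k ∈ (Icc 1 R).filter (fun k => SC k ∧ R < k * t), (1 : ℝ) / (Nat.totient k : ℝ)
      ≤ 4 / 15 * c0 R * Real.log t + 28 / 15 * b0 R * √((t : ℝ) / R) := by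
  refine (swap R (fun k => R < k * t)).trans ?_
  have h1 : ∀ d ∈ (Icc 1 R).filter (fun d => SC d), (1 : ℝ) / ((d : ℝ) * (Nat.totient d : ℝ)) *
      ∑ j ∈ (Icc 1 R).filter (fun j => Nat.Coprime j 30 ∧ d * j ≤ R ∧ R < d * j * t), (1 : ℝ) / j ≤
      4 / 15 * Real.log t * ((1 : ℝ) / ((d : ℝ) * (Nat.totient d : ℝ))) +
      28 / 15 * √((t : ℝ) / R) * ((1 : ℝ) / ((d : ℝ) * (Nat.totient d : ℝ)) * √d) := by
    intro d hd
    rw [mem_filter, mem_Icc] at hd
    have h2 := window R d t hR hd.1.1 ht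
    have h3 : √((d : ℝ) * t / R) = √(d : ℝ) * √((t : ℝ) / R) := by
      rw [mul_div_assoc, Real.sqrt_mul (by positivity)]
    rw [h3] at h2
    calc _ ≤ (1 : ℝ) / ((d : ℝ) * (Nat.totient d : ℝ)) *
        (4 / 15 * Real.log t + 28 / 15 * (√(d : ℝ) * √((t : ℝ) / R))) :=
          mul_le_mul_of_nonneg_left h2 (by positivity)
      _ = _ := by ring
  refine (Finset.sum_le_sum h1).trans (le_of_eq ?_)
  rw [Finset.sum_add_distrib, ← Finset.mul_sum, ← Finset.mul_sum]
  unfold c0 b0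
  ring

end Pool.Agent.Lib.MP_bf4c7f
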