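import Mathlib
import Pool.Agent.Lib.MP_bf4c7f_nt.Bounds

/-!
# Numerical bounds for the Selberg sums over integers coprime to 30
-/

set_option autoImplicit false

namespace Pool.Agent.Lib.MP_bf4c7f

open Finset ArithmeticFunction
open scoped ArithmeticFunction.Moebius

lemma six_le_totient {e : ℕ} (he : Nat.Coprime e 30) (he1 : 1 < e) : 6 ≤ Nat.totient e := by
  obtain ⟨p, hp, hpe⟩ := Nat.exists_prime_and_dvd (n := e) (by omega)
  have hc : Nat.Coprime p 30 := Nat.Coprime.coprime_dvd_left hpe he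
  have h7 : 7 ≤ p := by
    by_contra hlt
    have hlt' : p < 7 := not_le.1 hlt
    interval_cases p <;> revert hp hc <;> decide
  have h1 : Nat.totient p ∣ Nat.totient e := Nat.totient_dvd_of_dvd hpe
  have h2 : Nat.totient p = p - 1 := Nat.totient_prime hp
  have h3 : 0 < Nat.totient e := Nat.totient_pos.2 (by omega)
  have := Nat.le_of_dvd h3 h1
  omega

/-- convolution bound -/
theorem conv (h : ℕ → ℝ) (h0 : ∀ d, 0 ≤ h d) (hmul : ∀ e j, h (e * j) = h e * h j)
    (h1 : h 1 = 1) (R : ℕ) (hR : 1 ≤ R) (Z : ℝ)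
    (hZ : ∑ j ∈ (Icc 1 R).filter (fun j => Nat.Coprime j 30), h j ≤ Z) :
    ∑ d ∈ (Icc 1 R).filter (fun d => SC d), h d * ((d : ℝ) * (1 / (Nat.totient d : ℝ))) ≤
      Z * (1 + (Z - 1) / 6) := by
  set Z' := ∑ j ∈ (Icc 1 R).filter (fun j => Nat.Coprime j 30), h j with hZ'
  have hZ'0 : 0 ≤ Z' := Finset.sum_nonneg (fun _ _ => h0 _)
  have e1 : ∀ d ∈ (Icc 1 R).filter (fun d => SC d),
      h d * ((d : ℝ) * (1 / (Nat.totient d : ℝ))) = ∑ e ∈ (Icc 1 R).filter (fun e => SC e),
        (if e ∣ d then h d * ((1 : ℝ) / (Nat.totient e : ℝ)) else 0) := by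
    intro k hk
    simp only [mem_filter, mem_Icc] at hk
    obtain ⟨⟨hk1, hk2⟩, hk3⟩ := hk
    have hkR : (k : ℝ) ≠ 0 := by
      have : 0 < k := hk1
      positivity
    rw [inv_totient_eq k hk3.1, ← mul_assoc, ← mul_assoc, mul_assoc (h k), mul_one_div_cancel hkR,
      mul_one, Finset.mul_sum, ← Finset.sum_filter]
    apply Finset.sum_congr _ (fun _ _ => rfl)
    ext d
    simp only [Nat.mem_divisors, mem_filter, mem_Icc]
    constructor
    · rintro ⟨h, _⟩
      exact ⟨⟨⟨Nat.pos_of_dvd_of_pos h hk1, (Nat.le_of_dvd hk1 h).trans hk2⟩,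
        SC_dvd hk3 h⟩, h⟩
    · rintro ⟨_, h⟩
      exact ⟨h, by omega⟩
  rw [Finset.sum_congr rfl e1, Finset.sum_comm]
  have e2 : ∀ e ∈ (Icc 1 R).filter (fun e => SC e),
      ∑ d ∈ (Icc 1 R).filter (fun d => SC d),
        (if e ∣ d then h d * ((1 : ℝ) / (Nat.totient e : ℝ)) else 0) ≤
      (h e * ((1 : ℝ) / (Nat.totient e : ℝ))) * Z' := by
    intro e he
    simp only [mem_filter, mem_Icc] at he
    obtain ⟨⟨he1, he2⟩, he3⟩ := he
    rw [← Finset.sum_filter]
    have hsub : ((Icc 1 R).filter (fun d => SC d)).filter (fun d => e ∣ d)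
        ⊆ ((Icc 1 R).filter (fun j => Nat.Coprime j 30)).image (fun j => e * j) := by
      intro k hk
      simp only [mem_filter, mem_Icc] at hk
      obtain ⟨⟨⟨hk1, hk2⟩, hk3⟩, ⟨j, rfl⟩⟩ := hk
      simp only [mem_image, mem_filter, mem_Icc]
      refine ⟨j, ⟨⟨?_, ?_⟩, ?_⟩, rfl⟩
      · rcases Nat.eq_zero_or_pos j with h | h
        · subst h; simp at hk1
        · exact h
      · exact (Nat.le_mul_of_pos_left j he1).trans hk2
      · exact Nat.Coprime.coprime_dvd_left (dvd_mul_left j e) hk3.2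
    refine (Finset.sum_le_sum_of_subset_of_nonneg hsub
      (fun k _ _ => mul_nonneg (h0 k) (by positivity))).trans ?_
    rw [Finset.sum_image (by intro a _ b _ hab; exact Nat.eq_of_mul_eq_mul_left he1 hab), hZ',
      Finset.mul_sum]
    apply le_of_eq
    apply Finset.sum_congr rfl
    intro j _
    rw [hmul]; ring
  refine (Finset.sum_le_sum e2).trans ?_
  rw [← Finset.sum_mul]
  have e3 : ∑ e ∈ (Icc 1 R).filter (fun e => SC e), h e * ((1 : ℝ) / (Nat.totient e : ℝ)) ≤
      1 + (Z' - 1) / 6 := by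
    have e4 : (Icc 1 R).filter (fun e => SC e) ⊆ (Icc 1 R).filter (fun j => Nat.Coprime j 30) := by
      intro e he
      rw [mem_filter] at he ⊢
      exact ⟨he.1, he.2.2⟩
    refine (Finset.sum_le_sum_of_subset_of_nonneg e4
      (fun k _ _ => mul_nonneg (h0 k) (by positivity))).trans ?_
    have e5 : ∀ j ∈ (Icc 1 R).filter (fun j => Nat.Coprime j 30),
        h j * ((1 : ℝ) / (Nat.totient j : ℝ)) ≤ h j / 6 + (if j = 1 then 5 / 6 else 0) := by
      intro j hj
      rw [mem_filter, mem_Icc] at hj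
      split_ifs with hj1
      · rw [hj1, h1]; norm_num
      · have h6 := six_le_totient hj.2 (by omega)
        have h6R : (6 : ℝ) ≤ (Nat.totient j : ℝ) := by exact_mod_cast h6
        have : (1 : ℝ) / (Nat.totient j : ℝ) ≤ 1 / 6 := one_div_le_one_div_of_le (by norm_num) h6R
        have := mul_le_mul_of_nonneg_left this (h0 j)
        linarith
    refine (Finset.sum_le_sum e5).trans ?_
    rw [Finset.sum_add_distrib, ← Finset.sum_div, Finset.sum_ite_eq', if_pos]
    · linarith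
    · rw [mem_filter, mem_Icc]
      exact ⟨⟨le_rfl, hR⟩, by norm_num⟩
  have e6 : 1 ≤ Z' := by
    rw [hZ']
    have : h 1 ≤ ∑ j ∈ (Icc 1 R).filter (fun j => Nat.Coprime j 30), h j :=
      Finset.single_le_sum (f := h) (fun _ _ => h0 _) (by
        rw [mem_filter, mem_Icc]
        exact ⟨⟨le_rfl, hR⟩, by norm_num⟩)
    rwa [h1] at this
  calc _ ≤ (1 + (Z' - 1) / 6) * Z' := mul_le_mul_of_nonneg_right e3 hZ'0
    _ ≤ Z * (1 + (Z - 1) / 6) := by nlinarith

lemma split_sum (F : ℕ → ℝ) (a R : ℕ) (haR : a ≤ R) :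
    ∑ j ∈ (Icc 1 R).filter (fun j => Nat.Coprime j 30), F j =
      ∑ j ∈ (Icc 1 a).filter (fun j => Nat.Coprime j 30), F j +
      ∑ j ∈ (Ioc a R).filter (fun j => Nat.Coprime j 30), F j := by
  rw [← Finset.sum_union]
  · apply Finset.sum_congr _ (fun _ _ => rfl)
    ext m
    simp only [mem_union, mem_filter, mem_Icc, mem_Ioc]
    constructor
    · rintro ⟨⟨h1, h2⟩, h3⟩
      rcases le_or_gt m a with h | h
      · exact Or.inl ⟨⟨h1, h⟩, h3⟩
      · exact Or.inr ⟨⟨h, by omega⟩, h3⟩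
    · rintro (⟨⟨h1, h2⟩, h3⟩ | ⟨⟨h1, h2⟩, h3⟩)
      · exact ⟨⟨h1, by omega⟩, h3⟩
      · exact ⟨⟨by omega, by omega⟩, h3⟩
  · rw [Finset.disjoint_left]
    intro m hm hm'
    simp only [mem_filter, mem_Icc, mem_Ioc] at hm hm'
    omega

lemma sum_inv_sq (a R : ℕ) (ha : 1 ≤ a) (haR : a ≤ R) :
    ∑ j ∈ Ioc a R, 1 / (j : ℝ) ^ 2 ≤ 1 / (a : ℝ) - 1 / (R : ℝ) := by
  induction R, haR using Nat.le_induction with
  | base => simp
  | succ n hn ih =>
    rw [Finset.sum_Ioc_succ_top (by omega)]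
    have hnR : (0 : ℝ) < n := by
      have : 0 < n := by omega
      exact_mod_cast this
    have h1 : 1 / (((n + 1 : ℕ) : ℝ)) ^ 2 ≤ 1 / (n : ℝ) - 1 / ((n + 1 : ℕ) : ℝ) := by
      push_cast
      rw [div_sub_div _ _ hnR.ne' (by positivity), div_le_div_iff₀ (by positivity) (by positivity)]
      nlinarith
    linarith

lemma Z2 (R : ℕ) : ∑ j ∈ (Icc 1 R).filter (fun j => Nat.Coprime j 30), 1 / (j : ℝ) ^ 2 ≤
    1.0541 := by
  have hexp : ∑ j ∈ (Icc 1 36).filter (fun j => Nat.Coprime j 30), 1 / (j : ℝ) ^ 2 ≤ 1.04495 := by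
    have : (Icc 1 36).filter (fun j => Nat.Coprime j 30) = {1, 7, 11, 13, 17, 19, 23, 29, 31} := by
      decide +kernel
    rw [this]
    norm_num
  rcases le_or_gt R 36 with h | h
  · refine (Finset.sum_le_sum_of_subset_of_nonneg
      (t := (Icc 1 36).filter (fun j => Nat.Coprime j 30)) ?_ ?_).trans (hexp.trans (by norm_num))
    · intro p hp
      rw [mem_filter, mem_Icc] at hp ⊢
      exact ⟨⟨hp.1.1, hp.1.2.trans h⟩, hp.2⟩
    · intro p _ _
      positivity
  · rw [split_sum _ 36 R h.le]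
    have h1 := abel_up (fun j : ℕ => 1 / (j : ℝ) ^ 2) 36 R h
      (by
        intro n hn _
        have hn0 : (0 : ℝ) < n := by
          have : 0 < n := by omega
          exact_mod_cast this
        push_cast
        apply one_div_le_one_div_of_le (by positivity)
        nlinarith) (by positivity) (23 / 15)
      (by
        have : C30 36 = 9 := by decide +kernel
        rw [this]; norm_num)
    have h2 := sum_inv_sq 36 R (by norm_num) h.le
    have h3 : (0 : ℝ) ≤ (R : ℝ)⁻¹ := by positivity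
    push_cast at h1 h2
    norm_num at h1 h2 hexp ⊢
    linarith

lemma sum_inv_32 (a R : ℕ) (ha : 1 ≤ a) (haR : a ≤ R) :
    ∑ j ∈ Ioc a R, √(j : ℝ) / (j : ℝ) ^ 2 ≤ 2 / √(a : ℝ) - 2 / √(R : ℝ) := by
  induction R, haR using Nat.le_induction with
  | base => simp
  | succ n hn ih =>
    rw [Finset.sum_Ioc_succ_top (by omega)]
    have hnR : (0 : ℝ) < n := by
      have : 0 < n := by omega
      exact_mod_cast this
    have h1 : √(((n + 1 : ℕ) : ℝ)) / (((n + 1 : ℕ) : ℝ)) ^ 2 ≤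
        2 / √(n : ℝ) - 2 / √((n + 1 : ℕ) : ℝ) := by
      push_cast
      set s := √(n : ℝ) with hs
      set t := √((n : ℝ) + 1) with ht
      have hs2 : s ^ 2 = n := Real.sq_sqrt hnR.le
      have ht2 : t ^ 2 = (n : ℝ) + 1 := Real.sq_sqrt (by linarith)
      have hs0 : 0 < s := Real.sqrt_pos.2 hnR
      have ht0 : 0 < t := Real.sqrt_pos.2 (by linarith)
      have hst : s ≤ t := Real.sqrt_le_sqrt (by linarith)
      have e1 : ((n : ℝ) + 1) ^ 2 = t ^ 4 := by rw [← ht2]; ring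
      rw [e1]
      have e2 : t / t ^ 4 = 1 / t ^ 3 := by field_simp
      have e3 : 2 / s - 2 / t = 2 * (t - s) / (s * t) := by field_simp
      rw [e2, e3, div_le_div_iff₀ (by positivity) (by positivity)]
      have e4 : (t - s) * (t + s) = 1 := by nlinarith
      have e5 : 0 < t + s := by linarith
      have e6 : 1 * (s * t) * (t + s) ≤ 2 * (t - s) * t ^ 3 * (t + s) := by
        have e7 : 2 * (t - s) * t ^ 3 * (t + s) = 2 * t ^ 3 := by
          calc 2 * (t - s) * t ^ 3 * (t + s) = 2 * t ^ 3 * ((t - s) * (t + s)) := by ring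
            _ = 2 * t ^ 3 := by rw [e4, mul_one]
        rw [e7]
        have e8 : s * t ≤ t * t := mul_le_mul_of_nonneg_right hst ht0.le
        nlinarith [mul_le_mul e8 (by linarith : t + s ≤ 2 * t) e5.le (by positivity)]
      exact le_of_mul_le_mul_right e6 e5
    linarith

lemma Z3 (R : ℕ) : ∑ j ∈ (Icc 1 R).filter (fun j => Nat.Coprime j 30), √(j : ℝ) / (j : ℝ) ^ 2 ≤
    1.301 := by
  have hexp : ∑ j ∈ (Icc 1 6).filter (fun j => Nat.Coprime j 30), √(j : ℝ) / (j : ℝ) ^ 2 = 1 := by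
    have : (Icc 1 6).filter (fun j => Nat.Coprime j 30) = {1} := by
      decide +kernel
    rw [this]
    simp
  rcases le_or_gt R 6 with h | h
  · refine (Finset.sum_le_sum_of_subset_of_nonneg
      (t := (Icc 1 6).filter (fun j => Nat.Coprime j 30)) ?_ ?_).trans
        (hexp.le.trans (by norm_num))
    · intro p hp
      rw [mem_filter, mem_Icc] at hp ⊢
      exact ⟨⟨hp.1.1, hp.1.2.trans h⟩, hp.2⟩
    · intro p _ _
      positivity
  · rw [split_sum _ 6 R h.le, hexp]
    have h1 := abel_up (fun j : ℕ => √(j : ℝ) / (j : ℝ) ^ 2) 6 R h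
      (by
        intro n hn _
        have hn0 : (0 : ℝ) < n := by
          have : 0 < n := by omega
          exact_mod_cast this
        push_cast
        set s := √(n : ℝ) with hs
        set t := √((n : ℝ) + 1) with ht
        have hs2 : s ^ 2 = n := Real.sq_sqrt hn0.le
        have ht2 : t ^ 2 = (n : ℝ) + 1 := Real.sq_sqrt (by linarith)
        have hs0 : 0 < s := Real.sqrt_pos.2 hn0
        have ht0 : 0 < t := Real.sqrt_pos.2 (by linarith)
        have hst : s ≤ t := Real.sqrt_le_sqrt (by linarith)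
        have e1 : ((n : ℝ) + 1) ^ 2 = t ^ 4 := by rw [← ht2]; ring
        have e1' : (n : ℝ) ^ 2 = s ^ 4 := by rw [← hs2]; ring
        rw [e1, e1']
        have e2 : t / t ^ 4 = 1 / t ^ 3 := by field_simp
        have e2' : s / s ^ 4 = 1 / s ^ 3 := by field_simp
        rw [e2, e2']
        apply one_div_le_one_div_of_le (by positivity)
        exact pow_le_pow_left₀ hs0.le hst 3) (by positivity) (23 / 15)
      (by
        have : C30 6 = 1 := by decide +kernel
        rw [this]; norm_num)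
    have h2 := sum_inv_32 6 R (by norm_num) h.le
    have h3 : (0 : ℝ) ≤ 2 / √(R : ℝ) := by positivity
    have h4 : √(((6 : ℕ) : ℝ) + 1) ≤ 2.646 := by
      rw [Real.sqrt_le_left (by norm_num)]
      norm_num
    have h5 : 2 / √((6 : ℕ) : ℝ) ≤ 0.8166 := by
      have h6 : 2.4494 ≤ √((6 : ℕ) : ℝ) := by
        apply Real.le_sqrt_of_sq_le
        norm_num
      rw [div_le_iff₀ (lt_of_lt_of_le (by norm_num) h6)]
      norm_num at h6 ⊢
      linarith
    push_cast at h1 h2 h4 h5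
    norm_num at h1 h2 h4 h5 h3 ⊢
    linarith

theorem c0_le (R : ℕ) (hR : 1 ≤ R) : c0 R ≤ 1.0637 := by
  have h1 := conv (fun d => 1 / (d : ℝ) ^ 2) (fun _ => by positivity)
    (fun e j => by push_cast; rw [mul_pow, one_div_mul_one_div]) (by norm_num) R hR 1.0541 (Z2 R)
  have h2 : c0 R = ∑ d ∈ (Icc 1 R).filter (fun d => SC d),
      1 / (d : ℝ) ^ 2 * ((d : ℝ) * (1 / (Nat.totient d : ℝ))) := by
    unfold c0
    apply Finset.sum_congr rfl
    intro d hd
    rw [mem_filter, mem_Icc] at hd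
    have hd0 : (0 : ℝ) < d := by exact_mod_cast hd.1.1
    have hphi : (0 : ℝ) < (Nat.totient d : ℝ) := by exact_mod_cast Nat.totient_pos.2 hd.1.1
    field_simp
  rw [h2]
  refine h1.trans ?_
  norm_num

theorem b0_le (R : ℕ) (hR : 1 ≤ R) : b0 R ≤ 1.37 := by
  have h1 := conv (fun d => √(d : ℝ) / (d : ℝ) ^ 2) (fun _ => by positivity)
    (fun e j => by
      push_cast
      rw [Real.sqrt_mul (by positivity), mul_pow, mul_div_mul_comm]) (by norm_num) R hR 1.301 (Z3 R)
  have h2 : b0 R = ∑ d ∈ (Icc 1 R).filter (fun d => SC d),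
      √(d : ℝ) / (d : ℝ) ^ 2 * ((d : ℝ) * (1 / (Nat.totient d : ℝ))) := by
    unfold b0
    apply Finset.sum_congr rfl
    intro d hd
    rw [mem_filter, mem_Icc] at hd
    have hd0 : (0 : ℝ) < d := by exact_mod_cast hd.1.1
    have hphi : (0 : ℝ) < (Nat.totient d : ℝ) := by exact_mod_cast Nat.totient_pos.2 hd.1.1
    field_simp
  rw [h2]
  refine h1.trans ?_
  norm_num

/-! ### bounds for `GG` -/

/-- Partial sums of `1/n` over `n` with a given radical. -/
lemma sum_inv_rad (k : ℕ) (hk : Squarefree k) (S : Finset ℕ)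
    (hS : ∀ n ∈ S, n ≠ 0 ∧ n.primeFactors = k.primeFactors) :
    ∑ n ∈ S, (1 : ℝ) / n ≤ 1 / (Nat.totient k : ℝ) := by
  have hk0 : 0 < k := Nat.pos_of_ne_zero hk.ne_zero
  have hkR : (0 : ℝ) < k := by exact_mod_cast hk0
  have hphi : (0 : ℝ) < (Nat.totient k : ℝ) := by exact_mod_cast Nat.totient_pos.2 hk0
  -- the monoid hom n ↦ 1/n
  let f : ℕ →* ℝ :=
    { toFun := fun n => (n : ℝ)⁻¹
      map_one' := by simp
      map_mul' := fun a b => by simp [mul_comm] }
  have hf : ∀ {p : ℕ}, p.Prime → ‖f p‖ < 1 := by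
    intro p hp
    have : (1 : ℝ) < p := by exact_mod_cast hp.one_lt
    show ‖((p : ℝ))⁻¹‖ < 1
    rw [Real.norm_eq_abs, abs_of_pos (by positivity)]
    exact inv_lt_one_of_one_lt₀ this
  obtain ⟨hsum, hhas⟩ := EulerProduct.summable_and_hasSum_factoredNumbers_prod_filter_prime_geometric
    hf k.primeFactors
  have hprod : ∏ p ∈ k.primeFactors with Nat.Prime p, (1 - f p)⁻¹ = (k : ℝ) / (Nat.totient k : ℝ) := by
    have h1 : (k.primeFactors).filter (fun p => Nat.Prime p) = k.primeFactors := by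
      apply Finset.filter_true_of_mem
      intro p hp; exact Nat.prime_of_mem_primeFactors hp
    rw [h1]
    have h2 := Nat.totient_eq_mul_prod_factors k
    have h3 : (Nat.totient k : ℝ) = (k : ℝ) * ∏ p ∈ k.primeFactors, (1 - (p : ℝ)⁻¹) := by
      have h2' := congrArg (fun q : ℚ => (q : ℝ)) h2
      push_cast at h2'
      exact h2'
    have h4 : ∏ p ∈ k.primeFactors, (1 - f p)⁻¹ = (∏ p ∈ k.primeFactors, (1 - (p : ℝ)⁻¹))⁻¹ := by
      rw [Finset.prod_inv_distrib]
      rfl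
    rw [h4]
    have h5 : (∏ p ∈ k.primeFactors, (1 - (p : ℝ)⁻¹)) = (Nat.totient k : ℝ) / k := by
      rw [h3]; field_simp
    rw [h5, inv_div]
  rw [hprod] at hhas
  -- map n ↦ n / k
  have hdvd : ∀ n ∈ S, k ∣ n := by
    intro n hn
    have h1 := (hS n hn).2
    calc k = ∏ p ∈ k.primeFactors, p := (Nat.prod_primeFactors_of_squarefree hk).symm
      _ = ∏ p ∈ n.primeFactors, p := by rw [h1]
      _ ∣ n := Nat.prod_primeFactors_dvd n
  have hmem : ∀ n ∈ S, n / k ∈ Nat.factoredNumbers k.primeFactors := by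
    intro n hn
    rw [Nat.mem_factoredNumbers_iff_primeFactors_subset]
    have hn0 := (hS n hn).1
    constructor
    · have : 0 < n / k := Nat.div_pos (Nat.le_of_dvd (Nat.pos_of_ne_zero hn0) (hdvd n hn)) hk0
      omega
    · rw [← (hS n hn).2]
      exact Nat.primeFactors_mono (Nat.div_dvd_of_dvd (hdvd n hn)) hn0
  classical
  let T : Finset (Nat.factoredNumbers k.primeFactors) :=
    S.attach.image (fun n => ⟨n.1 / k, hmem n.1 n.2⟩)
  have hinj : ∀ x ∈ S.attach, ∀ y ∈ S.attach,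
      (⟨x.1 / k, hmem x.1 x.2⟩ : Nat.factoredNumbers k.primeFactors) = ⟨y.1 / k, hmem y.1 y.2⟩ →
        x = y := by
    intro x _ y _ hxy
    have h1 : x.1 / k = y.1 / k := congrArg Subtype.val hxy
    apply Subtype.ext
    have hx := Nat.div_mul_cancel (hdvd x.1 x.2)
    have hy := Nat.div_mul_cancel (hdvd y.1 y.2)
    rw [← hx, ← hy, h1]
  have hT : ∑ m ∈ T, f (m : ℕ) = ∑ n ∈ S, (k : ℝ) * (1 / (n : ℝ)) := by
    rw [Finset.sum_image hinj, ← Finset.sum_attach S]
    apply Finset.sum_congr rfl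
    intro n _
    show (((n.1 / k : ℕ) : ℝ))⁻¹ = _
    rw [Nat.cast_div (hdvd n.1 n.2) hkR.ne', inv_div]
    ring
  have hle : ∑ m ∈ T, f (m : ℕ) ≤ (k : ℝ) / (Nat.totient k : ℝ) := by
    apply sum_le_hasSum T _ hhas
    intro m _
    show (0 : ℝ) ≤ ((m : ℕ) : ℝ)⁻¹
    positivity
  rw [hT, ← Finset.mul_sum] at hle
  rw [le_div_iff₀ hphi] at hle ⊢
  nlinarith

/-- Lower bound for the Selberg sum. -/
theorem sum_le_GG (R : ℕ) :
    ∑ n ∈ (Icc 1 R).filter (fun n => Nat.Coprime n 30), (1 : ℝ) / n ≤ GG R := by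
  unfold GG
  -- group by radical
  have h2 : ∑ n ∈ (Icc 1 R).filter (fun n => Nat.Coprime n 30), (1 : ℝ) / n
      = ∑ k ∈ (Icc 1 R).filter (fun k => SC k),
        ∑ n ∈ ((Icc 1 R).filter (fun n => Nat.Coprime n 30)).filter
          (fun n => ∏ p ∈ n.primeFactors, p = k), (1 : ℝ) / n := by
    symm
    apply Finset.sum_fiberwise_of_maps_to
    intro n hn
    rw [mem_filter] at hn
    have hn1 := (mem_Icc.1 hn.1).1
    have hn2 := (mem_Icc.1 hn.1).2
    have hdvd := Nat.prod_primeFactors_dvd n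
    simp only [mem_filter, mem_Icc]
    refine ⟨⟨Nat.pos_of_dvd_of_pos hdvd hn1, (Nat.le_of_dvd hn1 hdvd).trans hn2⟩, ?_,
      Nat.Coprime.coprime_dvd_left hdvd hn.2⟩
    apply Finset.squarefree_prod_of_pairwise_isCoprime
    · intro p hp q hq hpq
      have hp' := Nat.prime_of_mem_primeFactors (Finset.mem_coe.1 hp)
      have hq' := Nat.prime_of_mem_primeFactors (Finset.mem_coe.1 hq)
      rw [Function.onFun, ← Nat.coprime_iff_isRelPrime]
      exact (Nat.coprime_primes hp' hq').2 hpq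
    · intro p hp
      exact (Nat.prime_of_mem_primeFactors hp).squarefree
  rw [h2]
  apply Finset.sum_le_sum
  intro k hk
  have hk1 := (mem_filter.1 hk).2
  apply sum_inv_rad k hk1.1
  intro n hn
  have hn' := mem_filter.1 hn
  have hn1 := (mem_Icc.1 (mem_filter.1 hn'.1).1).1
  refine ⟨by omega, ?_⟩
  rw [← hn'.2]
  exact (Nat.primeFactors_prod (fun p hp => Nat.prime_of_mem_primeFactors hp)).symm

lemma inv_anti : ∀ n : ℕ, 0 < n → 1 / (((n + 1 : ℕ)) : ℝ) ≤ 1 / (n : ℝ) := by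
  intro n hn
  have hn0 : (0 : ℝ) < n := by exact_mod_cast hn
  push_cast
  exact one_div_le_one_div_of_le hn0 (by linarith)

lemma H_lower (R : ℕ) (hR : 31 ≤ R) :
    4 / 15 * Real.log R + 0.56 ≤
      ∑ n ∈ (Icc 1 R).filter (fun n => Nat.Coprime n 30), (1 : ℝ) / n := by
  rw [split_sum _ 30 R (by omega)]
  have h1 := abel_low (fun j : ℕ => (1 : ℝ) / j) 30 R (by omega)
    (fun n hn _ => inv_anti n (by omega)) (by positivity) (2 / 3)
    (by
      have : C30 30 = 8 := by decide +kernel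
      rw [this]; norm_num)
  have h2 := le_sum_inv_Ioc 30 R (by norm_num) (by omega)
  have hexp : 1.5001 ≤ ∑ j ∈ (Icc 1 30).filter (fun j => Nat.Coprime j 30), 1 / (j : ℝ) := by
    have : (Icc 1 30).filter (fun j => Nat.Coprime j 30) = {1, 7, 11, 13, 17, 19, 23, 29} := by
      decide +kernel
    rw [this]
    norm_num
  have h3 : Real.log ((30 : ℝ) + 1) ≤ 3.4363 := by
    have h4 := log_le_flog 31 (by norm_num)
    have h5 : flog 31 = 1981 := by decide +kernel
    rw [h5] at h4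
    have h6 := Real.log_two_lt_d9
    push_cast at h4
    norm_num at h4 h6 ⊢
    linarith
  have hRR : (31 : ℝ) ≤ R := by exact_mod_cast hR
  have h4 : Real.log R ≤ Real.log ((R : ℝ) + 1) := Real.log_le_log (by linarith) (by linarith)
  push_cast at h1 h2
  norm_num at h1 h2 h3 hexp ⊢
  linarith

lemma H_upper (R : ℕ) (hR : 7 ≤ R) :
    ∑ n ∈ (Icc 1 R).filter (fun n => Nat.Coprime n 30), (1 : ℝ) / n ≤
      4 / 15 * Real.log R + 0.75 := by
  rw [split_sum _ 6 R (by omega)]
  have h1 := abel_up (fun j : ℕ => (1 : ℝ) / j) 6 R (by omega)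
    (fun n hn _ => inv_anti n (by omega)) (by positivity) (23 / 15)
    (by
      have : C30 6 = 1 := by decide +kernel
      rw [this]; norm_num)
  have h2 := sum_inv_Ioc_le 6 R (by norm_num) (by omega)
  have hexp : ∑ j ∈ (Icc 1 6).filter (fun j => Nat.Coprime j 30), 1 / (j : ℝ) = 1 := by
    have : (Icc 1 6).filter (fun j => Nat.Coprime j 30) = {1} := by
      decide +kernel
    rw [this]
    norm_num
  have h3 : 1.78 ≤ Real.log 6 := by
    have h4 : Real.log 6 = Real.log 2 + Real.log 3 := by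
      rw [show (6 : ℝ) = 2 * 3 by norm_num, Real.log_mul (by norm_num) (by norm_num)]
    have h5 := log3.1
    have h6 := Real.log_two_gt_d9
    rw [h4]
    norm_num at h5 h6 ⊢
    linarith
  push_cast at h1 h2
  rw [hexp]
  norm_num at h1 h2 h3 ⊢
  linarith

theorem GG_lower (R : ℕ) (hR : 31 ≤ R) : 4 / 15 * Real.log R + 0.56 ≤ GG R :=
  (H_lower R hR).trans (sum_le_GG R)

theorem GG_upper (R : ℕ) (hR : 7 ≤ R) : GG R ≤ 1.0637 * (4 / 15 * Real.log R + 0.75) := by
  have h1 := swap R (fun _ => True)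
  have h2 : ∑ k ∈ (Icc 1 R).filter (fun k => SC k ∧ True), (1 : ℝ) / (Nat.totient k : ℝ) = GG R := by
    unfold GG
    apply Finset.sum_congr _ (fun _ _ => rfl)
    apply Finset.filter_congr
    intro k _
    simp
  rw [h2] at h1
  refine h1.trans ?_
  have hH0 : 0 ≤ 4 / 15 * Real.log R + 0.75 := by
    have : (1 : ℝ) ≤ R := by exact_mod_cast (by omega : 1 ≤ R)
    have := Real.log_nonneg this
    positivity
  have h3 : ∀ d ∈ (Icc 1 R).filter (fun d => SC d), (1 : ℝ) / ((d : ℝ) * (Nat.totient d : ℝ)) *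
      ∑ j ∈ (Icc 1 R).filter (fun j => Nat.Coprime j 30 ∧ d * j ≤ R ∧ True), (1 : ℝ) / j ≤
      (1 : ℝ) / ((d : ℝ) * (Nat.totient d : ℝ)) * (4 / 15 * Real.log R + 0.75) := by
    intro d _
    apply mul_le_mul_of_nonneg_left _ (by positivity)
    refine le_trans ?_ (H_upper R hR)
    apply Finset.sum_le_sum_of_subset_of_nonneg
    · intro j hj
      rw [mem_filter] at hj ⊢
      exact ⟨hj.1, hj.2.1⟩
    · intro j _ _; positivity
  refine (Finset.sum_le_sum h3).trans ?_
  rw [← Finset.sum_mul]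
  exact mul_le_mul_of_nonneg_right (c0_le R (by omega)) hH0

/-- the sum in the main term with a prime -/
noncomputable def NN (R p : ℕ) : ℝ :=
  ∑ k ∈ (Icc 1 R).filter (fun k => SC k ∧ ¬ p ∣ k ∧ R < k * p), (1 / (Nat.totient k : ℝ))

lemma NN_nonneg (R p : ℕ) : 0 ≤ NN R p := Finset.sum_nonneg (fun _ _ => by positivity)

lemma NN_le_GG (R p : ℕ) : NN R p ≤ GG R := by
  unfold NN GG
  apply Finset.sum_le_sum_of_subset_of_nonneg
  · intro k hk
    rw [mem_filter] at hk ⊢
    exact ⟨hk.1, hk.2.1⟩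
  · intro k _ _; positivity

theorem NN_le (R p : ℕ) (hR : 1 ≤ R) (hp : 1 ≤ p) :
    NN R p ≤ 0.28366 * Real.log p + 2.5574 * √((p : ℝ) / R) := by
  have h1 : NN R p ≤ ∑ k ∈ (Icc 1 R).filter (fun k => SC k ∧ R < k * p),
      (1 : ℝ) / (Nat.totient k : ℝ) := by
    unfold NN
    apply Finset.sum_le_sum_of_subset_of_nonneg
    · intro k hk
      rw [mem_filter] at hk ⊢
      exact ⟨hk.1, hk.2.1, hk.2.2.2⟩
    · intro k _ _; positivity
  refine h1.trans ((window_bound R p hR hp).trans ?_)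
  have h2 := c0_le R hR
  have h3 := b0_le R hR
  have hlog : 0 ≤ Real.log p := Real.log_nonneg (by exact_mod_cast hp)
  have hsq := Real.sqrt_nonneg ((p : ℝ) / R)
  have h4 : 4 / 15 * c0 R * Real.log p ≤ 0.28366 * Real.log p := by
    apply mul_le_mul_of_nonneg_right _ hlog
    norm_num at h2 ⊢
    linarith
  have h5 : 28 / 15 * b0 R * √((p : ℝ) / R) ≤ 2.5574 * √((p : ℝ) / R) := by
    apply mul_le_mul_of_nonneg_right _ hsq
    norm_num at h3 ⊢
    linarith
  linarith

end Pool.Agent.Lib.MP_bf4c7f
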