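import Mathlib
import Pool.Agent.Lib.MP_bf4c7f_nt.Numer

/-!
# The sum of `log b / log n - 1` over integers up to `b` coprime to 30
-/

set_option autoImplicit false
open Finset

namespace Pool.Agent.Lib.MP_bf4c7f

lemma log60 : 4.091 ≤ Real.log 60 ∧ Real.log 60 ≤ 4.0965 := by
  have h6 : Real.log 60 = 2 * Real.log 2 + Real.log 3 + Real.log 5 := by
    rw [show (60 : ℝ) = 2 ^ 2 * 3 * 5 by norm_num, Real.log_mul (by norm_num) (by norm_num),
      Real.log_mul (by norm_num) (by norm_num), Real.log_pow]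
    push_cast; ring
  have h1 := log5
  have h2 := log3
  have h3 := Real.log_two_gt_d9
  have h4 := Real.log_two_lt_d9
  obtain ⟨a1, a2⟩ := h1
  obtain ⟨b1, b2⟩ := h2
  rw [h6]
  constructor
  · norm_num at a1 b1 h3 ⊢; linarith
  · norm_num at a2 b2 h4 ⊢; linarith

/-- the discrete integral -/
noncomputable def Q (b : ℕ) : ℝ :=
  ∑ n ∈ Ioo 6 b, (n : ℝ) * (1 / Real.log n - 1 / Real.log ((n : ℝ) + 1))

lemma Q_succ (b : ℕ) (hb : 7 ≤ b) :
    Q (b + 1) = Q b + (b : ℝ) * (1 / Real.log b - 1 / Real.log ((b : ℝ) + 1)) := by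
  unfold Q
  have h2 : Ioo 6 (b + 1) = insert b (Ioo 6 b) := by
    ext m; simp only [mem_Ioo, mem_insert]; omega
  rw [h2, Finset.sum_insert (by simp)]
  ring

lemma Q_eq (b : ℕ) (hb : 8 ≤ b) :
    Q b = 7 / Real.log 7 + ∑ n ∈ Ioo 7 b, 1 / Real.log n - ((b : ℝ) - 1) / Real.log b := by
  induction b, hb using Nat.le_induction with
  | base =>
    have h1 : Ioo 6 8 = {7} := by decide
    have h2 : Ioo 7 8 = ∅ := by decide
    unfold Q
    rw [h1, h2, Finset.sum_singleton, Finset.sum_empty]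
    norm_num
    ring
  | succ b hb ih =>
    have h2 : Ioo 7 (b + 1) = insert b (Ioo 7 b) := by
      ext m; simp only [mem_Ioo, mem_insert]; omega
    rw [Q_succ b (by omega), ih, h2, Finset.sum_insert (by simp)]
    push_cast
    ring

lemma qW : ∑ n ∈ Ioo 7 60, (if n < 16 then 20 else if n < 32 then 15 else 12) = 736 := by
  decide +kernel

lemma Q_base : Q 60 ≤ 2 * (60 : ℝ) / Real.log 60 ^ 2 := by
  rw [Q_eq 60 (by norm_num)]
  have hl2 := Real.log_two_gt_d9
  have hl2' : 0 < Real.log 2 := by linarith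
  have h1 : ∑ n ∈ Ioo (7 : ℕ) 60, 1 / Real.log (n : ℝ) ≤
      ∑ n ∈ Ioo (7 : ℕ) 60, 1 / (60 * Real.log 2) *
        ((if n < 16 then 20 else if n < 32 then 15 else 12 : ℕ) : ℝ) := by
    apply Finset.sum_le_sum
    intro n hn
    rw [mem_Ioo] at hn
    have key : ∀ k : ℕ, 0 < k → 2 ^ k ≤ n → 1 / Real.log n ≤ 1 / (k * Real.log 2) := by
      intro k hk hkn
      have h3 : (2 : ℝ) ^ k ≤ n := by exact_mod_cast hkn
      have h4 := Real.log_le_log (by positivity) h3
      rw [Real.log_pow] at h4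
      have hkR : (0 : ℝ) < k := by exact_mod_cast hk
      exact one_div_le_one_div_of_le (by positivity) h4
    split_ifs with h3 h4
    · refine (key 3 (by norm_num) (by omega)).trans (le_of_eq ?_)
      push_cast; field_simp; norm_num
    · refine (key 4 (by norm_num) (by omega)).trans (le_of_eq ?_)
      push_cast; field_simp; norm_num
    · refine (key 5 (by norm_num) (by omega)).trans (le_of_eq ?_)
      push_cast; field_simp; norm_num
  rw [← Finset.mul_sum, ← Nat.cast_sum, qW] at h1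
  have h7 : 1.944 ≤ Real.log 7 := by
    have h1 := flog_le_log 7 (by norm_num)
    have h3 : flog 7 = 1122 := by decide +kernel
    rw [h3] at h1
    push_cast at h1
    norm_num at h1 hl2 ⊢
    linarith
  have h8 : 7 / Real.log 7 ≤ 3.601 := by
    rw [div_le_iff₀ (by linarith)]
    norm_num at h7 ⊢
    linarith
  have h9 : 1 / (60 * Real.log 2) * ((736 : ℕ) : ℝ) ≤ 17.6972 := by
    rw [div_mul_eq_mul_div, one_mul, div_le_iff₀ (by positivity)]
    push_cast
    norm_num at hl2 ⊢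
    linarith
  obtain ⟨c1, c2⟩ := log60
  have h10 : 14.4025 ≤ ((60 : ℕ) - 1 : ℝ) / Real.log ((60 : ℕ) : ℝ) := by
    push_cast
    rw [le_div_iff₀ (by linarith)]
    norm_num at c2 ⊢
    linarith
  have h11 : 7.1 ≤ 2 * (60 : ℝ) / Real.log 60 ^ 2 := by
    rw [le_div_iff₀ (by positivity)]
    have : Real.log 60 ^ 2 ≤ 4.0965 ^ 2 := by
      apply pow_le_pow_left₀ (by linarith) c2
    norm_num at this ⊢
    linarith
  norm_num at h1 h8 h9 h10 h11 ⊢
  linarith

lemma Q_le (b : ℕ) (hb : 60 ≤ b) : Q b ≤ 2 * (b : ℝ) / Real.log b ^ 2 := by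
  induction b, hb using Nat.le_induction with
  | base => exact_mod_cast Q_base
  | succ b hb ih =>
    have hbR : (60 : ℝ) ≤ b := by exact_mod_cast hb
    have hb0 : (0 : ℝ) < b := by linarith
    rw [Q_succ b (by omega)]
    push_cast
    set l := Real.log b with hl
    set l' := Real.log ((b : ℝ) + 1) with hl'
    have h1 : l' - l ≤ 1 / b := log_succ_le b (by omega)
    have h1' : l ≤ l' := Real.log_le_log hb0 (by linarith)
    have h2 : 4.091 ≤ l := log60.1.trans (Real.log_le_log (by norm_num) hbR)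
    have hl0 : 0 < l := by linarith
    have hl0' : 0 < l' := by linarith
    have h3 : (b : ℝ) * (1 / l - 1 / l') ≤ 1 / l ^ 2 := by
      have e1 : (b : ℝ) * (1 / l - 1 / l') = (b * (l' - l)) / (l * l') := by field_simp
      rw [e1]
      have e2 : (b : ℝ) * (l' - l) ≤ 1 := by
        rw [le_div_iff₀ hb0] at h1; linarith
      calc (b * (l' - l)) / (l * l') ≤ 1 / (l * l') := by gcongr
        _ ≤ 1 / l ^ 2 := by
          apply one_div_le_one_div_of_le (by positivity)
          nlinarith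
    have h4 : (2 * (b : ℝ) + 1) * l' ^ 2 ≤ 2 * ((b : ℝ) + 1) * l ^ 2 := by
      have e1 : l' ≤ l + 1 / b := by linarith
      have e2 : l' ^ 2 ≤ (l + 1 / b) ^ 2 := pow_le_pow_left₀ hl0'.le e1 2
      have e3 : (2 * (b : ℝ) + 1) * (l + 1 / b) ^ 2 ≤ 2 * ((b : ℝ) + 1) * l ^ 2 := by
        have e4 : (2 * (b : ℝ) + 1) * (l + 1 / b) ^ 2 =
            (2 * b + 1) * l ^ 2 + (4 * l + (2 * l + 2) * (1 / b) + (1 / b) ^ 2) := by
          field_simp
          ring
        have e5 : (1 : ℝ) / b ≤ 1 / 60 := one_div_le_one_div_of_le (by norm_num) hbR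
        have e6 : (0 : ℝ) < 1 / b := by positivity
        have e7 : (1 / (b : ℝ)) ^ 2 ≤ 1 / 60 := by nlinarith
        have e8 : (2 * l + 2) * (1 / (b : ℝ)) ≤ (2 * l + 2) * (1 / 60) :=
          mul_le_mul_of_nonneg_left e5 (by linarith)
        have e9 : 4 * l + (2 * l + 2) * (1 / 60) + 1 / 60 ≤ l ^ 2 := by nlinarith
        rw [e4]
        linarith
      have e10 : (0 : ℝ) < 2 * b + 1 := by linarith
      nlinarith [mul_le_mul_of_nonneg_left e2 e10.le]
    have h5 : (2 * (b : ℝ) + 1) / l ^ 2 ≤ 2 * ((b : ℝ) + 1) / l' ^ 2 := by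
      rw [div_le_div_iff₀ (by positivity) (by positivity)]
      exact h4
    have h6 : 2 * (b : ℝ) / l ^ 2 + 1 / l ^ 2 = (2 * (b : ℝ) + 1) / l ^ 2 := by ring
    linarith

/-- The bound for the error sum. -/
theorem errSum (b : ℕ) (hb : 60 ≤ b) :
    ∑ n ∈ (Ioc 6 b).filter (fun m => Nat.Coprime m 30), (Real.log b / Real.log n - 1) ≤
      8 / 15 * b / Real.log b := by
  have hbR : (60 : ℝ) ≤ b := by exact_mod_cast hb
  have hlb : 4.091 ≤ Real.log b := log60.1.trans (Real.log_le_log (by norm_num) hbR)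
  have hlb0 : 0 < Real.log b := by linarith
  set F : ℕ → ℝ := fun n => Real.log b / Real.log n - 1 with hF
  have h1 := abel (fun k => if Nat.Coprime k 30 then (1 : ℝ) else 0) F 6 b (by omega)
  have h2 : ∑ n ∈ Ioc 6 b, (if Nat.Coprime n 30 then (1 : ℝ) else 0) * F n =
      ∑ n ∈ (Ioc 6 b).filter (fun m => Nat.Coprime m 30), F n := by
    rw [Finset.sum_filter]
    apply Finset.sum_congr rfl
    intro n _
    split_ifs <;> ring
  have h3 : F b = 0 := by
    rw [hF]; beta_reduce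
    rw [div_self hlb0.ne', sub_self]
  rw [h2, h3, mul_zero, zero_add] at h1
  rw [h1]
  have hU : ∀ n, 6 < n → ∑ k ∈ Ioc 6 n, (if Nat.Coprime k 30 then (1 : ℝ) else 0) ≤
      4 / 15 * (n : ℝ) := by
    intro n hn
    rw [← Finset.sum_filter, Finset.sum_const, nsmul_eq_mul, mul_one,
      card_Ioc_coprime 6 n hn.le]
    have h4 : C30 6 = 1 := by decide +kernel
    have h5 : (15 : ℝ) * (C30 n : ℝ) ≤ 4 * (n : ℝ) + 14 := by exact_mod_cast (C30_bounds n).1
    rw [h4]
    push_cast
    linarith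
  have h4 : ∑ n ∈ Ioo 6 b, (∑ k ∈ Ioc 6 n, (if Nat.Coprime k 30 then (1 : ℝ) else 0)) *
      (F n - F (n + 1)) ≤ ∑ n ∈ Ioo 6 b, (4 / 15 * Real.log b) *
        ((n : ℝ) * (1 / Real.log n - 1 / Real.log ((n : ℝ) + 1))) := by
    apply Finset.sum_le_sum
    intro n hn
    rw [mem_Ioo] at hn
    have hnR : (6 : ℝ) < n := by exact_mod_cast hn.1
    have hln : 0 < Real.log n := Real.log_pos (by linarith)
    have hln' : Real.log n ≤ Real.log ((n : ℝ) + 1) := Real.log_le_log (by linarith) (by linarith)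
    have e1 : F n - F (n + 1) = Real.log b * (1 / Real.log n - 1 / Real.log ((n : ℝ) + 1)) := by
      rw [hF]; push_cast; ring
    rw [e1]
    have e2 : 0 ≤ 1 / Real.log n - 1 / Real.log ((n : ℝ) + 1) := by
      have := one_div_le_one_div_of_le hln hln'
      linarith
    calc (∑ k ∈ Ioc 6 n, (if Nat.Coprime k 30 then (1 : ℝ) else 0)) *
          (Real.log b * (1 / Real.log n - 1 / Real.log ((n : ℝ) + 1)))
        ≤ (4 / 15 * (n : ℝ)) * (Real.log b * (1 / Real.log n - 1 / Real.log ((n : ℝ) + 1))) :=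
          mul_le_mul_of_nonneg_right (hU n hn.1) (by positivity)
      _ = _ := by ring
  refine h4.trans ?_
  rw [← Finset.mul_sum]
  have h5 := Q_le b hb
  unfold Q at h5
  calc 4 / 15 * Real.log b * _ ≤ 4 / 15 * Real.log b * (2 * (b : ℝ) / Real.log b ^ 2) :=
        mul_le_mul_of_nonneg_left h5 (by positivity)
    _ = 8 / 15 * b / Real.log b := by field_simp; norm_num

/-- The same for primes. -/
theorem errSum_prime (b : ℕ) (hb : 60 ≤ b) :
    ∑ p ∈ P7 b, (Real.log b / Real.log p - 1) ≤ 8 / 15 * b / Real.log b := by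
  refine le_trans ?_ (errSum b hb)
  apply Finset.sum_le_sum_of_subset_of_nonneg
  · intro p hp
    rw [mem_P7] at hp
    rw [mem_filter, mem_Ioc]
    exact ⟨⟨by omega, hp.2.2⟩, prime_coprime_30 hp.1 hp.2.1⟩
  · intro n hn _
    rw [mem_filter, mem_Ioc] at hn
    have h1 : (6 : ℝ) < n := by exact_mod_cast hn.1.1
    have h2 : (n : ℝ) ≤ b := by exact_mod_cast hn.1.2
    have h3 : 0 < Real.log n := Real.log_pos (by linarith)
    have h4 : Real.log n ≤ Real.log b := Real.log_le_log (by linarith) h2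
    have : 1 ≤ Real.log b / Real.log n := by rw [le_div_iff₀ h3]; linarith
    linarith

end Pool.Agent.Lib.MP_bf4c7f
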