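import Mathlib
import Pool.Agent.Lib.MP_bf4c7f_nt.ErrSum

/-!
# The main sum over primes: partial summation
-/

set_option autoImplicit false
open Finset

namespace Pool.Agent.Lib.MP_bf4c7f

lemma sum_prime_term (a n : ℕ) (han : a ≤ n) :
    ∑ k ∈ Ioc a n, (if k.Prime then Real.log k / ((k : ℝ) - 1) else 0) = Ls n - Ls a := by
  unfold Ls
  rw [← Finset.sum_filter, eq_sub_iff_add_eq, add_comm, ← Finset.sum_union]
  · apply Finset.sum_congr _ (fun _ _ => rfl)
    ext m
    simp only [mem_union, mem_filter, mem_Icc, mem_Ioc]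
    constructor
    · rintro (⟨⟨h1, h2⟩, h3⟩ | ⟨⟨h1, h2⟩, h3⟩)
      · exact ⟨⟨h1, by omega⟩, h3⟩
      · exact ⟨⟨by omega, by omega⟩, h3⟩
    · rintro ⟨⟨h1, h2⟩, h3⟩
      rcases le_or_gt m a with h | h
      · exact Or.inl ⟨⟨h1, h⟩, h3⟩
      · exact Or.inr ⟨⟨h, h2⟩, h3⟩
  · rw [Finset.disjoint_left]
    intro m hm hm'
    simp only [mem_filter, mem_Icc, mem_Ioc] at hm hm'
    omega

lemma loglog_sum (a b : ℕ) (ha : 1 ≤ a) (hab : a < b) :
    ∑ n ∈ Ioo a b, Real.log n * (1 / Real.log n - 1 / Real.log ((n : ℝ) + 1)) ≤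
      Real.log (Real.log b) - Real.log (Real.log ((a : ℝ) + 1)) := by
  induction b, hab using Nat.le_induction with
  | base =>
    have h2 : Ioo a a.succ = ∅ := by
      ext m; simp only [mem_Ioo, notMem_empty, iff_false]; omega
    rw [h2, Finset.sum_empty]
    push_cast
    linarith
  | succ b hb ih =>
    have h2 : Ioo a (b + 1) = insert b (Ioo a b) := by
      ext m; simp only [mem_Ioo, mem_insert]; omega
    rw [h2, Finset.sum_insert (by simp)]
    have hbR : (2 : ℝ) ≤ b := by
      have : 2 ≤ b := by omega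
      exact_mod_cast this
    have hl : 0 < Real.log b := Real.log_pos (by linarith)
    have hl' : 0 < Real.log ((b : ℝ) + 1) := Real.log_pos (by linarith)
    have h3 : Real.log b * (1 / Real.log b - 1 / Real.log ((b : ℝ) + 1)) ≤
        Real.log (Real.log ((b : ℝ) + 1)) - Real.log (Real.log b) := by
      have h4 : Real.log (Real.log b / Real.log ((b : ℝ) + 1)) ≤
          Real.log b / Real.log ((b : ℝ) + 1) - 1 := Real.log_le_sub_one_of_pos (by positivity)
      rw [Real.log_div hl.ne' hl'.ne'] at h4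
      have h5 : Real.log b * (1 / Real.log b - 1 / Real.log ((b : ℝ) + 1)) =
          1 - Real.log b / Real.log ((b : ℝ) + 1) := by
        field_simp
      rw [h5]
      linarith
    push_cast
    linarith

/-- The tail of the main sum. -/
theorem tail_main (a b : ℕ) (ha : 1 ≤ a) (hab : a < b) (c : ℝ)
    (hc : ∀ n, a < n → n < b → Ls n ≤ Real.log n + c) :
    ∑ p ∈ (Ioc a b).filter Nat.Prime, (1 - Real.log p / Real.log b) / ((p : ℝ) - 1) ≤
      Real.log (Real.log b) - Real.log (Real.log ((a : ℝ) + 1)) +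
        (c - Ls a) * (1 / Real.log ((a : ℝ) + 1) - 1 / Real.log b) := by
  set F : ℕ → ℝ := fun n => 1 / Real.log n - 1 / Real.log b with hF
  have h1 := abel (fun k => if k.Prime then Real.log k / ((k : ℝ) - 1) else 0) F a b hab
  have h2 : ∑ n ∈ Ioc a b, (if n.Prime then Real.log n / ((n : ℝ) - 1) else 0) * F n =
      ∑ p ∈ (Ioc a b).filter Nat.Prime, (1 - Real.log p / Real.log b) / ((p : ℝ) - 1) := by
    rw [Finset.sum_filter]
    apply Finset.sum_congr rfl
    intro n _
    split_ifs with h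
    · have h3 : Real.log n ≠ 0 := (Real.log_pos (by exact_mod_cast h.one_lt)).ne'
      have h4 := (pred_pos h).ne'
      rw [hF]; beta_reduce
      field_simp
    · ring
  have h3 : F b = 0 := by rw [hF]; beta_reduce; rw [sub_self]
  rw [h2, h3, mul_zero, zero_add] at h1
  rw [h1]
  have hanti : ∀ n, a < n → 0 ≤ F n - F (n + 1) := by
    intro n hn
    have hnR : (1 : ℝ) < n := by
      have : 1 < n := by omega
      exact_mod_cast this
    have hl : 0 < Real.log n := Real.log_pos hnR
    have hll : Real.log n ≤ Real.log ((n : ℝ) + 1) := Real.log_le_log (by linarith) (by linarith)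
    have := one_div_le_one_div_of_le hl hll
    rw [hF]; push_cast; linarith
  have h4 : ∑ n ∈ Ioo a b, (∑ k ∈ Ioc a n, (if k.Prime then Real.log k / ((k : ℝ) - 1) else 0)) *
      (F n - F (n + 1)) ≤ ∑ n ∈ Ioo a b, (Real.log n * (1 / Real.log n -
        1 / Real.log ((n : ℝ) + 1)) + (c - Ls a) * (F n - F (n + 1))) := by
    apply Finset.sum_le_sum
    intro n hn
    rw [mem_Ioo] at hn
    rw [sum_prime_term a n hn.1.le]
    have e1 : F n - F (n + 1) = 1 / Real.log n - 1 / Real.log ((n : ℝ) + 1) := by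
      rw [hF]; push_cast; ring
    have e2 := hanti n hn.1
    have e3 := mul_le_mul_of_nonneg_right (hc n hn.1 hn.2) e2
    rw [← e1]
    linarith
  refine h4.trans ?_
  rw [Finset.sum_add_distrib, ← Finset.mul_sum]
  have h5 := loglog_sum a b ha hab
  have h6 := abel_single F a b hab
  rw [h3, zero_add] at h6
  have h7 : F (a + 1) = 1 / Real.log ((a : ℝ) + 1) - 1 / Real.log b := by
    rw [hF]; push_cast; ring
  rw [← h6, h7]
  linarith

lemma c101 (n : ℕ) (hn : 100 < n) : Ls n ≤ Real.log n + 0.7212 := by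
  have h1 := Ls_upper n (by omega)
  have hnR : (101 : ℝ) ≤ n := by exact_mod_cast hn
  have h2 : Real.log n ≤ 4.607 + ((n : ℝ) / 100 - 1) := by
    have h3 : Real.log n = Real.log 100 + Real.log ((n : ℝ) / 100) := by
      rw [← Real.log_mul (by norm_num) (by positivity)]
      congr 1; field_simp
    have h4 : Real.log ((n : ℝ) / 100) ≤ (n : ℝ) / 100 - 1 :=
      Real.log_le_sub_one_of_pos (by positivity)
    have h5 : Real.log 100 ≤ 4.607 := by
      have h6 : Real.log 100 = 2 * Real.log 2 + 2 * Real.log 5 := by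
        rw [show (100 : ℝ) = 2 ^ 2 * 5 ^ 2 by norm_num, Real.log_mul (by norm_num) (by norm_num),
          Real.log_pow, Real.log_pow]
        push_cast; ring
      have h7 := log5.2
      have h8 := Real.log_two_lt_d9
      rw [h6]
      norm_num at h7 h8 ⊢
      linarith
    linarith
  have h3 : (Real.log n + 7.6) / n ≤ 0.1212 := by
    rw [div_le_iff₀ (by linarith)]
    norm_num at h2 ⊢
    linarith
  norm_num at h1 h3 ⊢
  linarith

lemma log101 : 4.6146 ≤ Real.log 101 ∧ Real.log 101 ≤ 4.6164 := by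
  have h1 := flog_le_log 101 (by norm_num)
  have h2 := log_le_flog 101 (by norm_num)
  have h3 : flog 101 = 2663 := by decide +kernel
  rw [h3] at h1 h2
  have hl3 := Real.log_two_gt_d9
  have hl4 := Real.log_two_lt_d9
  push_cast at h1 h2
  norm_num at h1 h2 hl3 hl4 ⊢
  constructor <;> linarith

lemma loglog101 : 1.5247 ≤ Real.log (Real.log 101) := by
  have h1 : Real.log (23 / 5) ≤ Real.log (Real.log 101) := by
    apply Real.log_le_log (by norm_num)
    have := log101.1
    norm_num at this ⊢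
    linarith
  rw [Real.log_div (by norm_num) (by norm_num)] at h1
  have h2 := flog_le_log 23 (by norm_num)
  have h3 : flog 23 = 1809 := by decide +kernel
  rw [h3] at h2
  have h4 := log5.2
  have hl3 := Real.log_two_gt_d9
  push_cast at h2
  norm_num at h2 h4 hl3 ⊢
  linarith

/-- The main sum without sieve weights. -/
theorem mainA (x : ℕ) (hx : 101 ≤ x) :
    ∑ p ∈ P7 x, (1 - Real.log p / Real.log x) / ((p : ℝ) - 1) ≤
      Real.log (Real.log x) - 1.435 + 0.923 / Real.log x := by
  have hsplit : P7 x = (Icc 7 100).filter Nat.Prime ∪ (Ioc 100 x).filter Nat.Prime := by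
    ext p
    simp only [mem_P7, mem_union, mem_filter, mem_Icc, mem_Ioc]
    constructor
    · rintro ⟨h1, h2, h3⟩
      rcases le_or_gt p 100 with h | h
      · exact Or.inl ⟨⟨h2, h⟩, h1⟩
      · exact Or.inr ⟨⟨h, h3⟩, h1⟩
    · rintro (⟨⟨h1, h2⟩, h3⟩ | ⟨⟨h1, h2⟩, h3⟩)
      · exact ⟨h3, h1, by omega⟩
      · exact ⟨h3, by omega, h2⟩
  have hdisj : Disjoint ((Icc 7 100).filter Nat.Prime) ((Ioc 100 x).filter Nat.Prime) := by
    rw [Finset.disjoint_left]
    intro m hm hm'
    simp only [mem_filter, mem_Icc, mem_Ioc] at hm hm'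
    omega
  rw [hsplit, Finset.sum_union hdisj]
  have hxR : (101 : ℝ) ≤ x := by exact_mod_cast hx
  have hY : 4.6146 ≤ Real.log x := log101.1.trans (Real.log_le_log (by norm_num) hxR)
  have hY0 : 0 < Real.log x := by linarith
  have h1 : ∑ p ∈ (Icc 7 100).filter Nat.Prime, (1 - Real.log p / Real.log x) / ((p : ℝ) - 1) =
      ∑ p ∈ (Icc 7 100).filter Nat.Prime, 1 / ((p : ℝ) - 1) -
      (1 / Real.log x) * ∑ p ∈ (Icc 7 100).filter Nat.Prime, Real.log p / ((p : ℝ) - 1) := by
    rw [Finset.mul_sum, ← Finset.sum_sub_distrib]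
    apply Finset.sum_congr rfl
    intro p _
    ring
  have h2 := tail_main 100 x (by norm_num) (by omega) 0.7212 (fun n h _ => c101 n h)
  have h3 := A1
  have h4 := A2
  have h5 := L100
  obtain ⟨a1, a2⟩ := log101
  have h6 := loglog101
  have h7 : 0 < 1 / Real.log x := by positivity
  have h8 : (1 : ℝ) / 4.6164 ≤ 1 / Real.log 101 :=
    one_div_le_one_div_of_le (by linarith) a2
  have h9 : 1 / Real.log x ≤ 1 / Real.log 101 :=
    one_div_le_one_div_of_le (by linarith) (Real.log_le_log (by norm_num) hxR)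
  push_cast at h2
  rw [show (100 : ℝ) + 1 = 101 by norm_num] at h2
  rw [h1]
  set S1 := ∑ p ∈ (Icc 7 100).filter Nat.Prime, 1 / ((p : ℝ) - 1) with hS1
  set S2 := ∑ p ∈ (Icc 7 100).filter Nat.Prime, Real.log p / ((p : ℝ) - 1) with hS2
  set t := 1 / Real.log x with ht
  set r := 1 / Real.log 101 with hr
  have h10 : t * 2.469 ≤ t * S2 := mul_le_mul_of_nonneg_left h4 h7.le
  have h11 : (0.7212 - Ls 100) * (r - t) ≤ (0.7212 - 4.1128) * (r - t) :=
    mul_le_mul_of_nonneg_right (by linarith) (by linarith)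
  have h12 : (0.923 : ℝ) / Real.log x = 0.923 * t := by rw [ht]; ring
  rw [h12]
  norm_num at h2 h3 h8 h6 h10 h11 ⊢
  linarith

end Pool.Agent.Lib.MP_bf4c7f
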