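import Mathlib
import Pool.Agent.Lib.MP_bf4c7f_nt.Tail

/-!
# The criterion: a weighted sum which produces an integer with at most four prime factors
-/

set_option autoImplicit false
open Finset

namespace Pool.Agent.Lib.MP_bf4c7f

lemma sum_inv_pow_le (p K : ℕ) (hp : 2 ≤ p) :
    ∑ k ∈ Icc 1 K, 1 / (p : ℝ) ^ k ≤ 1 / ((p : ℝ) - 1) := by
  have hpR : (2 : ℝ) ≤ p := by exact_mod_cast hp
  have h : ∑ k ∈ Icc 1 K, 1 / (p : ℝ) ^ k = 1 / ((p : ℝ) - 1) - 1 / (((p : ℝ) - 1) * p ^ K) := by
    induction K with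
    | zero => simp
    | succ K ih =>
      rw [Finset.sum_Icc_succ_top (by omega), ih]
      have h1 : (p : ℝ) - 1 ≠ 0 := by linarith
      have h2 : (p : ℝ) ≠ 0 := by linarith
      field_simp
      ring
  rw [h]
  have : 0 ≤ 1 / (((p : ℝ) - 1) * p ^ K) := by
    have : 0 < (p : ℝ) - 1 := by linarith
    positivity
  linarith

/-- the weight of one integer with at least five prime factors -/
lemma five_le (n N y : ℕ) (hn1 : 1 ≤ n) (hnN : n < N) (hy : 7 ≤ y) (h30 : Nat.Coprime n 30)
    (h5 : 5 ≤ n.primeFactorsList.length) :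
    5 - Real.log N / Real.log y ≤
      ∑ p ∈ P7 y, (n.factorization p : ℝ) * (1 - Real.log p / Real.log y) := by
  have hyR : (7 : ℝ) ≤ y := by exact_mod_cast hy
  have hY : 0 < Real.log y := Real.log_pos (by linarith)
  have h1 : (5 : ℝ) ≤ ∑ p ∈ n.primeFactors, (n.factorization p : ℝ) := by
    have h2 : ArithmeticFunction.cardFactors n = n.factorization.sum fun _ k => k :=
      ArithmeticFunction.cardFactors_eq_sum_factorization
    rw [ArithmeticFunction.cardFactors_apply] at h2
    unfold Finsupp.sum at h2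
    rw [Nat.support_factorization] at h2
    rw [h2] at h5
    exact_mod_cast h5
  have h2 : Real.log n = ∑ p ∈ n.primeFactors, (n.factorization p : ℝ) * Real.log p := by
    rw [Real.log_nat_eq_sum_factorization]
    unfold Finsupp.sum
    rw [Nat.support_factorization]
  have h3 : Real.log n ≤ Real.log N := by
    apply Real.log_le_log (by exact_mod_cast hn1)
    exact_mod_cast hnN.le
  have h4 : 5 - Real.log N / Real.log y ≤
      ∑ p ∈ n.primeFactors, (n.factorization p : ℝ) * (1 - Real.log p / Real.log y) := by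
    have e1 : ∑ p ∈ n.primeFactors, (n.factorization p : ℝ) * (1 - Real.log p / Real.log y) =
        ∑ p ∈ n.primeFactors, (n.factorization p : ℝ) -
          (∑ p ∈ n.primeFactors, (n.factorization p : ℝ) * Real.log p) / Real.log y := by
      rw [Finset.sum_div, ← Finset.sum_sub_distrib]
      apply Finset.sum_congr rfl
      intro p _
      ring
    rw [e1, ← h2]
    have := div_le_div_of_nonneg_right h3 hY.le
    linarith
  refine h4.trans ?_
  have h6 : ∑ p ∈ n.primeFactors, (n.factorization p : ℝ) * (1 - Real.log p / Real.log y) ≤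
      ∑ p ∈ n.primeFactors.filter (fun p => p ≤ y),
        (n.factorization p : ℝ) * (1 - Real.log p / Real.log y) := by
    rw [← Finset.sum_filter_add_sum_filter_not n.primeFactors (fun p => p ≤ y)]
    have : ∑ p ∈ n.primeFactors.filter (fun p => ¬ p ≤ y),
        (n.factorization p : ℝ) * (1 - Real.log p / Real.log y) ≤ 0 := by
      apply Finset.sum_nonpos
      intro p hp
      rw [mem_filter] at hp
      have h7 : (y : ℝ) ≤ p := by exact_mod_cast (not_le.1 hp.2).le
      have h8 : Real.log y ≤ Real.log p := Real.log_le_log (by linarith) h7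
      have h9 : 1 ≤ Real.log p / Real.log y := by rw [le_div_iff₀ hY]; linarith
      have h10 : (0 : ℝ) ≤ (n.factorization p : ℝ) := by positivity
      nlinarith
    linarith
  refine h6.trans (le_of_eq ?_)
  apply Finset.sum_subset
  · intro p hp
    rw [mem_filter, Nat.mem_primeFactors] at hp
    rw [mem_P7]
    refine ⟨hp.1.1, ?_, hp.2⟩
    by_contra hlt
    have hpp := hp.1.1
    have hdvd := hp.1.2.1
    have hc : Nat.Coprime p 30 := Nat.Coprime.coprime_dvd_left hdvd h30
    have hlt' : p < 7 := not_le.1 hlt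
    interval_cases p <;> revert hpp hc <;> decide
  · intro p hp hp'
    rw [mem_P7] at hp
    have : n.factorization p = 0 := by
      by_contra h0
      apply hp'
      rw [mem_filter, ← Nat.support_factorization, Finsupp.mem_support_iff]
      exact ⟨h0, hp.2.2⟩
    rw [this]
    simp

/-- The sum of the exponents of `p`. -/
lemma sum_fact (I : Finset ℕ) (N : ℕ) (hI : ∀ n ∈ I, 1 ≤ n ∧ n < N) (w : ℕ → ℝ) (p : ℕ)
    (hp : p.Prime) :
    ∑ n ∈ I, w n * (n.factorization p : ℝ) =
      ∑ k ∈ Icc 1 (Nat.log p N), ∑ n ∈ I.filter (fun n => p ^ k ∣ n), w n := by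
  have h1 : ∀ n ∈ I, w n * (n.factorization p : ℝ) =
      ∑ k ∈ Icc 1 (Nat.log p N), if p ^ k ∣ n then w n else 0 := by
    intro n hn
    obtain ⟨hn1, hn2⟩ := hI n hn
    have hv : n.factorization p ≤ Nat.log p N := by
      apply Nat.le_log_of_pow_le hp.one_lt
      exact (Nat.le_of_dvd hn1 (Nat.ordProj_dvd n p)).trans hn2.le
    rw [← Finset.sum_filter, Finset.sum_const, nsmul_eq_mul, mul_comm]
    congr 2
    have h2 : (Icc 1 (Nat.log p N)).filter (fun k => p ^ k ∣ n) = Icc 1 (n.factorization p) := by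
      ext k
      rw [mem_filter, mem_Icc, mem_Icc, hp.pow_dvd_iff_le_factorization (by omega)]
      constructor
      · rintro ⟨⟨h3, _⟩, h4⟩; exact ⟨h3, h4⟩
      · rintro ⟨h3, h4⟩; exact ⟨⟨h3, h4.trans hv⟩, h4⟩
    rw [h2, Nat.card_Icc]
    omega
  rw [Finset.sum_congr rfl h1, Finset.sum_comm]
  apply Finset.sum_congr rfl
  intro k _
  rw [Finset.sum_filter]

/-- The criterion. -/
theorem crit (I : Finset ℕ) (N : ℕ) (hI : ∀ n ∈ I, 1 ≤ n ∧ n < N) (w : ℕ → ℝ)
    (hw : ∀ n ∈ I, 0 ≤ w n) (hw30 : ∀ n ∈ I, ¬ Nat.Coprime n 30 → w n = 0) (y : ℕ) (hy : 7 ≤ y)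
    (X Er : ℝ) (hX : 0 ≤ X) (hEr : 0 ≤ Er) (m : ℕ → ℝ) (hm : ∀ p, 0 ≤ m p)
    (hq : ∀ p, p.Prime → 7 ≤ p → p ≤ y → ∀ k, 1 ≤ k →
      ∑ n ∈ I.filter (fun n => p ^ k ∣ n), w n ≤ X * m p / (p : ℝ) ^ k + Er)
    (h0 : X - Er ≤ ∑ n ∈ I, w n) (hlam : 0 ≤ 5 - Real.log N / Real.log y)
    (hmain : X * ∑ p ∈ P7 y, (1 - Real.log p / Real.log y) * m p / ((p : ℝ) - 1) +
      Er * ∑ p ∈ P7 y, (1 - Real.log p / Real.log y) * (Real.log N / Real.log p) <
        (5 - Real.log N / Real.log y) * (X - Er)) :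
    ∃ n ∈ I, n.primeFactorsList.length ≤ 4 := by
  by_contra hcon
  push Not at hcon
  have hyR : (7 : ℝ) ≤ y := by exact_mod_cast hy
  have hY : 0 < Real.log y := Real.log_pos (by linarith)
  -- lower bound
  have h1 : (5 - Real.log N / Real.log y) * ∑ n ∈ I, w n ≤
      ∑ n ∈ I, w n * ∑ p ∈ P7 y, (n.factorization p : ℝ) * (1 - Real.log p / Real.log y) := by
    rw [Finset.mul_sum]
    apply Finset.sum_le_sum
    intro n hn
    by_cases h30 : Nat.Coprime n 30
    · rw [mul_comm]
      apply mul_le_mul_of_nonneg_left _ (hw n hn)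
      exact five_le n N y (hI n hn).1 (hI n hn).2 hy h30 (hcon n hn)
    · rw [hw30 n hn h30]
      simp
  have h2 : ∑ n ∈ I, w n * ∑ p ∈ P7 y, (n.factorization p : ℝ) * (1 - Real.log p / Real.log y) =
      ∑ p ∈ P7 y, (1 - Real.log p / Real.log y) * ∑ n ∈ I, w n * (n.factorization p : ℝ) := by
    simp only [Finset.mul_sum]
    rw [Finset.sum_comm]
    apply Finset.sum_congr rfl; intro p _
    apply Finset.sum_congr rfl; intro n _
    ring
  have hwp : ∀ p ∈ P7 y, 0 ≤ 1 - Real.log p / Real.log y := by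
    intro p hp
    rw [mem_P7] at hp
    have h3 : Real.log p ≤ Real.log y :=
      Real.log_le_log (by exact_mod_cast hp.1.pos) (by exact_mod_cast hp.2.2)
    have h4 : Real.log p / Real.log y ≤ 1 := by rw [div_le_one hY]; exact h3
    linarith
  have h3 : ∑ p ∈ P7 y, (1 - Real.log p / Real.log y) * ∑ n ∈ I, w n * (n.factorization p : ℝ) ≤
      ∑ p ∈ P7 y, (X * ((1 - Real.log p / Real.log y) * m p / ((p : ℝ) - 1)) +
        Er * ((1 - Real.log p / Real.log y) * (Real.log N / Real.log p))) := by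
    apply Finset.sum_le_sum
    intro p hp
    have hwp' := hwp p hp
    rw [mem_P7] at hp
    rw [sum_fact I N hI w p hp.1]
    have hpR : (7 : ℝ) ≤ p := by exact_mod_cast hp.2.1
    have hlp : 0 < Real.log p := Real.log_pos (by linarith)
    have h4 : ∑ k ∈ Icc 1 (Nat.log p N), ∑ n ∈ I.filter (fun n => p ^ k ∣ n), w n ≤
        ∑ k ∈ Icc 1 (Nat.log p N), (X * m p * (1 / (p : ℝ) ^ k) + Er) := by
      apply Finset.sum_le_sum
      intro k hk
      rw [mem_Icc] at hk
      refine (hq p hp.1 hp.2.1 hp.2.2 k hk.1).trans (le_of_eq ?_)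
      ring
    rw [Finset.sum_add_distrib, ← Finset.mul_sum, Finset.sum_const, nsmul_eq_mul,
      Nat.card_Icc, Nat.add_sub_cancel] at h4
    have h5 := sum_inv_pow_le p (Nat.log p N) (by omega)
    have h6 : ((Nat.log p N : ℕ) : ℝ) ≤ Real.log N / Real.log p := by
      rw [le_div_iff₀ hlp]
      rcases Nat.eq_zero_or_pos N with h0 | h0
      · rw [h0]; simp
      · have h7 : p ^ Nat.log p N ≤ N := Nat.pow_log_le_self p (by omega)
        have h8 : (p : ℝ) ^ Nat.log p N ≤ N := by exact_mod_cast h7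
        have h9 := Real.log_le_log (by positivity) h8
        rwa [Real.log_pow] at h9
    have h7 : X * m p * ∑ k ∈ Icc 1 (Nat.log p N), 1 / (p : ℝ) ^ k ≤
        X * m p * (1 / ((p : ℝ) - 1)) :=
      mul_le_mul_of_nonneg_left h5 (mul_nonneg hX (hm p))
    have h8 : ((Nat.log p N : ℕ) : ℝ) * Er ≤ Real.log N / Real.log p * Er :=
      mul_le_mul_of_nonneg_right h6 hEr
    calc (1 - Real.log p / Real.log y) *
          ∑ k ∈ Icc 1 (Nat.log p N), ∑ n ∈ I.filter (fun n => p ^ k ∣ n), w n
        ≤ (1 - Real.log p / Real.log y) *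
          (X * m p * (1 / ((p : ℝ) - 1)) + Real.log N / Real.log p * Er) := by
          apply mul_le_mul_of_nonneg_left _ hwp'
          linarith
      _ = _ := by ring
  rw [Finset.sum_add_distrib, ← Finset.mul_sum, ← Finset.mul_sum] at h3
  have h4 := mul_le_mul_of_nonneg_left h0 hlam
  linarith

end Pool.Agent.Lib.MP_bf4c7f
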