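import Mathlib
import Pool.Agent.Lib.MP_bf4c7f_nt.Crit

/-!
# The range `401 ≤ x < 2 ^ 96`
-/

set_option autoImplicit false
open Finset

namespace Pool.Agent.Lib.MP_bf4c7f

lemma logN_le (x : ℕ) (hx : 1 ≤ x) :
    Real.log ((x ^ 2 + x : ℕ) : ℝ) ≤ 2 * Real.log x + 1 / x := by
  have hxR : (1 : ℝ) ≤ x := by exact_mod_cast hx
  have h1 : ((x ^ 2 + x : ℕ) : ℝ) = x * ((x : ℝ) + 1) := by push_cast; ring
  rw [h1, Real.log_mul (by linarith) (by linarith)]
  have := log_succ_le x hx
  linarith

lemma numA (Y : ℝ) (h1 : 5.98 ≤ Y) (h2 : Y ≤ 66.55) : Real.log Y + 8.41 / Y ≤ 4.381 := by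
  have hY : 0 < Y := by linarith
  have hl3 := Real.log_two_gt_d9
  have hl4 := Real.log_two_lt_d9
  obtain ⟨a1, a2⟩ := log3
  obtain ⟨b1, b2⟩ := log5
  obtain ⟨c1, c2⟩ := log60
  have key : ∀ u v : ℝ, 0 < u → u ≤ Y → Y ≤ v → Real.log Y + 8.41 / Y ≤ Real.log v + 8.41 / u := by
    intro u v hu huY hYv
    have e1 := Real.log_le_log hY hYv
    have e2 : 8.41 / Y ≤ 8.41 / u := div_le_div_of_nonneg_left (by norm_num) hu huY
    linarith
  rcases le_or_gt Y 12 with h | h
  · refine (key 5.98 12 (by norm_num) h1 h).trans ?_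
    have : Real.log 12 = 2 * Real.log 2 + Real.log 3 := by
      rw [show (12 : ℝ) = 2 ^ 2 * 3 by norm_num, Real.log_mul (by norm_num) (by norm_num),
        Real.log_pow]
      push_cast; ring
    rw [this]
    norm_num at hl4 a2 ⊢
    linarith
  rcases le_or_gt Y 30 with h' | h'
  · refine (key 12 30 (by norm_num) h.le h').trans ?_
    have : Real.log 30 = Real.log 2 + Real.log 3 + Real.log 5 := by
      rw [show (30 : ℝ) = 2 * 3 * 5 by norm_num, Real.log_mul (by norm_num) (by norm_num),
        Real.log_mul (by norm_num) (by norm_num)]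
    rw [this]
    norm_num at hl4 a2 b2 ⊢
    linarith
  rcases le_or_gt Y 45 with h'' | h''
  · refine (key 30 45 (by norm_num) h'.le h'').trans ?_
    have : Real.log 45 = 2 * Real.log 3 + Real.log 5 := by
      rw [show (45 : ℝ) = 3 ^ 2 * 5 by norm_num, Real.log_mul (by norm_num) (by norm_num),
        Real.log_pow]
      push_cast; ring
    rw [this]
    norm_num at hl4 a2 b2 ⊢
    linarith
  rcases le_or_gt Y 60 with h3 | h3
  · refine (key 45 60 (by norm_num) h''.le h3).trans ?_
    norm_num at c2 ⊢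
    linarith
  · refine (key 60 66.55 (by norm_num) h3.le h2).trans ?_
    have e1 : Real.log 66.55 = Real.log 60 + Real.log (66.55 / 60) := by
      rw [← Real.log_mul (by norm_num) (by norm_num)]
      norm_num
    have e2 : Real.log (66.55 / 60) ≤ 66.55 / 60 - 1 := Real.log_le_sub_one_of_pos (by norm_num)
    rw [e1]
    norm_num at c2 e2 ⊢
    linarith

/-- The weight: the indicator function of the integers coprime to 30. -/
noncomputable def ind30 (n : ℕ) : ℝ := if Nat.Coprime n 30 then 1 else 0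

lemma sum_ind30 (I : Finset ℕ) (P : ℕ → Prop) [DecidablePred P] :
    ∑ n ∈ I.filter P, ind30 n = ((I.filter (fun n => Nat.Coprime n 30 ∧ P n)).card : ℝ) := by
  unfold ind30
  rw [← Finset.sum_filter, Finset.filter_filter, Finset.sum_const, nsmul_eq_mul, mul_one]
  congr 2
  ext n
  simp only [mem_filter]
  tauto

theorem regA (x a : ℕ) (hx : 401 ≤ x) (hx2 : x < 2 ^ 96) (ha : a + x ≤ x ^ 2 + x) :
    ∃ n, a < n ∧ n < a + x ∧ n.primeFactorsList.length ≤ 4 := by
  have hxR : (401 : ℝ) ≤ x := by exact_mod_cast hx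
  set Y := Real.log x with hY
  have hl3 := Real.log_two_gt_d9
  have hl4 := Real.log_two_lt_d9
  have hY1 : 5.98 ≤ Y := by
    have h1 : Real.log 400 = 4 * Real.log 2 + 2 * Real.log 5 := by
      rw [show (400 : ℝ) = 2 ^ 4 * 5 ^ 2 by norm_num, Real.log_mul (by norm_num) (by norm_num),
        Real.log_pow, Real.log_pow]
      push_cast; ring
    have h2 : Real.log 400 ≤ Y := Real.log_le_log (by norm_num) (by linarith)
    have h3 := log5.1
    rw [h1] at h2
    norm_num at h2 h3 hl3 ⊢
    linarith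
  have hY2 : Y ≤ 66.55 := by
    have h1 : (x : ℝ) ≤ 2 ^ 96 := by exact_mod_cast hx2.le
    have h2 := Real.log_le_log (by linarith) h1
    rw [Real.log_pow] at h2
    push_cast at h2
    norm_num at h2 hl4 ⊢
    linarith
  have hY0 : 0 < Y := by linarith
  have hnum := numA Y hY1 hY2
  have hlogN := logN_le x (by omega)
  have hNY : Real.log ((x ^ 2 + x : ℕ) : ℝ) / Y ≤ 2 + 1 / (x * Y) := by
    rw [div_le_iff₀ hY0]
    refine hlogN.trans (le_of_eq ?_)
    rw [← hY]
    field_simp
  have hxY : 1 / ((x : ℝ) * Y) ≤ 0.0005 := by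
    rw [div_le_iff₀ (by positivity)]
    nlinarith
  have hxY0 : 0 < 1 / ((x : ℝ) * Y) := by positivity
  obtain ⟨n, hn, hn4⟩ := crit (Ioc a (a + (x - 1))) (x ^ 2 + x)
    (by
      intro n hn
      rw [mem_Ioc] at hn
      constructor
      · omega
      · omega)
    ind30 (by intro n _; unfold ind30; split_ifs <;> norm_num)
    (by intro n _ h; unfold ind30; rw [if_neg h]) x (by omega)
    (4 / 15 * ((x : ℝ) - 1)) (28 / 15) (by nlinarith) (by norm_num) (fun _ => 1)
    (by intro; norm_num)
    (by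
      intro p hp hp7 _ k _
      rw [sum_ind30]
      have h1 := count_mult a (a + (x - 1)) (p ^ k) (by omega) (pow_pos hp.pos k)
        (Nat.Coprime.pow_left k (prime_coprime_30 hp hp7))
      have h2 := (abs_le.1 h1).2
      have h3 : ((a + (x - 1) : ℕ) : ℝ) - a = (x : ℝ) - 1 := by
        rw [Nat.cast_add, Nat.cast_sub (by omega)]
        push_cast; ring
      rw [h3] at h2
      push_cast at h2 ⊢
      rw [mul_one]
      linarith)
    (by
      have h1 := count_mult a (a + (x - 1)) 1 (by omega) (by norm_num) (by norm_num)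
      have h2 := (abs_le.1 h1).1
      have h3 : ((a + (x - 1) : ℕ) : ℝ) - a = (x : ℝ) - 1 := by
        rw [Nat.cast_add, Nat.cast_sub (by omega)]
        push_cast; ring
      rw [h3] at h2
      have h4 := sum_ind30 (Ioc a (a + (x - 1))) (fun n => 1 ∣ n)
      have h5 : (Ioc a (a + (x - 1))).filter (fun n => 1 ∣ n) = Ioc a (a + (x - 1)) := by
        apply Finset.filter_true_of_mem
        intro n _
        exact one_dvd n
      rw [h5] at h4
      rw [h4]
      push_cast at h2 ⊢
      linarith)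
    (by rw [← hY]; linarith)
    (by
      have hmain := mainA x (by omega)
      have herr := errSum_prime x (by omega)
      rw [← hY] at hmain herr ⊢
      have e1 : ∑ p ∈ P7 x, (1 - Real.log p / Y) * 1 / ((p : ℝ) - 1) =
          ∑ p ∈ P7 x, (1 - Real.log p / Y) / ((p : ℝ) - 1) := by
        apply Finset.sum_congr rfl; intro p _; ring
      have e2 : ∑ p ∈ P7 x, (1 - Real.log p / Y) *
          (Real.log ((x ^ 2 + x : ℕ) : ℝ) / Real.log p) =
          (Real.log ((x ^ 2 + x : ℕ) : ℝ) / Y) * ∑ p ∈ P7 x, (Y / Real.log p - 1) := by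
        rw [Finset.mul_sum]
        apply Finset.sum_congr rfl
        intro p hp
        rw [mem_P7] at hp
        have hlp : Real.log p ≠ 0 := (Real.log_pos (by exact_mod_cast hp.1.one_lt)).ne'
        field_simp
      rw [e1, e2]
      set S := ∑ p ∈ P7 x, (1 - Real.log p / Y) / ((p : ℝ) - 1) with hS
      set S2 := ∑ p ∈ P7 x, (Y / Real.log p - 1) with hS2
      set ν := Real.log ((x ^ 2 + x : ℕ) : ℝ) / Y with hν
      have hν0 : 0 ≤ ν := by
        apply div_nonneg _ hY0.le
        apply Real.log_nonneg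
        have : 1 ≤ x ^ 2 + x := by nlinarith
        exact_mod_cast this
      set t := 1 / Y with ht
      have ht0 : 0 < t := by positivity
      have f1 : ν * S2 ≤ (2 + 0.0005) * (8 / 15 * x * t) := by
        have g1 : ν * S2 ≤ ν * (8 / 15 * x * t) := by
          apply mul_le_mul_of_nonneg_left _ hν0
          refine herr.trans (le_of_eq ?_)
          rw [ht]; ring
        have g2 : ν * (8 / 15 * x * t) ≤ (2 + 0.0005) * (8 / 15 * x * t) := by
          apply mul_le_mul_of_nonneg_right (by linarith) (by positivity)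
        linarith
      have f2 : S ≤ Real.log Y - 1.435 + 0.923 * t := by
        refine hmain.trans (le_of_eq ?_)
        rw [ht]; ring
      have f3 : Real.log Y + 8.41 * t ≤ 4.381 := by
        refine le_trans (le_of_eq ?_) hnum
        rw [ht]; ring
      have f4 : S ≤ 2.946 - 7.487 * t := by linarith
      have f5 : 4 / 15 * ((x : ℝ) - 1) * S ≤ 4 / 15 * ((x : ℝ) - 1) * (2.946 - 7.487 * t) :=
        mul_le_mul_of_nonneg_left f4 (by nlinarith)
      have f6 : (5 - ν) * (4 / 15 * ((x : ℝ) - 1) - 28 / 15) ≥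
          (3 - 0.0005) * (4 / 15 * ((x : ℝ) - 1) - 28 / 15) := by
        apply mul_le_mul_of_nonneg_right (by linarith) (by linarith)
      have f7 : t ≤ 0.1673 := by
        rw [ht, div_le_iff₀ hY0]
        norm_num at hY1 ⊢
        linarith
      nlinarith [mul_nonneg (by linarith : (0 : ℝ) ≤ (x : ℝ) - 401) ht0.le])
  rw [mem_Ioc] at hn
  exact ⟨n, hn.1, by omega, hn4⟩

end Pool.Agent.Lib.MP_bf4c7f
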