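import Mathlib
import Pool.Agent.Lib.MP_bf4c7f_nt.Consts
import Pool.Agent.Lib.MP_bf4c7f_nt.RegA

/-!
# Sums of the Selberg weights over an interval
-/

set_option autoImplicit false

namespace Pool.Agent.Lib.MP_bf4c7f

open Finset

/-- The sieve weight. -/
noncomputable def W (R n : ℕ) : ℝ := ind30 n * (∑ d ∈ (Icc 1 R).filter (fun d => d ∣ n), lam R d) ^ 2

lemma W_nonneg (R n : ℕ) : 0 ≤ W R n := by
  unfold W ind30
  split_ifs <;> positivity

lemma W_eq (R n : ℕ) : W R n = ∑ d ∈ Icc 1 R, ∑ d' ∈ Icc 1 R,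
    lam R d * lam R d' * (if Nat.Coprime n 30 ∧ d ∣ n ∧ d' ∣ n then 1 else 0) := by
  unfold W ind30
  rw [Finset.sum_filter, sq, Finset.sum_mul_sum, Finset.mul_sum]
  apply Finset.sum_congr rfl; intro d _
  rw [Finset.mul_sum]
  apply Finset.sum_congr rfl; intro d' _
  by_cases h1 : Nat.Coprime n 30 <;> by_cases h2 : d ∣ n <;> by_cases h3 : d' ∣ n <;>
    simp [h1, h2, h3]

lemma sum_W_eq (a b R q : ℕ) : ∑ n ∈ (Ioc a b).filter (fun n => q ∣ n), W R n =
    ∑ d ∈ Icc 1 R, ∑ d' ∈ Icc 1 R, lam R d * lam R d' *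
      (((Ioc a b).filter (fun n => Nat.Coprime n 30 ∧ (d.lcm d').lcm q ∣ n)).card : ℝ) := by
  simp_rw [W_eq]
  rw [Finset.sum_comm]
  apply Finset.sum_congr rfl; intro d _
  rw [Finset.sum_comm]
  apply Finset.sum_congr rfl; intro d' _
  rw [← Finset.mul_sum]
  congr 1
  rw [← Finset.sum_filter, Finset.filter_filter, Finset.sum_const, nsmul_eq_mul, mul_one]
  congr 2
  ext n
  simp only [mem_filter, Nat.lcm_dvd_iff]
  tauto

/-- The main quadratic form. -/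
noncomputable def QF (R q : ℕ) : ℝ :=
  ∑ d ∈ Icc 1 R, ∑ d' ∈ Icc 1 R, lam R d * lam R d' / (((d.lcm d').lcm q : ℕ) : ℝ)

lemma term_bound (a b R q d d' : ℕ) (hab : a ≤ b) (hq0 : 0 < q) (hq : Nat.Coprime q 30)
    (hd : 1 ≤ d) (hd' : 1 ≤ d') :
    |lam R d * lam R d' *
      (((Ioc a b).filter (fun n => Nat.Coprime n 30 ∧ (d.lcm d').lcm q ∣ n)).card : ℝ) -
      4 / 15 * ((b : ℝ) - a) * (lam R d * lam R d' / (((d.lcm d').lcm q : ℕ) : ℝ))| ≤
      28 / 15 * (|lam R d| * |lam R d'|) := by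
  by_cases h1 : SC d
  swap
  · rw [lam_eq_zero_of_not_SC h1]; simp
  by_cases h2 : SC d'
  swap
  · rw [lam_eq_zero_of_not_SC h2]; simp
  have hl : Nat.Coprime (d.lcm d') 30 :=
    Nat.Coprime.coprime_dvd_left (Nat.lcm_dvd_mul d d') (Nat.Coprime.mul_left h1.2 h2.2)
  have hl2 : Nat.Coprime ((d.lcm d').lcm q) 30 :=
    Nat.Coprime.coprime_dvd_left (Nat.lcm_dvd_mul _ q) (Nat.Coprime.mul_left hl hq)
  have hpos : 0 < (d.lcm d').lcm q := Nat.lcm_pos (Nat.lcm_pos hd hd') hq0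
  have h3 := count_mult a b ((d.lcm d').lcm q) hab hpos hl2
  have e1 : lam R d * lam R d' *
      (((Ioc a b).filter (fun n => Nat.Coprime n 30 ∧ (d.lcm d').lcm q ∣ n)).card : ℝ) -
      4 / 15 * ((b : ℝ) - a) * (lam R d * lam R d' / (((d.lcm d').lcm q : ℕ) : ℝ)) =
      (lam R d * lam R d') * ((((Ioc a b).filter (fun n => Nat.Coprime n 30 ∧
        (d.lcm d').lcm q ∣ n)).card : ℝ) -
        4 / 15 * ((b : ℝ) - a) / (((d.lcm d').lcm q : ℕ) : ℝ)) := by
    ring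
  rw [e1, abs_mul, abs_mul]
  calc |lam R d| * |lam R d'| * _ ≤ |lam R d| * |lam R d'| * (28 / 15) :=
        mul_le_mul_of_nonneg_left h3 (by positivity)
    _ = _ := by ring

theorem sum_W_bound (a b R q : ℕ) (hab : a ≤ b) (hq0 : 0 < q) (hq : Nat.Coprime q 30) :
    |∑ n ∈ (Ioc a b).filter (fun n => q ∣ n), W R n - 4 / 15 * ((b : ℝ) - a) * QF R q| ≤
      28 / 15 * (∑ d ∈ Icc 1 R, |lam R d|) ^ 2 := by
  rw [sum_W_eq]
  unfold QF
  rw [Finset.mul_sum, ← Finset.sum_sub_distrib]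
  have h1 : ∀ d ∈ Icc 1 R, (∑ d' ∈ Icc 1 R, lam R d * lam R d' *
      (((Ioc a b).filter (fun n => Nat.Coprime n 30 ∧ (d.lcm d').lcm q ∣ n)).card : ℝ)) -
      4 / 15 * ((b : ℝ) - a) * ∑ d' ∈ Icc 1 R,
        lam R d * lam R d' / (((d.lcm d').lcm q : ℕ) : ℝ) =
      ∑ d' ∈ Icc 1 R, (lam R d * lam R d' *
      (((Ioc a b).filter (fun n => Nat.Coprime n 30 ∧ (d.lcm d').lcm q ∣ n)).card : ℝ) -
      4 / 15 * ((b : ℝ) - a) * (lam R d * lam R d' / (((d.lcm d').lcm q : ℕ) : ℝ))) := by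
    intro d _
    rw [Finset.mul_sum, ← Finset.sum_sub_distrib]
  rw [Finset.sum_congr rfl h1]
  have e2 : 28 / 15 * (∑ d ∈ Icc 1 R, |lam R d|) ^ 2 =
      ∑ d ∈ Icc 1 R, ∑ d' ∈ Icc 1 R, 28 / 15 * (|lam R d| * |lam R d'|) := by
    rw [sq, Finset.sum_mul_sum, Finset.mul_sum]
    apply Finset.sum_congr rfl; intro d _
    rw [Finset.mul_sum]
  rw [e2]
  refine (Finset.abs_sum_le_sum_abs _ _).trans (Finset.sum_le_sum fun d hd => ?_)
  refine (Finset.abs_sum_le_sum_abs _ _).trans (Finset.sum_le_sum fun d' hd' => ?_)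
  exact term_bound a b R q d d' hab hq0 hq (mem_Icc.1 hd).1 (mem_Icc.1 hd').1

lemma QF_one (R : ℕ) : QF R 1 = GG R := by
  rw [← main_S]
  unfold QF
  simp only [Nat.lcm_one_right]

lemma lcm_strip_pow {p d d' k : ℕ} (hp : p.Prime) (hk : 1 ≤ k) (hd : Squarefree d)
    (hd' : Squarefree d') :
    (d.lcm d').lcm (p ^ k) = p ^ k * (strip p d).lcm (strip p d') := by
  have hpk : p ∣ p ^ k := dvd_pow_self p (by omega)
  apply Nat.dvd_antisymm
  · apply Nat.lcm_dvd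
    · apply Nat.lcm_dvd
      · exact (dvd_mul_strip hp).trans (Nat.mul_dvd_mul hpk (Nat.dvd_lcm_left _ _))
      · exact (dvd_mul_strip hp).trans (Nat.mul_dvd_mul hpk (Nat.dvd_lcm_right _ _))
    · exact dvd_mul_right _ _
  · apply Nat.Coprime.mul_dvd_of_dvd_of_dvd
    · apply Nat.Coprime.pow_left
      rw [Nat.Prime.coprime_iff_not_dvd hp]
      intro h
      have h2 : p ∣ strip p d * strip p d' :=
        h.trans (Nat.lcm_dvd_mul _ _)
      rcases (Nat.Prime.dvd_mul hp).1 h2 with h3 | h3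
      · exact not_dvd_strip hp hd h3
      · exact not_dvd_strip hp hd' h3
    · exact Nat.dvd_lcm_right _ _
    · apply Nat.lcm_dvd
      · exact strip_dvd.trans ((Nat.dvd_lcm_left d d').trans (Nat.dvd_lcm_left _ _))
      · exact strip_dvd.trans ((Nat.dvd_lcm_right d d').trans (Nat.dvd_lcm_left _ _))

lemma QF_pow (R p k : ℕ) (hp : p.Prime) (hp30 : Nat.Coprime p 30) (hk : 1 ≤ k) :
    QF R (p ^ k) = NN R p / (p : ℝ) ^ k := by
  have h1 := main_Sp R p hp hp30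
  have hpR : (0 : ℝ) < p := by exact_mod_cast hp.pos
  have h2 : ∀ d ∈ Icc 1 R, ∀ d' ∈ Icc 1 R,
      lam R d * lam R d' / (((d.lcm d').lcm (p ^ k) : ℕ) : ℝ) =
      (p : ℝ) / (p : ℝ) ^ k * (lam R d * lam R d' / (((d.lcm d').lcm p : ℕ) : ℝ)) := by
    intro d hd d' hd'
    by_cases hs : Squarefree d
    · by_cases hs' : Squarefree d'
      · rw [lcm_strip hp hs hs', lcm_strip_pow hp hk hs hs']
        have a1 := strip_pos hp (mem_Icc.1 hd).1
        have a2 := strip_pos hp (mem_Icc.1 hd').1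
        have a3 : (0 : ℝ) < (((strip p d).lcm (strip p d') : ℕ) : ℝ) := by
          exact_mod_cast Nat.lcm_pos a1 a2
        push_cast
        field_simp
      · rw [lam_eq_zero_of_not_squarefree hs']; simp
    · rw [lam_eq_zero_of_not_squarefree hs]; simp
  unfold QF
  rw [Finset.sum_congr rfl (fun d hd => Finset.sum_congr rfl (h2 d hd))]
  simp only [← Finset.mul_sum]
  rw [h1]
  unfold NN
  field_simp

end Pool.Agent.Lib.MP_bf4c7f
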