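import Mathlib
import Pool.Agent.Lib.MP_bf4c7f_nt.Weights

/-!
# The range `x ≥ 2 ^ 96`
-/

set_option autoImplicit false

namespace Pool.Agent.Lib.MP_bf4c7f

open Finset

lemma exists_root (x : ℕ) : ∃ R, R ^ 6 ≤ x ∧ x < (R + 1) ^ 6 := by
  have h : ∃ r, x < (r + 1) ^ 6 := ⟨x, by
    have : x + 1 ≤ (x + 1) ^ 6 := Nat.le_self_pow (by norm_num) _
    omega⟩
  classical
  refine ⟨Nat.find h, ?_, Nat.find_spec h⟩
  rcases Nat.eq_zero_or_pos (Nat.find h) with h0 | h0
  · rw [h0]; simp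
  · have h1 := Nat.find_min h (m := Nat.find h - 1) (by omega)
    rw [Nat.sub_add_cancel h0, not_lt] at h1
    exact h1

lemma Ls_split (T : ℕ) (hT : 7 ≤ T) :
    Ls T = (Real.log 2 + Real.log 3 / 2 + Real.log 5 / 4) +
      ∑ p ∈ P7 T, Real.log p / ((p : ℝ) - 1) := by
  have h1 : (Icc 1 T).filter Nat.Prime = {2, 3, 5} ∪ P7 T := by
    ext p
    simp only [mem_union, mem_filter, mem_Icc, mem_P7, mem_insert, mem_singleton]
    constructor
    · rintro ⟨⟨h1, h2⟩, h3⟩
      rcases le_or_gt 7 p with h | h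
      · exact Or.inr ⟨h3, h, h2⟩
      · left
        interval_cases p <;> revert h3 <;> decide
    · rintro (h | ⟨h1, h2, h3⟩)
      · rcases h with rfl | rfl | rfl
        · exact ⟨⟨by norm_num, by omega⟩, by norm_num⟩
        · exact ⟨⟨by norm_num, by omega⟩, by norm_num⟩
        · exact ⟨⟨by norm_num, by omega⟩, by norm_num⟩
      · exact ⟨⟨by omega, h3⟩, h1⟩
  have h2 : Disjoint ({2, 3, 5} : Finset ℕ) (P7 T) := by
    rw [Finset.disjoint_left]
    intro p hp hp'
    rw [mem_P7] at hp'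
    simp only [mem_insert, mem_singleton] at hp
    omega
  unfold Ls
  rw [h1, Finset.sum_union h2]
  congr 1
  rw [Finset.sum_insert (by decide), Finset.sum_insert (by decide), Finset.sum_singleton]
  push_cast
  norm_num
  ring

lemma sum_inv_sqrt (a R : ℕ) (haR : a ≤ R) :
    ∑ j ∈ Ioc a R, 1 / √(j : ℝ) ≤ 2 * √(R : ℝ) - 2 * √(a : ℝ) := by
  induction R, haR using Nat.le_induction with
  | base => simp
  | succ n hn ih =>
    rw [Finset.sum_Ioc_succ_top (by omega)]
    have h1 : 1 / √((n + 1 : ℕ) : ℝ) ≤ 2 * √((n + 1 : ℕ) : ℝ) - 2 * √(n : ℝ) := by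
      push_cast
      set s := √(n : ℝ) with hs
      set t := √((n : ℝ) + 1) with ht
      have hn0 : (0 : ℝ) ≤ n := by positivity
      have hs2 : s ^ 2 = n := Real.sq_sqrt hn0
      have ht2 : t ^ 2 = (n : ℝ) + 1 := Real.sq_sqrt (by linarith)
      have hs0 : 0 ≤ s := Real.sqrt_nonneg _
      have ht0 : 0 < t := Real.sqrt_pos.2 (by linarith)
      rw [div_le_iff₀ ht0]
      nlinarith [sq_nonneg (t - s)]
    linarith

lemma sum_sqrt (T : ℕ) (hT : 7 ≤ T) :
    ∑ p ∈ P7 T, √(p : ℝ) / ((p : ℝ) - 1) ≤ 0.6223 * √(T : ℝ) := by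
  have h1 : ∑ p ∈ P7 T, √(p : ℝ) / ((p : ℝ) - 1) ≤ ∑ p ∈ P7 T, 7 / 6 * (1 / √(p : ℝ)) := by
    apply Finset.sum_le_sum
    intro p hp
    rw [mem_P7] at hp
    have hpR : (7 : ℝ) ≤ p := by exact_mod_cast hp.2.1
    have hs0 : 0 < √(p : ℝ) := Real.sqrt_pos.2 (by linarith)
    have hs2 : √(p : ℝ) ^ 2 = p := Real.sq_sqrt (by linarith)
    have e1 : 7 / 6 * (1 / √(p : ℝ)) = 7 / (6 * √(p : ℝ)) := by ring
    rw [e1, div_le_div_iff₀ (by linarith) (by positivity)]
    nlinarith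
  refine h1.trans ?_
  rw [← Finset.mul_sum]
  have h2 : ∑ p ∈ P7 T, 1 / √(p : ℝ) ≤
      ∑ n ∈ (Ioc 6 T).filter (fun m => Nat.Coprime m 30), 1 / √(n : ℝ) := by
    apply Finset.sum_le_sum_of_subset_of_nonneg
    · intro p hp
      rw [mem_P7] at hp
      rw [mem_filter, mem_Ioc]
      exact ⟨⟨by omega, hp.2.2⟩, prime_coprime_30 hp.1 hp.2.1⟩
    · intro n _ _; positivity
  have h3 := abel_up (fun j : ℕ => 1 / √(j : ℝ)) 6 T (by omega)
    (by
      intro n hn _
      have hn0 : (0 : ℝ) < n := by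
        have : 0 < n := by omega
        exact_mod_cast this
      push_cast
      apply one_div_le_one_div_of_le (Real.sqrt_pos.2 hn0)
      exact Real.sqrt_le_sqrt (by linarith)) (by positivity) (23 / 15)
    (by
      have : C30 6 = 1 := by decide +kernel
      rw [this]; norm_num)
  have h4 := sum_inv_sqrt 6 T (by omega)
  have h5 : 2.4494 ≤ √((6 : ℕ) : ℝ) := by
    apply Real.le_sqrt_of_sq_le
    norm_num
  have h6 : 1 / √(((6 : ℕ) : ℝ) + 1) ≤ 0.378 := by
    have h7 : 2.6457 ≤ √(((6 : ℕ) : ℝ) + 1) := by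
      apply Real.le_sqrt_of_sq_le
      norm_num
    rw [div_le_iff₀ (lt_of_lt_of_le (by norm_num) h7)]
    norm_num at h7 ⊢
    linarith
  have h8 : 0 ≤ √(T : ℝ) := Real.sqrt_nonneg _
  push_cast at h3 h4 h5 h6
  norm_num at h2 h3 h4 h5 h6 ⊢
  linarith

/-- the numerical inequality -/
lemma numB (l : ℝ) (hl : 11.09 ≤ l) :
    (0.14183 * l - 0.1819) / (0.26666 * l + 0.56) + (1.20445 + 2.8978 / l) +
      (0.0566 + 0.159 / l) + 0.0001 ≤ 1.9999 := by
  have hl0 : 0 < l := by linarith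
  have h1 : 0 < 0.26666 * l + 0.56 := by linarith
  have h2 : (0.14183 * l - 0.1819) / (0.26666 * l + 0.56) + 3.0568 / l ≤ 0.73875 := by
    rw [div_add_div _ _ h1.ne' hl0.ne', div_le_iff₀ (by positivity)]
    nlinarith
  have h3 : 2.8978 / l + 0.159 / l = 3.0568 / l := by ring
  linarith

/-- parameters -/
structure Par (R T : ℕ) : Prop where
  hR : 2 ^ 16 ≤ R
  hT1 : T ^ 2 ≤ R
  hT2 : R < (T + 1) ^ 2

lemma Par.T_ge {R T : ℕ} (h : Par R T) : 256 ≤ T := by
  have h1 := h.hR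
  have h2 := h.hT2
  by_contra hlt
  have h3 : T + 1 ≤ 256 := by omega
  have h4 : (T + 1) ^ 2 ≤ 256 ^ 2 := Nat.pow_le_pow_left h3 2
  norm_num at h1 h4
  omega

lemma Par.l_ge {R T : ℕ} (h : Par R T) : 11.09 ≤ Real.log R := by
  have h1 : ((2 : ℝ)) ^ 16 ≤ R := by exact_mod_cast h.hR
  have h2 := Real.log_le_log (by positivity) h1
  rw [Real.log_pow] at h2
  have h3 := Real.log_two_gt_d9
  push_cast at h2
  norm_num at h2 h3 ⊢
  linarith

lemma c257 (n : ℕ) (hn : 256 ≤ n) : Ls n ≤ Real.log n + 0.6514 := by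
  have h1 := Ls_upper n (by omega)
  have hnR : (256 : ℝ) ≤ n := by exact_mod_cast hn
  have h2 : Real.log n ≤ 8 * Real.log 2 + ((n : ℝ) / 256 - 1) := by
    have h3 : Real.log n = Real.log 256 + Real.log ((n : ℝ) / 256) := by
      rw [← Real.log_mul (by norm_num) (by positivity)]
      congr 1; field_simp
    have h4 : Real.log ((n : ℝ) / 256) ≤ (n : ℝ) / 256 - 1 :=
      Real.log_le_sub_one_of_pos (by positivity)
    have h5 : Real.log 256 = 8 * Real.log 2 := by
      rw [show (256 : ℝ) = 2 ^ 8 by norm_num, Real.log_pow]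
      push_cast; ring
    linarith
  have h6 := Real.log_two_lt_d9
  have h3 : (Real.log n + 7.6) / n ≤ 0.0514 := by
    rw [div_le_iff₀ (by linarith)]
    norm_num at h2 h6 ⊢
    linarith
  norm_num at h1 h3 ⊢
  linarith

lemma part1 {R T : ℕ} (h : Par R T) :
    ∑ p ∈ P7 T, NN R p / ((p : ℝ) - 1) ≤ 0.14183 * Real.log R - 0.1819 := by
  have hT := h.T_ge
  have hRR : (65536 : ℝ) ≤ R := by
    have := h.hR
    norm_num at this
    exact_mod_cast this
  have hTR : (256 : ℝ) ≤ T := by exact_mod_cast hT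
  have h1 : ∀ p ∈ P7 T, NN R p / ((p : ℝ) - 1) ≤
      0.28366 * (Real.log p / ((p : ℝ) - 1)) +
        2.5574 * (1 / √(R : ℝ)) * (√(p : ℝ) / ((p : ℝ) - 1)) := by
    intro p hp
    rw [mem_P7] at hp
    have hp1 := pred_pos hp.1
    have h2 := NN_le R p (by have := h.hR; norm_num at this; omega) hp.1.one_le
    rw [Real.sqrt_div (by positivity)] at h2
    calc NN R p / ((p : ℝ) - 1) ≤
        (0.28366 * Real.log p + 2.5574 * (√(p : ℝ) / √(R : ℝ))) / ((p : ℝ) - 1) := by gcongr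
      _ = _ := by ring
  refine (Finset.sum_le_sum h1).trans ?_
  rw [Finset.sum_add_distrib, ← Finset.mul_sum, ← Finset.mul_sum]
  have h2 := Ls_split T (by omega)
  have h3 := c257 T hT
  have h4 := sum_sqrt T (by omega)
  have h5 : Real.log T ≤ Real.log R / 2 := by
    have e1 : (T : ℝ) ^ 2 ≤ R := by exact_mod_cast h.hT1
    have e2 := Real.log_le_log (by positivity) e1
    rw [Real.log_pow] at e2
    push_cast at e2
    linarith
  have h6 : 1 / √(R : ℝ) * √(T : ℝ) ≤ 1 / 16 := by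
    have e1 : (T : ℝ) ^ 2 ≤ R := by exact_mod_cast h.hT1
    have e2 : (T : ℝ) ≤ √(R : ℝ) := Real.le_sqrt_of_sq_le e1
    have e3 : √(T : ℝ) ^ 2 = T := Real.sq_sqrt (by positivity)
    have e4 : 16 ≤ √(T : ℝ) := Real.le_sqrt_of_sq_le (by norm_num; linarith)
    have e5 : 0 < √(R : ℝ) := Real.sqrt_pos.2 (by linarith)
    rw [one_div_mul_eq_div, div_le_div_iff₀ e5 (by norm_num)]
    nlinarith
  have h7 : 2.5574 * (1 / √(R : ℝ)) * ∑ p ∈ P7 T, √(p : ℝ) / ((p : ℝ) - 1) ≤ 0.09948 := by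
    have e1 : 0 ≤ 2.5574 * (1 / √(R : ℝ)) := by positivity
    have e2 := mul_le_mul_of_nonneg_left h4 e1
    norm_num at e2 h6 ⊢
    nlinarith
  have h8 := log3.1
  have h9 := log5.1
  have h10 := Real.log_two_gt_d9
  set S := ∑ p ∈ P7 T, Real.log p / ((p : ℝ) - 1) with hS
  norm_num at h2 h3 h7 h8 h9 h10 ⊢
  linarith

lemma part2 {R T : ℕ} (h : Par R T) :
    ∑ p ∈ (Ioc T (R ^ 4)).filter Nat.Prime,
      (1 - Real.log p / Real.log ((R ^ 4 : ℕ) : ℝ)) / ((p : ℝ) - 1) ≤
      1.20445 + 2.8978 / Real.log R := by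
  have hT := h.T_ge
  have hl := h.l_ge
  have hRR : (65536 : ℝ) ≤ R := by
    have := h.hR
    norm_num at this
    exact_mod_cast this
  have hTR : (256 : ℝ) ≤ T := by exact_mod_cast hT
  have hTlt : T < R ^ 4 := by
    have h1 := h.hT1
    have h2 : T ≤ T ^ 2 := Nat.le_self_pow (by norm_num) _
    have hR1 : 1 < R := by have := h.hR; norm_num at this; omega
    have h3 : R < R ^ 4 := by
      calc R = R ^ 1 := (pow_one R).symm
        _ < R ^ 4 := Nat.pow_lt_pow_right hR1 (by norm_num)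
    omega
  have h1 := tail_main T (R ^ 4) (by omega) hTlt 0.6514 (fun n hn _ => c257 n (by omega))
  refine h1.trans ?_
  set l := Real.log R with hldef
  have hl0 : 0 < l := by linarith
  have e1 : Real.log ((R ^ 4 : ℕ) : ℝ) = 4 * l := by
    push_cast
    rw [Real.log_pow]; push_cast; ring
  rw [e1]
  set u := Real.log ((T : ℝ) + 1) with hu
  have hu1 : l / 2 ≤ u := by
    have e2 : (R : ℝ) ≤ ((T : ℝ) + 1) ^ 2 := by exact_mod_cast h.hT2.le
    have e3 := Real.log_le_log (by linarith) e2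
    rw [Real.log_pow] at e3
    push_cast at e3
    linarith
  have hu2 : u - Real.log T ≤ 0.0039063 := by
    have e2 := log_succ_le T (by omega)
    have e3 : 1 / (T : ℝ) ≤ 1 / 256 := one_div_le_one_div_of_le (by norm_num) hTR
    norm_num at e2 e3 ⊢
    linarith
  have hu3 : Real.log T ≤ l / 2 := by
    have e1 : (T : ℝ) ^ 2 ≤ R := by exact_mod_cast h.hT1
    have e2 := Real.log_le_log (by positivity) e1
    rw [Real.log_pow] at e2
    push_cast at e2
    linarith
  have hu0 : 0 < u := by linarith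
  have hLs := Ls_lower T (by omega)
  have f1 : Real.log (4 * l) - Real.log u ≤ 3 * Real.log 2 := by
    have e2 : Real.log (l / 2) ≤ Real.log u := Real.log_le_log (by positivity) hu1
    have e3 : Real.log (4 * l) = 3 * Real.log 2 + Real.log (l / 2) := by
      have : 4 * l = 2 ^ 3 * (l / 2) := by ring
      rw [this, Real.log_mul (by norm_num) (by positivity), Real.log_pow]
      push_cast; ring
    linarith
  have f2 : 1 / (4 * l) ≤ 1 / u := by
    apply one_div_le_one_div_of_le hu0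
    linarith
  have f3 : (0.6514 - Ls T) * (1 / u - 1 / (4 * l)) ≤
      (1.65531 - u) * (1 / u - 1 / (4 * l)) := by
    apply mul_le_mul_of_nonneg_right _ (by linarith)
    norm_num at hu2 hLs ⊢
    linarith
  have f4 : (1.65531 - u) * (1 / u - 1 / (4 * l)) =
      1.65531 * (1 / u) - 1 - 1.65531 * (1 / (4 * l)) + u * (1 / (4 * l)) := by
    field_simp
    ring
  have f5 : 1 / u ≤ 2 * (1 / l) := by
    have : 1 / u ≤ 1 / (l / 2) := one_div_le_one_div_of_le (by positivity) hu1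
    have e2 : 1 / (l / 2) = 2 * (1 / l) := by field_simp
    linarith
  have f6 : 1 / (4 * l) = 1 / 4 * (1 / l) := by field_simp
  have f7 : u * (1 / (4 * l)) ≤ 1 / 8 + 0.000977 * (1 / l) := by
    have e2 : u ≤ l / 2 + 0.0039063 := by linarith
    have e3 : 0 ≤ 1 / (4 * l) := by positivity
    have e4 := mul_le_mul_of_nonneg_right e2 e3
    have e5 : (l / 2 + 0.0039063) * (1 / (4 * l)) = 1 / 8 + 0.0039063 / 4 * (1 / l) := by
      field_simp
      ring
    have e6 : 0 < l⁻¹ := by positivity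
    rw [e5] at e4
    norm_num at e4 ⊢
    linarith
  have f8 := Real.log_two_lt_d9
  have f9 : (2.8978 : ℝ) / l = 2.8978 * (1 / l) := by ring
  have f10 : 0 < l⁻¹ := by positivity
  rw [f9]
  rw [f4] at f3
  rw [f6] at f3 f7 ⊢
  norm_num at f1 f3 f5 f7 f8 ⊢
  linarith

end Pool.Agent.Lib.MP_bf4c7f
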