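import Mathlib
import Pool.Agent.Lib.MP_bf4c7f_nt.RegB

/-!
# The range `x ≥ 2 ^ 96`: conclusion
-/

set_option autoImplicit false

namespace Pool.Agent.Lib.MP_bf4c7f

open Finset

/-- the main sum, divided by `G` -/
lemma mainB {R T : ℕ} (h : Par R T) :
    ∑ p ∈ P7 (R ^ 4), (1 - Real.log p / Real.log ((R ^ 4 : ℕ) : ℝ)) * (NN R p / GG R) /
      ((p : ℝ) - 1) ≤
      (0.14183 * Real.log R - 0.1819) / (0.26666 * Real.log R + 0.56) +
        (1.20445 + 2.8978 / Real.log R) := by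
  have hT := h.T_ge
  have hl := h.l_ge
  have hR16 : 65536 ≤ R := by have := h.hR; norm_num at this; exact this
  have hTR4 : T < R ^ 4 := by
    have h1 := h.hT1
    have h2 : T ≤ T ^ 2 := Nat.le_self_pow (by norm_num) _
    have hR1 : 1 < R := by omega
    have h3 : R < R ^ 4 := by
      calc R = R ^ 1 := (pow_one R).symm
        _ < R ^ 4 := Nat.pow_lt_pow_right hR1 (by norm_num)
    omega
  have hG1 := GG_lower R (by omega)
  have hG0 : 0 < GG R := by
    have : 0 < 4 / 15 * Real.log R + 0.56 := by linarith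
    linarith
  have hsplit : P7 (R ^ 4) = P7 T ∪ (Ioc T (R ^ 4)).filter Nat.Prime := by
    ext p
    simp only [mem_P7, mem_union, mem_filter, mem_Ioc]
    constructor
    · rintro ⟨h1, h2, h3⟩
      rcases le_or_gt p T with h | h
      · exact Or.inl ⟨h1, h2, h⟩
      · exact Or.inr ⟨⟨h, h3⟩, h1⟩
    · rintro (⟨h1, h2, h3⟩ | ⟨⟨h1, h2⟩, h3⟩)
      · exact ⟨h1, h2, by omega⟩
      · exact ⟨h3, by omega, h2⟩
  have hdisj : Disjoint (P7 T) ((Ioc T (R ^ 4)).filter Nat.Prime) := by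
    rw [Finset.disjoint_left]
    intro m hm hm'
    rw [mem_P7] at hm
    simp only [mem_filter, mem_Ioc] at hm'
    omega
  have hY : 0 < Real.log ((R ^ 4 : ℕ) : ℝ) := by
    push_cast
    rw [Real.log_pow]
    push_cast
    linarith
  have hw : ∀ p : ℕ, p.Prime → p ≤ R ^ 4 → 0 ≤ 1 - Real.log p / Real.log ((R ^ 4 : ℕ) : ℝ) := by
    intro p hp hpR
    have h3 : Real.log p ≤ Real.log ((R ^ 4 : ℕ) : ℝ) :=
      Real.log_le_log (by exact_mod_cast hp.pos) (by exact_mod_cast hpR)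
    have h4 : Real.log p / Real.log ((R ^ 4 : ℕ) : ℝ) ≤ 1 := by rw [div_le_one hY]; exact h3
    linarith
  rw [hsplit, Finset.sum_union hdisj]
  have e1 : ∑ p ∈ P7 T, (1 - Real.log p / Real.log ((R ^ 4 : ℕ) : ℝ)) * (NN R p / GG R) /
      ((p : ℝ) - 1) ≤ (0.14183 * Real.log R - 0.1819) / (0.26666 * Real.log R + 0.56) := by
    have h1 : ∀ p ∈ P7 T, (1 - Real.log p / Real.log ((R ^ 4 : ℕ) : ℝ)) * (NN R p / GG R) /
        ((p : ℝ) - 1) ≤ (1 / GG R) * (NN R p / ((p : ℝ) - 1)) := by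
      intro p hp
      rw [mem_P7] at hp
      have hp1 := pred_pos hp.1
      have hlp : 0 ≤ Real.log p := Real.log_nonneg (by exact_mod_cast hp.1.one_le)
      have h2 : 1 - Real.log p / Real.log ((R ^ 4 : ℕ) : ℝ) ≤ 1 := by
        have : 0 ≤ Real.log p / Real.log ((R ^ 4 : ℕ) : ℝ) := by positivity
        linarith
      have h3 : 0 ≤ NN R p / GG R / ((p : ℝ) - 1) := by
        have := NN_nonneg R p
        positivity
      calc (1 - Real.log p / Real.log ((R ^ 4 : ℕ) : ℝ)) * (NN R p / GG R) / ((p : ℝ) - 1)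
          = (1 - Real.log p / Real.log ((R ^ 4 : ℕ) : ℝ)) * (NN R p / GG R / ((p : ℝ) - 1)) := by
            ring
        _ ≤ 1 * (NN R p / GG R / ((p : ℝ) - 1)) := mul_le_mul_of_nonneg_right h2 h3
        _ = _ := by field_simp
    refine (Finset.sum_le_sum h1).trans ?_
    rw [← Finset.mul_sum]
    have h2 := part1 h
    have h3 : 0 < 0.26666 * Real.log R + 0.56 := by linarith
    have h4 : 0.26666 * Real.log R + 0.56 ≤ GG R := by
      norm_num at hG1 ⊢
      linarith
    have h5 : 0 ≤ 0.14183 * Real.log R - 0.1819 := by linarith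
    calc 1 / GG R * ∑ p ∈ P7 T, NN R p / ((p : ℝ) - 1)
        ≤ 1 / GG R * (0.14183 * Real.log R - 0.1819) :=
          mul_le_mul_of_nonneg_left h2 (by positivity)
      _ = (0.14183 * Real.log R - 0.1819) / GG R := by ring
      _ ≤ _ := div_le_div_of_nonneg_left h5 h3 h4
  have e2 : ∑ p ∈ (Ioc T (R ^ 4)).filter Nat.Prime,
      (1 - Real.log p / Real.log ((R ^ 4 : ℕ) : ℝ)) * (NN R p / GG R) / ((p : ℝ) - 1) ≤
      1.20445 + 2.8978 / Real.log R := by
    refine le_trans ?_ (part2 h)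
    apply Finset.sum_le_sum
    intro p hp
    rw [mem_filter, mem_Ioc] at hp
    have hp1 := pred_pos hp.2
    have h1 := hw p hp.2 hp.1.2
    have h2 : NN R p / GG R ≤ 1 := by rw [div_le_one hG0]; exact NN_le_GG R p
    apply div_le_div_of_nonneg_right _ hp1.le
    exact mul_le_of_le_one_right h1 h2
  linarith

theorem regB (x a : ℕ) (hx : 2 ^ 96 ≤ x) (ha : a + x ≤ x ^ 2 + x) :
    ∃ n, a < n ∧ n < a + x ∧ n.primeFactorsList.length ≤ 4 := by
  obtain ⟨R, hR1, hR2⟩ := exists_root x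
  have hR16 : 2 ^ 16 ≤ R := by
    by_contra hlt
    have h1 : R + 1 ≤ 2 ^ 16 := by omega
    have h2 : (R + 1) ^ 6 ≤ (2 ^ 16) ^ 6 := Nat.pow_le_pow_left h1 6
    have h3 : ((2 : ℕ) ^ 16) ^ 6 = 2 ^ 96 := by norm_num
    omega
  have hpar : Par R (Nat.sqrt R) := ⟨hR16, Nat.sqrt_le' R, Nat.lt_succ_sqrt' R⟩
  have hl := hpar.l_ge
  set l := Real.log R with hldef
  have hl0 : 0 < l := by linarith
  have hRR : (65536 : ℝ) ≤ R := by
    norm_num at hR16
    exact_mod_cast hR16
  have hR0 : (0 : ℝ) < R := by linarith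
  have hx1 : 1 ≤ x := le_trans (by norm_num) hx
  have hxR6 : (R : ℝ) ^ 6 ≤ x := by exact_mod_cast hR1
  have hxR7 : (x : ℝ) ≤ ((R : ℝ) + 1) ^ 6 := by exact_mod_cast hR2.le
  have hR4 : (65536 : ℝ) ^ 4 ≤ (R : ℝ) ^ 4 := pow_le_pow_left₀ (by norm_num) hRR 4
  have hR6 : (65536 : ℝ) ^ 6 ≤ (R : ℝ) ^ 6 := pow_le_pow_left₀ (by norm_num) hRR 6
  have hxbig : (65536 : ℝ) ^ 6 ≤ x := hR6.trans hxR6
  have hY : Real.log ((R ^ 4 : ℕ) : ℝ) = 4 * l := by
    push_cast
    rw [Real.log_pow]; push_cast; ring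
  have hG1 := GG_lower R (by norm_num at hR16; omega)
  have hG2 := GG_upper R (by norm_num at hR16; omega)
  rw [← hldef] at hG1 hG2
  set g := GG R with hg
  have hg0 : 0 < g := by
    have : 0 < 4 / 15 * l + 0.56 := by linarith
    linarith
  -- the logarithm of `N`
  have hlogN : Real.log ((x ^ 2 + x : ℕ) : ℝ) ≤ 12 * l + 0.0002 := by
    have h1 := logN_le x hx1
    have h2 : Real.log x ≤ 6 * Real.log ((R : ℝ) + 1) := by
      have h3 := Real.log_le_log (by positivity) hxR7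
      rw [Real.log_pow] at h3
      push_cast at h3
      exact h3
    have h3 := log_succ_le R (by norm_num at hR16; omega)
    have h4 : 1 / (R : ℝ) ≤ 1 / 65536 := one_div_le_one_div_of_le (by norm_num) hRR
    have h5 : 1 / (x : ℝ) ≤ 1 / (65536 : ℝ) ^ 6 := one_div_le_one_div_of_le (by norm_num) hxbig
    norm_num at h1 h2 h3 h4 h5 ⊢
    linarith
  have hNY : Real.log ((x ^ 2 + x : ℕ) : ℝ) / (4 * l) ≤ 3.00001 := by
    rw [div_le_iff₀ (by positivity)]
    norm_num at hlogN hl ⊢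
    linarith
  have hlogN0 : 0 ≤ Real.log ((x ^ 2 + x : ℕ) : ℝ) := by
    apply Real.log_nonneg
    have : 1 ≤ x ^ 2 + x := by nlinarith only [hx]
    exact_mod_cast this
  set D : ℝ := (4 * (R : ℝ) + 14) / 15 with hD
  have hD0 : 0 < D := by positivity
  have hS := sum_abs_lam R
  rw [← hg, ← hD] at hS
  have hS0 : 0 ≤ ∑ d ∈ Icc 1 R, |lam R d| := Finset.sum_nonneg (fun _ _ => abs_nonneg _)
  have hS2 : (∑ d ∈ Icc 1 R, |lam R d|) ^ 2 ≤ (D * g) ^ 2 := pow_le_pow_left₀ hS0 hS 2
  have hcast : ((a + (x - 1) : ℕ) : ℝ) - a = (x : ℝ) - 1 := by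
    rw [Nat.cast_add, Nat.cast_sub hx1]
    push_cast; ring
  have hxm : (0 : ℝ) < (x : ℝ) - 1 := by
    have : (1 : ℝ) < (65536 : ℝ) ^ 6 := by norm_num
    linarith
  obtain ⟨n, hn, hn4⟩ := crit (Ioc a (a + (x - 1))) (x ^ 2 + x)
    (by
      intro n hn
      rw [mem_Ioc] at hn
      constructor
      · omega
      · omega)
    (W R) (fun n _ => W_nonneg R n)
    (by intro n _ h; unfold W ind30; rw [if_neg h, zero_mul]) (R ^ 4)
    (by
      have : R ≤ R ^ 4 := Nat.le_self_pow (by norm_num) _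
      norm_num at hR16
      omega)
    (4 / 15 * ((x : ℝ) - 1) * g) (28 / 15 * (D * g) ^ 2) (by positivity) (by positivity)
    (fun p => NN R p / g) (fun p => div_nonneg (NN_nonneg R p) hg0.le)
    (by
      intro p hp hp7 _ k hk
      have h1 := sum_W_bound a (a + (x - 1)) R (p ^ k) (by omega) (pow_pos hp.pos k)
        (Nat.Coprime.pow_left k (prime_coprime_30 hp hp7))
      rw [hcast, QF_pow R p k hp (prime_coprime_30 hp hp7) hk] at h1
      have h2 := (abs_le.1 h1).2
      have h3 : 4 / 15 * ((x : ℝ) - 1) * g * (NN R p / g) / (p : ℝ) ^ k =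
          4 / 15 * ((x : ℝ) - 1) * (NN R p / (p : ℝ) ^ k) := by
        field_simp
      beta_reduce
      rw [h3]
      linarith only [hS2, h2])
    (by
      have h1 := sum_W_bound a (a + (x - 1)) R 1 (by omega) (by norm_num) (by norm_num)
      rw [hcast, QF_one] at h1
      have h2 := (abs_le.1 h1).1
      have h5 : (Ioc a (a + (x - 1))).filter (fun n => 1 ∣ n) = Ioc a (a + (x - 1)) := by
        apply Finset.filter_true_of_mem
        intro n _
        exact one_dvd n
      rw [h5] at h2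
      linarith only [hS2, h2])
    (by rw [hY]; linarith)
    (by
      have hmain := mainB hpar
      have herr := errSum_prime (R ^ 4) (by
        have : R ≤ R ^ 4 := Nat.le_self_pow (by norm_num) _
        norm_num at hR16
        omega)
      rw [hY, ← hldef, ← hg] at hmain
      rw [hY] at herr ⊢
      have e2 : ∑ p ∈ P7 (R ^ 4), (1 - Real.log p / (4 * l)) *
          (Real.log ((x ^ 2 + x : ℕ) : ℝ) / Real.log p) =
          (Real.log ((x ^ 2 + x : ℕ) : ℝ) / (4 * l)) *
            ∑ p ∈ P7 (R ^ 4), (4 * l / Real.log p - 1) := by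
        rw [Finset.mul_sum]
        apply Finset.sum_congr rfl
        intro p hp
        rw [mem_P7] at hp
        have hlp : Real.log p ≠ 0 := (Real.log_pos (by exact_mod_cast hp.1.one_lt)).ne'
        field_simp
      rw [e2]
      set M := ∑ p ∈ P7 (R ^ 4), (1 - Real.log p / (4 * l)) * (NN R p / g) / ((p : ℝ) - 1) with hM
      set S2 := ∑ p ∈ P7 (R ^ 4), (4 * l / Real.log p - 1) with hS2def
      set ν := Real.log ((x ^ 2 + x : ℕ) : ℝ) / (4 * l) with hν
      have hν0 : 0 ≤ ν := div_nonneg hlogN0 (by positivity)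
      have hnum := numB l hl
      -- the error sum
      have f1 : ν * S2 ≤ 0.400002 * (R : ℝ) ^ 4 / l := by
        have g1 : ν * S2 ≤ ν * (8 / 15 * ((R ^ 4 : ℕ) : ℝ) / (4 * l)) :=
          mul_le_mul_of_nonneg_left herr hν0
        have g2 : ν * (8 / 15 * ((R ^ 4 : ℕ) : ℝ) / (4 * l)) ≤
            3.00001 * (8 / 15 * ((R ^ 4 : ℕ) : ℝ) / (4 * l)) :=
          mul_le_mul_of_nonneg_right hNY (by positivity)
        have g3 : 3.00001 * (8 / 15 * ((R ^ 4 : ℕ) : ℝ) / (4 * l)) =
            (3.00001 * 2 / 15) * ((R : ℝ) ^ 4 / l) := by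
          push_cast; field_simp; norm_num
        have g4 : 0 ≤ (R : ℝ) ^ 4 / l := by positivity
        have g5 : (3.00001 * 2 / 15) * ((R : ℝ) ^ 4 / l) ≤ 0.400002 * ((R : ℝ) ^ 4 / l) :=
          mul_le_mul_of_nonneg_right (by norm_num) g4
        have g6 : 0.400002 * (R : ℝ) ^ 4 / l = 0.400002 * ((R : ℝ) ^ 4 / l) := by ring
        rw [g6]
        linarith only [g1, g2, g3, g4]
      -- `D ^ 2 R ^ 4` versus `x - 1`
      have f2 : 7 * D ^ 2 * (R : ℝ) ^ 4 ≤ 0.4981 * ((x : ℝ) - 1) := by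
        have g1 : 7 * D ^ 2 ≤ 0.498 * (R : ℝ) ^ 2 := by
          rw [hD]
          nlinarith only [hRR]
        have g2 : 7 * D ^ 2 * (R : ℝ) ^ 4 ≤ 0.498 * (R : ℝ) ^ 2 * (R : ℝ) ^ 4 :=
          mul_le_mul_of_nonneg_right g1 (by positivity)
        have g3 : 0.498 * (R : ℝ) ^ 2 * (R : ℝ) ^ 4 = 0.498 * (R : ℝ) ^ 6 := by ring
        have g4 : (10 : ℝ) ^ 6 ≤ (65536 : ℝ) ^ 6 := by norm_num
        norm_num at g2 g3 g4 hxbig hxR6 ⊢
        linarith only [hxR6, hR6, g2]
      have f3 : g ≤ 0.28366 * l + 0.798 := by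
        norm_num at hG2 ⊢
        linarith only [hl, hG2]
      have f4 : g ≤ l := by linarith only [hl, hG2]
      have f5 : l ≤ R := by
        have := Real.log_le_sub_one_of_pos hR0
        rw [← hldef] at this
        linarith only [this]
      -- now put everything together
      have k1 : 28 / 15 * (D * g) ^ 2 * (ν * S2) ≤
          4 / 15 * ((x : ℝ) - 1) * g * (0.0566 + 0.159 / l) := by
        have g1 : 28 / 15 * (D * g) ^ 2 * (ν * S2) ≤
            28 / 15 * (D * g) ^ 2 * (0.400002 * (R : ℝ) ^ 4 / l) :=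
          mul_le_mul_of_nonneg_left f1 (by positivity)
        have g2 : 28 / 15 * (D * g) ^ 2 * (0.400002 * (R : ℝ) ^ 4 / l) =
            4 / 15 * g * (0.400002 * (g / l)) * (7 * D ^ 2 * (R : ℝ) ^ 4) := by
          field_simp; ring
        have g3 : 4 / 15 * g * (0.400002 * (g / l)) * (7 * D ^ 2 * (R : ℝ) ^ 4) ≤
            4 / 15 * g * (0.400002 * (g / l)) * (0.4981 * ((x : ℝ) - 1)) :=
          mul_le_mul_of_nonneg_left f2 (by positivity)
        have g4 : g / l ≤ 0.28366 + 0.798 / l := by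
          have : g / l ≤ (0.28366 * l + 0.798) / l := div_le_div_of_nonneg_right f3 hl0.le
          have e : (0.28366 * l + 0.798) / l = 0.28366 + 0.798 / l := by field_simp
          rwa [e] at this
        have g5 : 0.400002 * (g / l) * 0.4981 ≤ 0.0566 + 0.159 / l := by
          have e1 : (0.159 : ℝ) / l = 0.159 * (1 / l) := by ring
          have e2 : (0.798 : ℝ) / l = 0.798 * (1 / l) := by ring
          have e3 : 0 < 1 / l := by positivity
          rw [e1]
          rw [e2] at g4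
          nlinarith only [g4, e3]
        have g6 : 4 / 15 * g * (0.400002 * (g / l)) * (0.4981 * ((x : ℝ) - 1)) =
            4 / 15 * ((x : ℝ) - 1) * g * (0.400002 * (g / l) * 0.4981) := by ring
        have g7 : 4 / 15 * ((x : ℝ) - 1) * g * (0.400002 * (g / l) * 0.4981) ≤
            4 / 15 * ((x : ℝ) - 1) * g * (0.0566 + 0.159 / l) :=
          mul_le_mul_of_nonneg_left g5 (by positivity)
        linarith only [g1, g2, g3, g7]
      have k2 : 28 / 15 * (D * g) ^ 2 ≤ 4 / 15 * ((x : ℝ) - 1) * g * 0.00001 := by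
        have g1 : 28 / 15 * (D * g) ^ 2 * (R : ℝ) ^ 4 =
            4 / 15 * g * g * (7 * D ^ 2 * (R : ℝ) ^ 4) := by ring
        have g2 : 4 / 15 * g * g * (7 * D ^ 2 * (R : ℝ) ^ 4) ≤
            4 / 15 * g * g * (0.4981 * ((x : ℝ) - 1)) :=
          mul_le_mul_of_nonneg_left f2 (by positivity)
        have g3 : g * 0.4981 ≤ 0.00001 * (R : ℝ) ^ 4 := by
          have e1 : (R : ℝ) * 65536 ^ 3 ≤ (R : ℝ) ^ 4 := by
            have : (65536 : ℝ) ^ 3 ≤ (R : ℝ) ^ 3 := pow_le_pow_left₀ (by norm_num) hRR 3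
            calc (R : ℝ) * 65536 ^ 3 ≤ (R : ℝ) * (R : ℝ) ^ 3 :=
                  mul_le_mul_of_nonneg_left this hR0.le
              _ = (R : ℝ) ^ 4 := by ring
          norm_num at e1 ⊢
          linarith only [hR4, hG2, f5, e1]
        have g4 : 4 / 15 * g * g * (0.4981 * ((x : ℝ) - 1)) ≤
            4 / 15 * g * ((x : ℝ) - 1) * (0.00001 * (R : ℝ) ^ 4) := by
          have : 4 / 15 * g * g * (0.4981 * ((x : ℝ) - 1)) =
              4 / 15 * g * ((x : ℝ) - 1) * (g * 0.4981) := by ring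
          rw [this]
          exact mul_le_mul_of_nonneg_left g3 (by positivity)
        have g5 : 28 / 15 * (D * g) ^ 2 * (R : ℝ) ^ 4 ≤
            4 / 15 * ((x : ℝ) - 1) * g * 0.00001 * (R : ℝ) ^ 4 := by
          rw [g1]
          refine g2.trans (g4.trans (le_of_eq ?_))
          ring
        exact le_of_mul_le_mul_right g5 (by positivity)
      have hX : 0 < 4 / 15 * ((x : ℝ) - 1) * g := by positivity
      set X := 4 / 15 * ((x : ℝ) - 1) * g with hXdef
      set E := 28 / 15 * (D * g) ^ 2 with hE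
      have hE0 : 0 ≤ E := by positivity
      have k3 : X * M ≤ X * ((0.14183 * l - 0.1819) / (0.26666 * l + 0.56) +
          (1.20445 + 2.8978 / l)) := mul_le_mul_of_nonneg_left hmain hX.le
      have k4 : X * (((0.14183 * l - 0.1819) / (0.26666 * l + 0.56) +
          (1.20445 + 2.8978 / l)) + (0.0566 + 0.159 / l) + 0.0001) ≤ X * 1.9999 :=
        mul_le_mul_of_nonneg_left hnum hX.le
      have k5 : (5 - ν) * (X - E) ≥ 1.99999 * (X - E) := by
        apply mul_le_mul_of_nonneg_right (by linarith only [hNY])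
        linarith only [hX, k2]
      have k6 : X * (((0.14183 * l - 0.1819) / (0.26666 * l + 0.56) +
          (1.20445 + 2.8978 / l)) + (0.0566 + 0.159 / l) + 0.0001) =
          X * ((0.14183 * l - 0.1819) / (0.26666 * l + 0.56) + (1.20445 + 2.8978 / l)) +
          X * (0.0566 + 0.159 / l) + X * 0.0001 := by ring
      rw [k6] at k4
      linarith only [hX, k1, k2, k3, k4, k5])
  rw [mem_Ioc] at hn
  exact ⟨n, hn.1, by omega, hn4⟩

end Pool.Agent.Lib.MP_bf4c7f
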