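import Mathlib

/-!
# The range `2 ≤ x ≤ 400`
-/

set_option autoImplicit false
open Finset

namespace Pool.Agent.Lib.MP_bf4c7f

lemma residues : ∀ r < 210, ∃ i < 10, Nat.Coprime (r + (i + 1)) 210 := by
  decide +kernel

lemma exists_coprime (a : ℕ) : ∃ i, 1 ≤ i ∧ i ≤ 10 ∧ Nat.Coprime (a + i) 210 := by
  obtain ⟨i, hi, h⟩ := residues (a % 210) (Nat.mod_lt _ (by norm_num))
  refine ⟨i + 1, by omega, by omega, ?_⟩
  have h1 : a + (i + 1) = (a % 210 + (i + 1)) + 210 * (a / 210) := by
    have := Nat.mod_add_div a 210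
    omega
  rw [h1]
  unfold Nat.Coprime at *
  rwa [Nat.gcd_add_mul_left_left]

lemma pow_le_of_coprime (n : ℕ) (hn : 1 ≤ n) (h : Nat.Coprime n 210) :
    11 ^ n.primeFactorsList.length ≤ n := by
  have h1 : ∀ p ∈ n.primeFactorsList, 11 ≤ p := by
    intro p hp
    have hpp := Nat.prime_of_mem_primeFactorsList hp
    have hdvd := Nat.dvd_of_mem_primeFactorsList hp
    have hc : Nat.Coprime p 210 := Nat.Coprime.coprime_dvd_left hdvd h
    by_contra hlt
    have hlt' : p < 11 := not_le.1 hlt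
    interval_cases p <;> revert hpp hc <;> decide
  have h2 := List.pow_card_le_prod n.primeFactorsList 11 h1
  rwa [Nat.prod_primeFactorsList (by omega)] at h2

lemma small_main (x a : ℕ) (hx : 11 ≤ x) (hx2 : x ≤ 400) (ha : a + x ≤ x ^ 2 + x) :
    ∃ n, a < n ∧ n < a + x ∧ n.primeFactorsList.length ≤ 4 := by
  obtain ⟨i, hi1, hi2, hc⟩ := exists_coprime a
  refine ⟨a + i, by omega, by omega, ?_⟩
  have h1 := pow_le_of_coprime (a + i) (by omega) hc
  by_contra hlt
  have h2 : 11 ^ 5 ≤ 11 ^ (a + i).primeFactorsList.length :=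
    Nat.pow_le_pow_right (by norm_num) (by omega)
  have h3 : a + i < 11 ^ 5 := by
    have : x ^ 2 ≤ 400 ^ 2 := Nat.pow_le_pow_left hx2 2
    have h5 : a + i < x ^ 2 + x := by omega
    calc a + i < x ^ 2 + x := h5
      _ ≤ 400 ^ 2 + 400 := by omega
      _ < 11 ^ 5 := by norm_num
  omega

lemma prime_length {p : ℕ} (hp : p.Prime) : p.primeFactorsList.length ≤ 4 := by
  rw [Nat.primeFactorsList_prime hp]; simp

/-- all the small cases -/
theorem small (x : ℕ) (hx : 2 ≤ x) (hx2 : x ≤ 400) :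
    (∃ n, x ^ 2 - x < n ∧ n < x ^ 2 ∧ n.primeFactorsList.length ≤ 4) ∧
    (∃ n, x ^ 2 < n ∧ n < x ^ 2 + x ∧ n.primeFactorsList.length ≤ 4) := by
  rcases le_or_gt 11 x with h | h
  · have hxx : x ≤ x ^ 2 := by nlinarith
    constructor
    · obtain ⟨n, h1, h2, h3⟩ := small_main x (x ^ 2 - x) h hx2 (by omega)
      exact ⟨n, h1, by omega, h3⟩
    · obtain ⟨n, h1, h2, h3⟩ := small_main x (x ^ 2) h hx2 le_rfl
      exact ⟨n, h1, h2, h3⟩
  · interval_cases x
    · exact ⟨⟨3, by norm_num, by norm_num, prime_length (by norm_num)⟩,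
        ⟨5, by norm_num, by norm_num, prime_length (by norm_num)⟩⟩
    · exact ⟨⟨7, by norm_num, by norm_num, prime_length (by norm_num)⟩,
        ⟨11, by norm_num, by norm_num, prime_length (by norm_num)⟩⟩
    · exact ⟨⟨13, by norm_num, by norm_num, prime_length (by norm_num)⟩,
        ⟨17, by norm_num, by norm_num, prime_length (by norm_num)⟩⟩
    · exact ⟨⟨23, by norm_num, by norm_num, prime_length (by norm_num)⟩,
        ⟨29, by norm_num, by norm_num, prime_length (by norm_num)⟩⟩
    · exact ⟨⟨31, by norm_num, by norm_num, prime_length (by norm_num)⟩,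
        ⟨37, by norm_num, by norm_num, prime_length (by norm_num)⟩⟩
    · exact ⟨⟨43, by norm_num, by norm_num, prime_length (by norm_num)⟩,
        ⟨53, by norm_num, by norm_num, prime_length (by norm_num)⟩⟩
    · exact ⟨⟨59, by norm_num, by norm_num, prime_length (by norm_num)⟩,
        ⟨67, by norm_num, by norm_num, prime_length (by norm_num)⟩⟩
    · exact ⟨⟨73, by norm_num, by norm_num, prime_length (by norm_num)⟩,
        ⟨83, by norm_num, by norm_num, prime_length (by norm_num)⟩⟩
    · exact ⟨⟨97, by norm_num, by norm_num, prime_length (by norm_num)⟩,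
        ⟨101, by norm_num, by norm_num, prime_length (by norm_num)⟩⟩

end Pool.Agent.Lib.MP_bf4c7f
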